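import Pool.Agent.MP_b0afd3_gt.H80.Up
import Pool.Agent.MP_b0afd3_gt.H95.Schlaefli

set_option autoImplicit false

namespace Pool.Agent.MP_b0afd3_gt.H80

open Real Filter Topology

variable {a b c d e f ξ x y z : ℝ}

abbrev PosC (a b c d e f : ℝ) : Prop := Pos (cos a) (cos b) (cos c) (cos d) (cos e) (cos f)

theorem cof_ne {B C D E F G : ℝ} (h1 : 0 < vtx (cos a) B D) (h2 : 0 < vtx (cos a) C E)
    (h3 : G < 0) (h4 : gdet (cos a) B C D E F = G) : cof (cos a) B C D E F ≠ 0 := by
  intro g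
  have := cof_sq (cos a) B C D E F
  rw [g, h4, ← sin_sq] at this
  nlinarith [mul_pos h1 h2, mul_nonneg (neg_pos.2 h3).le (sq_nonneg (sin a))]

theorem PosC.move (hp : PosC a b c d e f) (ha : Reg a b c d e f) (hx : Reg x b c d e f)
    (hg : ∀ t ∈ Set.uIcc a x, gd t b c d e f < 0) : PosC x b c d e f := by
  have R : ∀ t ∈ Set.uIcc a x, Reg t b c d e f := fun t => ha.between hx
  have c1 : ∀ B C D E F, (∀ t ∈ Set.uIcc a x, cof B C D E F (cos t) ≠ 0) →
      0 < cof B C D E F (cos a) → 0 < cof B C D E F (cos x) := fun B C D E F =>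
    sign_const (g := fun t => cof B C D E F (cos t)) (by unfold cof; fun_prop)
  have c2 : ∀ B C D E F, (∀ t ∈ Set.uIcc a x, cof B C D E (cos t) F ≠ 0) →
      0 < cof B C D E (cos a) F → 0 < cof B C D E (cos x) F := fun B C D E F =>
    sign_const (g := fun t => cof B C D E (cos t) F) (by unfold cof; fun_prop)
  have c3 : ∀ B C D E F, (∀ t ∈ Set.uIcc a x, cof (cos t) B C D E F ≠ 0) →
      0 < cof (cos a) B C D E F → 0 < cof (cos x) B C D E F := fun B C D E F =>
    sign_const (g := fun t => cof (cos t) B C D E F) (by unfold cof; fun_prop)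
  refine ⟨hp.v0, hp.v1, hx.t3.vtx_pos, hx.t4.vtx_pos, c1 _ _ _ _ _ (fun t ht => ?_) hp.c01,
    c2 _ _ _ _ _ (fun t ht => ?_) hp.c02, c2 _ _ _ _ _ (fun t ht => ?_) hp.c03,
    c2 _ _ _ _ _ (fun t ht => ?_) hp.c12, c2 _ _ _ _ _ (fun t ht => ?_) hp.c13,
    c3 _ _ _ _ _ (fun t ht => ?_) hp.c23⟩
  · exact cof_ne hp.v0 hp.v1 (hg t ht) (by simp only [gd, gdet]; ring)
  · exact cof_ne ha.t1.rot.swap.vtx_pos (R t ht).t3.rot.vtx_pos (hg t ht)
      (by simp only [gd, gdet]; ring)
  · exact cof_ne ha.t1.rot.rot.vtx_pos (R t ht).t4.rot.vtx_pos (hg t ht)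
      (by simp only [gd, gdet]; ring)
  · exact cof_ne ha.t2.rot.swap.vtx_pos (R t ht).t3.swap.rot.vtx_pos (hg t ht)
      (by simp only [gd, gdet]; ring)
  · exact cof_ne ha.t2.rot.rot.vtx_pos (R t ht).t4.swap.rot.vtx_pos (hg t ht)
      (by simp only [gd, gdet]; ring)
  · exact cof_ne (R t ht).t3.vtx_pos (R t ht).t4.vtx_pos (hg t ht) rfl

theorem vol_eq (hp : PosC a b c d e f) (ha : Reg a b c d e f) (hz : Reg z b c d e f) (hza : z < a)
    (h0 : gd z b c d e f = 0) (hg : ∀ x, z < x → x ≤ π → gd x b c d e f < 0) :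
    ∫ x in z..a, kap b c d e f x = gvol (cos a) (cos b) (cos c) (cos d) (cos e) (cos f) := by
  have R : ∀ x, z < x → x ≤ a → Reg x b c d e f ∧ gd x b c d e f < 0 ∧ PosC x b c d e f := by
    intro x p q
    have r := hz.between ha (Set.Icc_subset_uIcc ⟨p.le, q⟩)
    refine ⟨r, hg x p r.t3.mem.2.le, hp.move ha r fun t ht => ?_⟩
    rw [Set.uIcc_of_ge q] at ht
    exact hg t (p.trans_le ht.1) (ht.2.trans ha.t3.mem.2.le)
  have D : ∀ x, z < x → x ≤ a → HasDerivAt
      (fun x => gvol (cos x) (cos b) (cos c) (cos d) (cos e) (cos f)) (kap b c d e f x) x := by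
    intro x p q
    obtain ⟨r, g, k⟩ := R x p q
    have s := r.t3.sx
    refine ((H95.schlaefli g k (by nlinarith [sin_sq x])).comp x (hasDerivAt_cos x)).congr_deriv ?_
    rw [← sin_sq, sqrt_sq s.le, kap, be]
    field_simp
  rw [intervalIntegral.integral_eq_sub_of_hasDerivAt_of_tendsto hza (fun x hx => D x hx.1 hx.2.le)
    (hz.kap_int ha) (fa := 0) ?_
    ((D a hza le_rfl).continuousAt.tendsto.mono_left nhdsWithin_le_nhds), sub_zero]
  have c : ContinuousAt (fun x => π ^ 2 / 8 * √(-gd x b c d e f) ^ 3 /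
      √(vtx (cos f) (cos b) (cos c) * vtx (cos f) (cos d) (cos e) * vtx (cos x) (cos b) (cos d) *
        vtx (cos x) (cos c) (cos e))) z := by
    refine ContinuousAt.div ?_ ?_ (sqrt_pos.2 (mul_pos (mul_pos (mul_pos hz.t1.vtx_pos
      hz.t2.vtx_pos) hz.t3.vtx_pos) hz.t4.vtx_pos)).ne' <;> simp only [gd, gdet, vtx] <;> fun_prop
  have c' := c.tendsto.mono_left (nhdsWithin_le_nhds (s := Set.Ioi z))
  simp only [h0, neg_zero, sqrt_zero, ne_eq, OfNat.ofNat_ne_zero, not_false_eq_true, zero_pow,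
    mul_zero, zero_div] at c'
  refine tendsto_of_tendsto_of_tendsto_of_le_of_le' tendsto_const_nhds c' ?_ ?_ <;>
    filter_upwards [Ioo_mem_nhdsGT hza] with x hx <;> obtain ⟨-, g, k⟩ := R x hx.1 hx.2.le
  · exact (H95.gvol_le g k).1
  · exact (H95.gvol_le g k).2

theorem PosC.sw34 (h : PosC a b c d e f) : PosC a c b e d f := by
  obtain ⟨h1, h2, h3, h4, h5, h6, h7, h8, h9, h10⟩ := h
  constructor <;> simp only [vtx, cof] at * <;> linarith

theorem Reg.high (h : Reg a b c d e f) (hy : a ≤ y) (h1 : y < b + d) (h2 : y < 2 * π - b - d)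
    (h3 : y < c + e) (h4 : y < 2 * π - c - e) : Reg y b c d e f := by
  obtain ⟨t1, t2, ⟨k1, k2, k3, k4⟩, ⟨k5, k6, k7, k8⟩⟩ := h
  exact ⟨t1, t2, ⟨by linarith, by linarith, by linarith, by linarith⟩,
    ⟨by linarith, by linarith, by linarith, by linarith⟩⟩

theorem no_deg (hp : PosC a b c d e f) (ha : Reg a b c d e f)
    (hg : ∀ x, a ≤ x → x ≤ π → gd x b c d e f < 0) (h1 : b + d ≤ 2 * π - b - d)
    (h2 : b + d ≤ c + e) (h3 : b + d ≤ 2 * π - c - e) : False := by
  have P : ∀ᶠ y in 𝓝[<] (b + d), PosC y b c d e f := by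
    filter_upwards [Ioo_mem_nhdsLT ha.t3.1] with y hy
    refine hp.move ha (ha.high hy.1.le hy.2 (by linarith [hy.2]) (by linarith [hy.2])
      (by linarith [hy.2])) fun t ht => ?_
    rw [Set.uIcc_of_le hy.1.le] at ht
    exact hg t ht.1 (by linarith [ht.2, hy.2])
  have k1 : 0 ≤ cof (cos b) (cos f) (cos d) (cos c) (cos (b + d)) (cos e) :=
    ge_of_tendsto (f := fun y => cof (cos b) (cos f) (cos d) (cos c) (cos y) (cos e))
      (Tendsto.mono_left (Continuous.tendsto (by unfold cof; fun_prop) _) nhdsWithin_le_nhds)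
      (P.mono fun y hy => hy.c02.le)
  have k2 : 0 ≤ cof (cos (b + d)) (cos b) (cos c) (cos d) (cos e) (cos f) :=
    ge_of_tendsto (f := fun y => cof (cos y) (cos b) (cos c) (cos d) (cos e) (cos f))
      (Tendsto.mono_left (Continuous.tendsto (by unfold cof; fun_prop) _) nhdsWithin_le_nhds)
      (P.mono fun y hy => hy.c23.le)
  have k3 : sin (b + d) * cof (cos b) (cos f) (cos d) (cos c) (cos (b + d)) (cos e) +
      sin b * cof (cos (b + d)) (cos b) (cos c) (cos d) (cos e) (cos f) = 0 := by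
    simp only [cof, sin_add, cos_add]
    have := sin_sq_add_cos_sq b
    have := sin_sq_add_cos_sq d
    grind
  have m := ha.t3.mem
  have s0 := sin_nonneg_of_nonneg_of_le_pi (x := b + d) (by linarith [ha.t3.1]) (by linarith)
  have k4 : cof (cos (b + d)) (cos b) (cos c) (cos d) (cos e) (cos f) = 0 :=
    (mul_eq_zero.1 (le_antisymm (by linarith [mul_nonneg s0 k1])
      (mul_nonneg ha.t1.rot.sx.le k2))).resolve_left ha.t1.rot.sx.ne'
  have k5 := cof_sq (cos (b + d)) (cos b) (cos c) (cos d) (cos e) (cos f)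
  have k6 := hg (b + d) ha.t3.1.le (by linarith)
  rw [k4, vtx_eq, sub_self, mul_zero, zero_mul, ← sin_sq] at k5
  have k7 : b + d = π := by
    by_contra g
    have := pow_pos (sin_pos_of_pos_of_lt_pi (x := b + d) (by linarith [ha.t3.1])
      (lt_of_le_of_ne (by linarith) g)) 2
    rw [gd] at k6
    nlinarith
  rw [k7, show d = π - b by linarith, show e = π - c by linarith] at k6
  simp only [gd, gdet, cos_pi, cos_pi_sub] at k6
  linarith

/-- the final estimate for the lower bound -/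
def Finish (z a b c d e f : ℝ) : Prop :=
  ∃ y > a, Reg y b c d e f ∧ ∃ ξ > π, ξ < (y + f + b + e) / 2 ∧ ξ < (y + f + c + d) / 2 ∧
    ξ < (b + c + d + e) / 2 ∧ U y b c d e f ξ = ∫ x in z..y, kap b c d e f x ∧
    ∃ δ > 0, ∀ t, (y + b + d) / 2 - δ ≤ t → (y + c + e) / 2 - δ ≤ t → t ≤ π → U y b c d e f t ≤ 0

theorem K_pos {p q : ℝ} (hp : Reg p b c d e f) (hq : Reg q b c d e f) (hpq : p < q)
    (hg : ∀ x, p < x → x ≤ π → gd x b c d e f < 0) : 0 < ∫ x in p..q, kap b c d e f x :=
  intervalIntegral.intervalIntegral_pos_of_pos_on (hp.kap_int hq) (fun x hx =>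
    have r := hp.between hq (Set.Icc_subset_uIcc (Set.Ioo_subset_Icc_self hx))
    r.kap_pos (hg x hx.1 r.t3.mem.2.le)) hpq

theorem low_A (hp : PosC a b c d e f) (ha : Reg a b c d e f) (hz : Reg z b c d e f) (hza : z < a)
    (h0 : gd z b c d e f = 0) (hg : ∀ x, z < x → x ≤ π → gd x b c d e f < 0)
    (h1 : 2 * π - b - d < b + d) (h2 : 2 * π - b - d < c + e) (h3 : c + e ≤ b + d) :
    Finish z a b c d e f := by
  obtain ⟨k1, k2, k3, k4⟩ := ha.t1
  obtain ⟨k5, k6, k7, k8⟩ := ha.t2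
  have lt : a < 2 * π - b - d := by linarith [ha.t3.2.2.2]
  obtain ⟨s, s0, hs⟩ := U_uc (K_pos hz ha hza hg)
  obtain ⟨δ, d1, ⟨d0, d2⟩, ⟨-, d3⟩, ⟨-, d4⟩, ⟨-, d5⟩, -, d6⟩ := ((simple_root
    (a := 2 * π - b - d) (ξ := π) (by
      rw [sX, sY, show (2 * π - b - d + b + d) / 2 = π by ring]; simp)
      (hg _ (by linarith) (by linarith))).and
    ((ev_lt (x := s / 3) (by linarith)).and ((ev_lt (x := (f + e - d) / 4) (by linarith)).and
    ((ev_lt (x := (f + c - b) / 4) (by linarith)).and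
    ((ev_lt (x := (b + c + d + e) / 2 - π) (by linarith)).and
    (ev_lt (x := π - (f + b + c) / 2) (by linarith))))))).exists
  have cX : ∀ t, ContinuousAt (fun y => sX y b c d e f t) (2 * π - b - d) := fun t => by
    unfold sX; fun_prop
  have cY : ∀ t, ContinuousAt (fun y => sY y b c d e f t) (2 * π - b - d) := fun t => by
    unfold sY; fun_prop
  have P := @sin_pos_of_pos_of_lt_pi
  have R : ∀ y, a < y → y < 2 * π - b - d → Reg y b c d e f ∧ gd y b c d e f < 0 := fun y p q =>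
    ⟨ha.high p.le (by linarith) q (by linarith) (by linarith), hg y (by linarith) (by linarith)⟩
  rcases d1 with g | g <;>
    obtain ⟨y, g1, g2, g3⟩ := (Eventually.and
      (nhdsWithin_le_nhds ((cX _).eventually_lt (cY _) g)) (Eventually.and (Ioo_mem_nhdsLT lt)
      (Ioo_mem_nhdsLT (sub_lt_self (2 * π - b - d) d0)))).exists <;>
    obtain ⟨r, gy⟩ := R y g2.1 g2.2 <;>
    obtain ⟨l, w, n1, n2, n3, n4, n5, n6, n7, -⟩ := r.loc gy g1 <;>
    obtain ⟨m1, m2, m3, m4⟩ := r.t3 <;> obtain ⟨m5, m6, m7, m8⟩ := r.t4 <;>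
    have g4 := g3.1
  · have l1 := (n3 π (by simp [sY])).1 (by linarith)
    have n8 := n7 (mul_pos (mul_pos (mul_pos (P (by linarith) (by linarith))
      (P (by linarith) (by linarith))) (P (by linarith) (by linarith)))
      (P (by linarith) (by linarith)))
    have p := V_int hz r (by linarith [g2.1]) h0.le gy.le
      (fun x hx => hg x hx.1 (by linarith [hx.2])) (Or.inr rfl)
    have q := V_int hz r (by linarith [g2.1]) h0.le gy.le
      (fun x hx => hg x hx.1 (by linarith [hx.2])) (Or.inl rfl)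
    rw [H56.euclid hz h0, sub_zero] at p q
    rw [← n4] at p
    rw [← n5] at q
    have k := K_pos ha r g2.1 fun x u v => hg x (by linarith) v
    have k' := intervalIntegral.integral_add_adjacent_intervals (hz.kap_int ha) (ha.kap_int r)
    refine ⟨y, g2.1, r, w, by linarith, (n3 _ (by simp [sY])).2 (by linarith),
      (n3 _ (by simp [sY])).2 (by linarith), (n3 _ (by simp [sY])).2 (by linarith), ?_,
      δ, d0, fun t u _ v => ?_⟩
    · rcases abs_cases (U y b c d e f w) with j | j <;> linarith [neg_abs_le (U y b c d e f l)]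
    · have := abs_lt.1 (hs y b c d e f t y b c d e f l (by simpa) (by simpa) (by simpa) (by simpa)
        (by simpa) (by simpa) (by rw [abs_lt]; constructor <;> linarith))
      rcases abs_cases (U y b c d e f l) with j | j <;> linarith [le_abs_self (U y b c d e f w)]
  · exfalso
    have l1 := (n3 ((y + b + d) / 2) (by simp [sX])).2 (by linarith)
    have k := char_sign (a := b) (b := f) (c := d) (d := c) (e := y) (f := e) (ξ := w)
      ⟨r.t2.rot.rot, r.t4.swap.rot, r.t1.rot.swap, r.t3.rot⟩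
      (by simp only [sX, sY] at n6 ⊢; ring_nf at n6 ⊢; linarith)
    have c0 := (hp.move ha r fun t ht => by
      rw [Set.uIcc_of_le g2.1.le] at ht
      exact hg t (by linarith [ht.1]) (by linarith [ht.2])).c02
    have p1 := P (x := w - (b + f + c) / 2) (by linarith) (by linarith)
    have p2 := P (x := -(w - (b + d + y) / 2)) (by linarith) (by linarith)
    have p3 := P (x := (b + e + f + y) / 2 - w) (by linarith) (by linarith)
    have p4 := P (x := (b + e + d + c) / 2 - w) (by linarith) (by linarith)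
    rw [sin_neg] at p2
    nlinarith [mul_pos (mul_pos c0 (mul_pos p1 p2)) (mul_pos p3 p4)]

theorem Finish.sw34 (h : Finish z a c b e d f) : Finish z a b c d e f := by
  obtain ⟨y, h1, h2, ξ, h3, h4, h5, h6, h7, δ, h8, h9⟩ := h
  rw [U_sw34, kap_sw34] at h7
  exact ⟨y, h1, h2.sw34, ξ, h3, h5, h4, by linarith, h7, δ, h8, fun t g1 g2 g3 =>
    U_sw34 (ξ := t) ▸ h9 t g2 g1 g3⟩

theorem finish (hp : PosC a b c d e f) (ha : Reg a b c d e f) (hz : Reg z b c d e f) (hza : z < a)
    (h0 : gd z b c d e f = 0) (hg : ∀ x, z < x → x ≤ π → gd x b c d e f < 0) :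
    Finish z a b c d e f := by
  have n1 := no_deg hp ha fun x p q => hg x (by linarith) q
  have n2 := no_deg hp.sw34 ha.sw34 fun x p q => gd_sw34 ▸ hg x (by linarith) q
  rcases le_total (c + e) (b + d) with g | g
  · have : 2 * π - b - d < c + e := lt_of_not_ge fun k => n2 (by linarith) g k
    exact low_A hp ha hz hza h0 hg (by linarith) this g
  · have : 2 * π - c - e < b + d := lt_of_not_ge fun k => n1 (by linarith) g k
    exact (low_A hp.sw34 ha.sw34 hz.sw34 hza (gd_sw34 ▸ h0) (fun x p q => gd_sw34 ▸ hg x p q)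
      (by linarith) this g).sw34

end Pool.Agent.MP_b0afd3_gt.H80
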