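import Pool.Agent.MP_b0afd3_gt.H80.Trans
import Pool.Agent.MP_b0afd3_gt.H80.Low

set_option autoImplicit false

namespace Pool.Agent.MP_b0afd3_gt.H80

open Real Filter Topology Col

variable {C : ℕ → Col} {a b c d e f x y z : ℝ}

theorem big (K : ℝ) {ε : ℝ} (hε : 0 < ε) :
    ∀ᶠ m : ℕ in atTop, K * (2 * m + 1) ≤ exp (ε / hb m) := by
  have h1 : Tendsto (fun m => hb m * log |K| + hb m * log (2 * m + 1 : ℕ)) atTop (𝓝 0) := by
    have := (hb_tendsto.mul_const (log |K|)).add hlog_tendsto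
    rwa [zero_mul, zero_add] at this
  filter_upwards [h1.eventually (gt_mem_nhds hε)] with m h
  rcases le_or_gt K 0 with g | g
  · exact (mul_nonpos_of_nonpos_of_nonneg g (by positivity)).trans (exp_pos _).le
  · rw [← exp_log (show 0 < K * (2 * m + 1) by positivity), exp_le_exp, le_div_iff₀ (hb_pos m),
      log_mul g.ne' (by positivity)]
    rw [abs_of_pos g] at h
    push_cast at h
    linarith

theorem half_lim {x y z : ℕ → ℤ} {T : ℕ → ℤ} (h : ∀ m, 2 * T m = x m + y m + z m) {p q r : ℝ}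
    (hx : Tendsto (fun m => an m (x m)) atTop (𝓝 p)) (hy : Tendsto (fun m => an m (y m)) atTop (𝓝 q))
    (hz : Tendsto (fun m => an m (z m)) atTop (𝓝 r)) :
    Tendsto (fun m => hb m * (T m + 2)) atTop (𝓝 ((p + q + r) / 2)) := by
  have := (((hx.add hy).add hz).add hb_tendsto).div_const 2
  rw [add_zero] at this
  refine this.congr fun m => ?_
  have h1 := congrArg (Int.cast : ℤ → ℝ) (h m)
  push_cast at h1
  simp only [an]
  linear_combination (-hb m / 2) * h1

theorem half_lim' {x y z w : ℕ → ℤ} {T : ℕ → ℤ} (h : ∀ m, 2 * T m = x m + y m + z m + w m)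
    {p q r s : ℝ} (hx : Tendsto (fun m => an m (x m)) atTop (𝓝 p))
    (hy : Tendsto (fun m => an m (y m)) atTop (𝓝 q))
    (hz : Tendsto (fun m => an m (z m)) atTop (𝓝 r))
    (hw : Tendsto (fun m => an m (w m)) atTop (𝓝 s)) :
    Tendsto (fun m => hb m * (T m + 2)) atTop (𝓝 ((p + q + r + s) / 2)) := by
  refine ((((hx.add hy).add hz).add hw).div_const 2).congr fun m => ?_
  have h1 := congrArg (Int.cast : ℤ → ℝ) (h m)
  push_cast at h1
  simp only [an]
  linear_combination (-hb m / 2) * h1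

theorem hb_mono (m : ℕ) {s t : ℤ} (h : s ≤ t) : hb m * (s + 2) ≤ hb m * (t + 2) := by
  have : (s : ℝ) ≤ t := by exact_mod_cast h
  have := hb_pos m
  gcongr

theorem abs_le_exp {m : ℕ} {t v : ℝ} (h : hb m * log t ≤ v) : |t| ≤ exp (v / hb m) := by
  refine (le_exp_log _).trans (exp_le_exp.2 ?_)
  rw [le_div_iff₀ (hb_pos m), log_abs]
  linarith

theorem u_eq (D : Col) (m : ℕ) :
    D.u m = ∑ z ∈ Finset.range (2 * m + 1), √|D.P m| * D.term m z := by
  rw [u, S, Finset.mul_sum]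

theorem sum_le {m : ℕ} {s : Finset ℕ} (hs : s ⊆ Finset.range (2 * m + 1)) {g : ℕ → ℝ} {B : ℝ}
    (hB : 0 ≤ B) (h : ∀ z ∈ s, |g z| ≤ B) : |∑ z ∈ s, g z| ≤ (2 * m + 1) * B := by
  refine ((Finset.abs_sum_le_sum_abs _ _).trans (Finset.sum_le_card_nsmul _ _ _ h)).trans ?_
  have := Finset.card_le_card hs
  rw [Finset.card_range] at this
  rw [nsmul_eq_mul]
  gcongr
  exact_mod_cast this

theorem u_start (L : Lim5 C b c d e f) (La : Tendsto (fun m => an m (C m).a) atTop (𝓝 y))
    (h : Reg y b c d e f) {δ v : ℝ} (hδ : 0 < δ) (hv : ∀ ξ, (f + b + c) / 2 - δ ≤ ξ →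
      (f + d + e) / 2 - δ ≤ ξ → ξ ≤ (y + f + b + e) / 2 + δ → ξ ≤ (y + f + c + d) / 2 + δ →
      U y b c d e f ξ ≤ v) {ε : ℝ} (hε : 0 < ε) :
    ∀ᶠ m : ℕ in atTop, |(C m).u m| ≤ (2 * m + 1) * exp ((v + ε) / hb m) := by
  filter_upwards [term_est L La h hε,
    (half_lim (fun m => (C m).t1) L.f L.b L.c).eventually (lt_mem_nhds (sub_lt_self _ hδ)),
    (half_lim (fun m => (C m).t2) L.f L.d L.e).eventually (lt_mem_nhds (sub_lt_self _ hδ)),
    (half_lim' (fun m => (C m).q1) La L.f L.b L.e).eventually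
      (gt_mem_nhds (lt_add_of_pos_right _ hδ)),
    (half_lim' (fun m => (C m).q2) La L.f L.c L.d).eventually
      (gt_mem_nhds (lt_add_of_pos_right _ hδ))] with m g g1 g2 g3 g4
  rw [u_eq]
  refine sum_le subset_rfl (exp_pos _).le fun z _ => ?_
  by_cases hz : (C m).Rg m z
  · have := hv (hb m * ((z : ℤ) + 2)) (g1.le.trans (hb_mono m hz.1)) (g2.le.trans (hb_mono m hz.2.1))
      ((hb_mono m hz.2.2.2.2.1).trans g3.le) ((hb_mono m hz.2.2.2.2.2.1).trans g4.le)
    exact abs_le_exp (by linarith [abs_lt.1 (g z hz).2])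
  · simp [term_zero _ _ hz, (exp_pos _).le]

theorem lim_one (La : Tendsto (fun m => an m (C m).a) atTop (𝓝 y)) :
    Tendsto (fun m => an m ((C m).sh 1).a) atTop (𝓝 y) := by
  simpa [an_sh] using La.add (hb_tendsto.const_mul 2)

theorem upper (L : Lim5 C b c d e f) (La : Tendsto (fun m => an m (C m).a) atTop (𝓝 x))
    (hx : Reg x b c d e f) (hz : Reg z b c d e f) (hzx : z < x) (h0 : gd z b c d e f = 0)
    (hl : 0 < ell b c d e f z) {ε : ℝ} (hε : 0 < ε) :
    ∀ᶠ m in atTop, (C m).M m ≤ exp (((∫ t in z..x, kap b c d e f t) + ε) / hb m) := by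
  have e4 : 0 < ε / 4 := by positivity
  obtain ⟨y, y1, ry, δ, hδ, hv⟩ := start hz h0 hl e4
  obtain ⟨n, hn⟩ := exists_sh C y
  have hv' := fun ξ p q r s => le_sub_iff_add_le.2 (hv ξ p q r s)
  filter_upwards [u_start (L.sh n) hn ry hδ hv' e4,
    u_start ((L.sh n).sh fun _ => 1) (lim_one hn) ry hδ hv' e4, big 2 e4,
    transport (L.sh n) ry hx (by linarith) hn (n := fun m => -n m)
      (by simpa [sh_sh, an_sh] using La) e4] with m g1 g2 g3 g4
  have e0 : ((C m).sh (n m)).sh (-n m) = C m := by simp [sh]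
  rw [e0] at g4
  refine g4.trans ((mul_le_mul_of_nonneg_left ((add_le_add g1 g2).trans_eq
    (by rw [← add_mul, ← two_mul]) |>.trans (mul_le_mul_of_nonneg_right g3 (exp_pos _).le))
    (exp_pos _).le).trans_eq ?_)
  rw [← exp_add, ← exp_add,
    ← intervalIntegral.integral_add_adjacent_intervals (ry.kap_int hz) (hz.kap_int hx)]
  congr 1
  ring

theorem ig_nonneg {m : ℕ} {n : ℤ} (h : n ≤ m) : 0 ≤ ig m n := by
  rw [ig]
  split_ifs with g
  · rw [fa, bf]
    refine inv_nonneg.2 (Finset.prod_nonneg fun k hk => mul_nonneg two_pos.le ?_)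
    have : (k : ℝ) + 1 ≤ m := by
      have := Finset.mem_range.1 hk
      exact_mod_cast (show k + 1 ≤ m by omega)
    have h1 := hb_mul m
    have h2 := hb_pos m
    exact sin_nonneg_of_nonneg_of_le_pi (x := hb m * (k + 1)) (by positivity) (by nlinarith)
  · rfl

theorem Col.Good.term_nonneg {D : Col} {m : ℕ} (G : D.Good m) {z : ℤ} (hz : m ≤ z + 1) :
    0 ≤ √|D.P m| * D.term m z := by
  by_cases h : D.Rg m z
  · obtain ⟨z1, z2, z3, z4, z5, z6, z7, z8⟩ := h
    have i1 := G.t1.int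
    have i2 := G.t2.int
    have i3 := G.t3.int
    have i4 := G.t4.int
    have j1 := D.t1
    have j2 := D.t2
    have j3 := D.t3
    have j4 := D.t4
    have j5 := D.q1
    have j6 := D.q2
    have j7 := D.q3
    rw [term]
    refine mul_nonneg (sqrt_nonneg _) ?_
    repeat' apply mul_nonneg
    all_goals exact ig_nonneg (by omega)
  · simp [term_zero _ _ h]

theorem lower0 (L : Lim5 C b c d e f) (La : Tendsto (fun m => an m (C m).a) atTop (𝓝 y))
    (h : Reg y b c d e f) {ξ δ : ℝ} (h1 : π < ξ) (h2 : ξ < (y + f + b + e) / 2)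
    (h3 : ξ < (y + f + c + d) / 2) (h4 : ξ < (b + c + d + e) / 2) (hK : 0 < U y b c d e f ξ)
    (hδ : 0 < δ) (hv : ∀ t, (y + b + d) / 2 - δ ≤ t → (y + c + e) / 2 - δ ≤ t → t ≤ π →
      U y b c d e f t ≤ 0) {ε : ℝ} (hε : 0 < ε) :
    ∀ᶠ m in atTop, exp ((U y b c d e f ξ - ε) / hb m) ≤ |(C m).u m| := by
  wlog hε' : ε ≤ U y b c d e f ξ generalizing ε with H
  · filter_upwards [H hK le_rfl] with m g
    exact (exp_le_exp.2 (div_le_div_of_nonneg_right (by linarith) (hb_pos m).le)).trans g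
  have e5 : 0 < ε / 5 := by positivity
  have T : Tendsto (fun m => hb m * ((⌊ξ / hb m⌋ - 2 : ℤ) + 2)) atTop (𝓝 ξ) := by
    have k : Tendsto (fun m => ξ - hb m) atTop (𝓝 ξ) := by simpa using hb_tendsto.const_sub ξ
    refine tendsto_of_tendsto_of_tendsto_of_le_of_le k tendsto_const_nhds (fun m => ?_) fun m => ?_
    · have := (div_lt_iff₀ (hb_pos m)).1 (Int.lt_floor_add_one (ξ / hb m))
      push_cast; linarith
    · have := (le_div_iff₀ (hb_pos m)).1 (Int.floor_le (ξ / hb m))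
      push_cast; linarith
  have T2 := ((U_cont (b := b) (c := c) (d := d) (e := e)).comp
    (f := fun t : ℝ => (y, f, t)) (by fun_prop)).tendsto ξ |>.comp T
  filter_upwards [term_est L La h e5, L.good La h,
    (half_lim (fun m => (C m).t3) La L.b L.d).eventually (lt_mem_nhds (sub_lt_self _ hδ)),
    (half_lim (fun m => (C m).t4) La L.c L.e).eventually (lt_mem_nhds (sub_lt_self _ hδ)),
    T.eventually_lt (half_lim' (fun m => (C m).q1) La L.f L.b L.e) h2,
    T.eventually_lt (half_lim' (fun m => (C m).q2) La L.f L.c L.d) h3,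
    T.eventually_lt (half_lim' (fun m => (C m).q3) L.b L.c L.d L.e) h4,
    T.eventually (lt_mem_nhds h1), T2.eventually (lt_mem_nhds (sub_lt_self _ e5)), big 2 e5]
    with m g G g1 g2 g3 g4 g5 g6 g7 g8
  simp only [Function.comp] at g7
  generalize ⌊ξ / hb m⌋ - 2 = s at *
  have p := hb_pos m
  have q := hb_mul m
  have k3 : s ≤ (C m).Q1 := by_contra fun k => (hb_mono m (not_le.1 k).le).not_gt g3
  have k4 : s ≤ (C m).Q2 := by_contra fun k => (hb_mono m (not_le.1 k).le).not_gt g4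
  have k5 : s ≤ (C m).Q3 := by_contra fun k => (hb_mono m (not_le.1 k).le).not_gt g5
  have k6 : m ≤ s + 1 := by_contra fun k => by
    have := hb_mono m (show s ≤ m - 2 by omega)
    push_cast at this
    linarith
  have r : (C m).Rg m s := by
    have i1 := G.t1.int
    have i2 := G.t2.int
    have i3 := G.t3.int
    have i4 := G.t4.int
    have j1 := (C m).t1
    have j2 := (C m).t2
    have j3 := (C m).t3
    have j4 := (C m).t4
    have j7 := (C m).q3
    refine ⟨?_, ?_, ?_, ?_, k3, k4, k5, ?_⟩ <;> omega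
  obtain ⟨s', rfl⟩ := Int.eq_ofNat_of_zero_le (show 0 ≤ s by have := G.t1.int; omega)
  have a1 := Finset.single_le_sum (s := (Finset.range (2 * m + 1)).filter fun z : ℕ => (m : ℤ) ≤ z + 1)
    (f := fun z : ℕ => √|(C m).P m| * (C m).term m z)
    (fun z hz => G.term_nonneg (Finset.mem_filter.1 hz).2) (a := s')
    (Finset.mem_filter.2 ⟨Finset.mem_range.2 (by have := r.2.2.2.2.2.2.2; omega), k6⟩)
  have a2 := sum_le (m := m) (Finset.filter_subset (fun z : ℕ => ¬ (m : ℤ) ≤ z + 1) _)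
    (g := fun z : ℕ => √|(C m).P m| * (C m).term m z) (exp_pos (ε / 5 / hb m)).le fun z hz => by
      by_cases k : (C m).Rg m z
      · have k1 := hb_mono m (show (z : ℤ) ≤ m - 2 by have := (Finset.mem_filter.1 hz).2; omega)
        have := hv (hb m * ((z : ℤ) + 2)) (g1.le.trans (hb_mono m k.2.2.1))
          (g2.le.trans (hb_mono m k.2.2.2.1)) (k1.trans (by push_cast; linarith))
        exact abs_le_exp (by linarith [abs_lt.1 (g z k).2])
      · simp [term_zero _ _ k, (exp_pos _).le]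
  have a3 : exp ((U y b c d e f ξ - 2 * (ε / 5)) / hb m) ≤ √|(C m).P m| * (C m).term m s' := by
    rw [← exp_log ((G.term_nonneg k6).lt_of_ne' (g _ r).1), exp_le_exp, div_le_iff₀ p]
    linarith [abs_lt.1 (g _ r).2]
  have a4 : exp ((U y b c d e f ξ - 2 * (ε / 5)) / hb m) =
      exp (ε / 5 / hb m) * exp ((U y b c d e f ξ - 3 * (ε / 5)) / hb m) := by
    rw [← exp_add]; congr 1; ring
  have a5 : exp (ε / 5 / hb m) ≤ exp ((U y b c d e f ξ - 3 * (ε / 5)) / hb m) := by gcongr; linarith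
  have a6 : exp ((U y b c d e f ξ - ε) / hb m) ≤ exp ((U y b c d e f ξ - 3 * (ε / 5)) / hb m) := by
    gcongr; linarith
  have a7 := mul_le_mul_of_nonneg_right g8 (exp_pos ((U y b c d e f ξ - 3 * (ε / 5)) / hb m)).le
  have a8 := mul_le_mul_of_nonneg_left a5 (show (0 : ℝ) ≤ 2 * m + 1 by positivity)
  have a9 := mul_nonneg (show (0 : ℝ) ≤ m by positivity)
    (exp_pos ((U y b c d e f ξ - 3 * (ε / 5)) / hb m)).le
  rw [u_eq, ← Finset.sum_filter_add_sum_filter_not _ fun z : ℕ => (m : ℤ) ≤ z + 1]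
  refine le_trans ?_ (le_abs_self _)
  linarith [abs_le.1 a2]

theorem back_mono {v : ℤ → ℝ} {β : ℤ → ℝ} {η : ℝ} (h0 : 0 ≤ η) (N : ℕ)
    (h : ∀ k : ℕ, k ≤ N → 1 + η ≤ β (-k) ∧
      |v (-k + 1) - 2 * β (-k) * v (-k) + v (-k - 1)| ≤ η * (|v (-k)| + |v (-k - 1)|))
    (h1 : |v 0| ≤ |v (-1)|) : ∀ k : ℕ, k ≤ N → |v (-k)| ≤ |v (-k - 1)| ∧ |v (-1)| ≤ |v (-k - 1)| := by
  intro k hk
  induction k with
  | zero => simpa using h1
  | succ k ih =>
    obtain ⟨i1, i2⟩ := ih (by omega)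
    obtain ⟨j1, j2⟩ := h (k + 1) hk
    have e1 : -((k + 1 : ℕ) : ℤ) = -k - 1 := by push_cast; ring
    rw [e1] at j1 j2 ⊢
    rw [sub_add_cancel] at j2
    have j3 := abs_add_le (v (-k) - 2 * β (-k - 1) * v (-k - 1) + v (-k - 1 - 1))
      (-(v (-k) + v (-k - 1 - 1)))
    have j4 := abs_add_le (v (-k)) (v (-k - 1 - 1))
    rw [show v (-k) - 2 * β (-k - 1) * v (-k - 1) + v (-k - 1 - 1) + -(v (-k) + v (-k - 1 - 1)) =
      -(2 * β (-k - 1) * v (-k - 1)) by ring, abs_neg, abs_neg, abs_mul,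
      abs_of_nonneg (a := 2 * _) (by linarith)] at j3
    have j5 : |v (-k - 1)| ≤ |v (-k - 1 - 1)| :=
      le_of_mul_le_mul_left (a := 1 + η) (by nlinarith [abs_nonneg (v (-k - 1))]) (by linarith)
    exact ⟨j5, i2.trans j5⟩

theorem main (L : Lim5 C b c d e f) (La : Tendsto (fun m => an m (C m).a) atTop (𝓝 a))
    (ha : Reg a b c d e f) (hg : gd a b c d e f < 0) (hp : PosC a b c d e f) :
    Tendsto (fun m => hb m * log ((C m).u m)) atTop
      (𝓝 (gvol (cos a) (cos b) (cos c) (cos d) (cos e) (cos f))) ∧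
      0 < gvol (cos a) (cos b) (cos c) (cos d) (cos e) (cos f) := by
  obtain ⟨z, hza, hz, h0, hl, gz⟩ := exists_x2 ha hg hp.c01
  rw [← vol_eq hp ha hz hza h0 gz]
  refine ⟨?_, K_pos hz ha hza gz⟩
  have LB : ∀ ε > 0, ∀ᶠ m in atTop,
      exp (((∫ t in z..a, kap b c d e f t) - ε) / hb m) ≤ (C m).M m := by
    intro ε hε
    obtain ⟨y, y1, ry, ξ, k1, k2, k3, k4, k5, δ, hδ, k6⟩ := finish hp ha hz hza h0 gz
    obtain ⟨n, hn⟩ := exists_sh C y
    filter_upwards [lower0 (L.sh n) hn ry k1 k2 k3 k4 (k5 ▸ K_pos hz ry (by linarith) gz) hδ k6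
      (half_pos hε), transport L ha ry y1 La hn (half_pos hε)] with m g1 g2
    refine le_of_mul_le_mul_left (le_trans ?_ ((g1.trans (le_add_of_nonneg_right
      (abs_nonneg _))).trans g2)) (exp_pos _)
    rw [← exp_add, k5,
      ← intervalIntegral.integral_add_adjacent_intervals (hz.kap_int ha) (ha.kap_int ry)]
    exact (congrArg exp (by ring)).le
  obtain ⟨x2, h2, r2⟩ := ha.ev.exists_gt
  obtain ⟨x0, p0, p1⟩ := exists_between hza
  obtain ⟨x1, p2, p3⟩ := exists_between p0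
  have R : ∀ x ∈ Set.Icc x1 x2, Reg x b c d e f := fun x hx =>
    hz.between r2 (Set.Icc_subset_uIcc ⟨by linarith [hx.1], hx.2⟩)
  obtain ⟨w, hw, hmin⟩ := (isCompact_Icc (a := x1) (b := x2)).exists_isMinOn
    ⟨x1, le_rfl, by linarith⟩ (f := fun x => be x b c d e f)
    fun x hx => (R x hx).be_cont.continuousWithinAt
  have w1 : 1 < be w b c d e f := by
    have r := R w hw
    have gw := r.be_gt (gz w (by linarith [hw.1]) r.t3.mem.2.le)
    have := (hp.move ha r fun t ht => gz t (by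
      rcases Set.mem_uIcc.1 ht with k | k <;> linarith [k.1, hw.1]) (ha.between r ht).t3.mem.2.le).c23
    rwa [abs_of_pos (a := be w b c d e f)
      (div_pos this (sqrt_pos.2 (mul_pos r.t3.vtx_pos r.t4.vtx_pos)))] at gw
  have r0 := R x0 ⟨p3.le, by linarith⟩
  have kp := K_pos r0 ha p1 fun x u v => gz x (by linarith) v
  have ka := intervalIntegral.integral_add_adjacent_intervals (hz.kap_int r0) (r0.kap_int ha)
  obtain ⟨n, hn⟩ := exists_sh C x0
  set η := min 1 (be w b c d e f - 1) with hη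
  have η0 : 0 < η := lt_min one_pos (by linarith)
  set B := |be a b c d e f| + 1 with hB
  have B1 : 1 ≤ B := by linarith [abs_nonneg (be a b c d e f)]
  have ratio : ∀ᶠ m in atTop, |((C m).sh 1).u m| ≤ (4 * B + 4) * |(C m).u m| := by
    have e3 := div_pos kp three_pos
    filter_upwards [LB _ e3, upper (L.sh n) hn r0 hz p0 h0 hl e3, big 8 e3,
      rec_est L (R x1 ⟨le_rfl, by linarith⟩) r2 η0, hn.eventually (lt_mem_nhds p3),
      La.eventually (gt_mem_nhds h2), hn.eventually_lt La p1,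
      (ha.be_cont.tendsto.comp La).abs.eventually (gt_mem_nhds (lt_add_one _))]
      with m g1 g2 g3 g4 g5 g6 g7 g8
    by_contra! g
    have p := hb_pos m
    rw [an_sh] at g5 g7
    obtain ⟨N, hN⟩ := Int.eq_ofNat_of_zero_le (show 0 ≤ -n m - 1 by
      have : n m < 0 := by rw [← @Int.cast_lt ℝ]; push_cast; nlinarith
      omega)
    have e0 : (C m).sh 0 = C m := by simp [sh]
    have mem : ∀ k : ℕ, k ≤ N → an m ((C m).sh (-k)).a ∈ Set.Icc x1 x2 := fun k hk => by
      have : (n m : ℝ) ≤ -k := by exact_mod_cast (show n m ≤ -k by omega)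
      rw [an_sh]
      push_cast
      exact ⟨by nlinarith, by linarith [show 0 ≤ 2 * hb m * k by positivity]⟩
    have s0 := g4 0 (Set.Icc_subset_uIcc (by simpa using mem 0 N.zero_le))
    simp only [zero_add, zero_sub, e0, Function.comp] at s0 g8
    have s1 := abs_add_le (((C m).sh 1).u m - 2 * be (an m (C m).a) b c d e f * (C m).u m +
      ((C m).sh (-1)).u m) (2 * be (an m (C m).a) b c d e f * (C m).u m - ((C m).sh (-1)).u m)
    have s2 := abs_sub (2 * be (an m (C m).a) b c d e f * (C m).u m) (((C m).sh (-1)).u m)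
    rw [abs_mul, abs_mul, abs_two] at s2
    rw [show ∀ x y w : ℝ, x - y + w + (y - w) = x from fun x y w => by ring] at s1
    have η1 : η ≤ 1 := min_le_left _ _
    have n0 := abs_nonneg ((C m).u m)
    have n1 := abs_nonneg (((C m).sh (-1)).u m)
    have s3 : |((C m).sh 1).u m| ≤ 4 * |((C m).sh (-1)).u m| := by nlinarith
    have s4 : |(C m).u m| ≤ |((C m).sh (-1)).u m| := by nlinarith
    have s5 := (back_mono (v := fun j => ((C m).sh j).u m)
      (β := fun j => be (an m ((C m).sh j).a) b c d e f) η0.le N (fun k hk =>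
        ⟨by linarith [min_le_right 1 (be w b c d e f - 1), show be w b c d e f ≤ _ from
          hmin (mem k hk)], g4 _ (Set.Icc_subset_uIcc (mem k hk))⟩) (by simpa [e0] using s4) N le_rfl).2
    rw [show -(N : ℤ) - 1 = n m by omega] at s5
    have s6 : (C m).M m ≤ 5 * ((C m).sh (n m)).M m := by
      simp only [M] at *
      linarith [abs_nonneg ((((C m).sh (n m)).sh 1).u m)]
    have s7 : exp (((∫ t in z..a, kap b c d e f t) - (∫ t in x0..a, kap b c d e f t) / 3) / hb m) =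
        exp ((∫ t in x0..a, kap b c d e f t) / 3 / hb m) *
        exp (((∫ t in z..x0, kap b c d e f t) + (∫ t in x0..a, kap b c d e f t) / 3) / hb m) := by
      rw [← exp_add, ← ka]; congr 1; ring
    have s8 := exp_pos
      (((∫ t in z..x0, kap b c d e f t) + (∫ t in x0..a, kap b c d e f t) / 3) / hb m)
    have s9 := mul_le_mul_of_nonneg_right g3 s8.le
    nlinarith [mul_nonneg (show (0 : ℝ) ≤ m by positivity) s8.le]
  rw [Metric.tendsto_nhds]
  intro ε hε
  have e3 := div_pos hε three_pos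
  filter_upwards [ratio, LB _ e3, upper L La ha hz hza h0 hl e3, big (4 * B + 5) e3]
    with m g1 g2 g3 g4
  have p := hb_pos m
  have n0 := abs_nonneg ((C m).u m)
  have k1 : exp (((∫ t in z..a, kap b c d e f t) - ε / 3) / hb m) ≤
      exp (ε / 3 / hb m) * |(C m).u m| := by
    refine g2.trans (le_trans ?_ (mul_le_mul_of_nonneg_right g4 n0))
    rw [M]
    nlinarith [mul_nonneg (mul_nonneg (show (0 : ℝ) ≤ m by positivity) n0) (show 0 ≤ 4 * B + 5 by
      linarith)]
  have k2 : 0 < |(C m).u m| := (mul_pos_iff_of_pos_left (exp_pos _)).1 ((exp_pos _).trans_le k1)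
  have k3 := ((le_add_of_nonneg_right (abs_nonneg _)).trans g3)
  rw [← exp_log k2, exp_le_exp, le_div_iff₀ p, log_abs] at k3
  rw [← exp_log k2, ← exp_add, exp_le_exp, div_le_iff₀ p, add_mul, div_mul_cancel₀ _ p.ne',
    log_abs] at k1
  rw [dist_eq, abs_lt]
  constructor <;> linarith

end Pool.Agent.MP_b0afd3_gt.H80
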