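import Pool.Agent.MP_b0afd3_gt.H80.Defs

set_option autoImplicit false

namespace Pool.Agent.MP_b0afd3_gt.H80

open Real

/-- determinant of the Gram matrix `![![1,a,e,d],![a,1,c,b],![e,c,1,f],![d,b,f,1]]` -/
def gdet (a b c d e f : ℝ) : ℝ :=
  1 - (a ^ 2 + b ^ 2 + c ^ 2 + d ^ 2 + e ^ 2 + f ^ 2) + (a ^ 2 * f ^ 2 + b ^ 2 * e ^ 2 + c ^ 2 * d ^ 2)
    + 2 * (a * b * d + a * c * e + b * c * f + d * e * f)
    - 2 * (a * b * e * f + a * c * d * f + b * c * d * e)

/-- diagonal cofactors -/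
def vtx (a b d : ℝ) : ℝ := 1 - a ^ 2 - b ^ 2 - d ^ 2 + 2 * a * b * d

/-- the cofactor with indices `2, 3` -/
def cof (a b c d e f : ℝ) : ℝ := b * c + d * e - a * (b * e + c * d) - f * (1 - a ^ 2)

/-- all ten cofactors are positive -/
structure Pos (a b c d e f : ℝ) : Prop where
  v0 : 0 < vtx f b c
  v1 : 0 < vtx f d e
  v2 : 0 < vtx a b d
  v3 : 0 < vtx a c e
  c01 : 0 < cof f b d c e a
  c02 : 0 < cof b f d c a e
  c03 : 0 < cof c f e b a d
  c12 : 0 < cof d f b e a c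
  c13 : 0 < cof e f c d a b
  c23 : 0 < cof a b c d e f

/-- the quadratic form of the adjugate matrix -/
def adjq (a b c d e f : ℝ) (y : Fin 4 → ℝ) : ℝ :=
  vtx f b c * y 0 ^ 2 + vtx f d e * y 1 ^ 2 + vtx a b d * y 2 ^ 2 + vtx a c e * y 3 ^ 2
    + 2 * (cof f b d c e a * y 0 * y 1 + cof b f d c a e * y 0 * y 2 + cof c f e b a d * y 0 * y 3
      + cof d f b e a c * y 1 * y 2 + cof e f c d a b * y 1 * y 3 + cof a b c d e f * y 2 * y 3)

/-- the volume as a Gaussian integral over the positive orthant -/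
noncomputable def gvol (a b c d e f : ℝ) : ℝ :=
  1 / (2 * √(-gdet a b c d e f)) *
    ∫ y in {y : Fin 4 → ℝ | ∀ i, 0 < y i}, exp (adjq a b c d e f y / (2 * gdet a b c d e f))

/-- the larger root of `t ^ 2 - 2 x t + 1` in absolute value -/
noncomputable def rho (x : ℝ) : ℝ := max 1 (|x| + √(x ^ 2 - 1))

/-- the Lobachevsky function -/
noncomputable def lob (x : ℝ) : ℝ := -∫ t in (0 : ℝ)..x, log (2 * sin t)

end Pool.Agent.MP_b0afd3_gt.H80
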