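import Mathlib

set_option autoImplicit false

namespace Pool.Agent.MP_b0afd3_gt.H80

open Real

/-- The quantum integer `[n]` at `q = exp (2 π i / r)`. -/
noncomputable def qint (r n : ℕ) : ℝ := sin (2 * π * n / r) / sin (2 * π / r)

/-- The quantum factorial `[n]!`. -/
noncomputable def qfac (r n : ℕ) : ℝ := ∏ k ∈ Finset.range n, qint r (k + 1)

/-- `r`-admissible triples of colours. -/
def Adm (r a b c : ℕ) : Prop :=
  a ≤ r - 2 ∧ b ≤ r - 2 ∧ c ≤ r - 2 ∧ Even (a + b + c) ∧ a ≤ b + c ∧ b ≤ a + c ∧ c ≤ a + b ∧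
    a + b + c ≤ 2 * (r - 2)

/-- The Kauffman-Lins evaluation of the theta graph. -/
noncomputable def theta (r a b c : ℕ) : ℝ :=
  (-1) ^ ((a + b + c) / 2) * qfac r ((a + b + c) / 2 + 1) * qfac r ((a + b - c) / 2) *
    qfac r ((a + c - b) / 2) * qfac r ((b + c - a) / 2) / (qfac r a * qfac r b * qfac r c)

/-- The Kauffman-Lins evaluation of the tetrahedral graph with vertices `0, 1, 2, 3`, the edge
`i j` having the colour `cij`. -/
noncomputable def tet (r c01 c02 c03 c12 c13 c23 : ℕ) : ℝ :=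
  let T : Fin 4 → ℕ := ![(c01 + c02 + c03) / 2, (c01 + c12 + c13) / 2, (c02 + c12 + c23) / 2,
    (c03 + c13 + c23) / 2]
  let Q : Fin 3 → ℕ := ![(c01 + c23 + c02 + c13) / 2, (c01 + c23 + c03 + c12) / 2,
    (c02 + c13 + c03 + c12) / 2]
  (∏ i, ∏ j, qfac r (Q j - T i)) /
    (qfac r c01 * qfac r c02 * qfac r c03 * qfac r c12 * qfac r c13 * qfac r c23) *
    ∑ z ∈ Finset.Icc (max (max (T 0) (T 1)) (max (T 2) (T 3))) (min (min (Q 0) (Q 1)) (Q 2)),
      (-1) ^ z * qfac r (z + 1) / ((∏ i, qfac r (z - T i)) * ∏ j, qfac r (Q j - z))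

/-- The absolute value of the bracket of the coloured tetrahedral graph, theta graphs being
normalised to one. -/
noncomputable def bracket (r c01 c02 c03 c12 c13 c23 : ℕ) : ℝ :=
  |tet r c01 c02 c03 c12 c13 c23| /
    √|theta r c01 c02 c03 * theta r c01 c12 c13 * theta r c02 c12 c23 * theta r c03 c13 c23|

/-- The Minkowski product of `n` with `m`, the coordinate `0` being the time coordinate. -/
def mink (n m : Fin 4 → ℝ) : ℝ := n 1 * m 1 + n 2 * m 2 + n 3 * m 3 - n 0 * m 0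

/-- The ray over a point of the Klein model. -/
def lift (x : Fin 3 → ℝ) : Fin 4 → ℝ := ![1, x 0, x 1, x 2]

/-- Hyperbolic volume in the Klein model. -/
noncomputable def hypVol (P : Set (Fin 3 → ℝ)) : ℝ :=
  ∫ x in P, 1 / (1 - (x 0 ^ 2 + x 1 ^ 2 + x 2 ^ 2)) ^ 2

/-- `p 0, …, p 3` are points of the Klein model and `n j` is the outer unit normal of the face
opposite to `p j` of the tetrahedron they span. -/
structure Tetra (p : Fin 4 → Fin 3 → ℝ) (n : Fin 4 → Fin 4 → ℝ) : Prop where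
  ball : ∀ i, p i 0 ^ 2 + p i 1 ^ 2 + p i 2 ^ 2 < 1
  unit : ∀ j, mink (n j) (n j) = 1
  face : ∀ i j, i ≠ j → mink (n j) (lift (p i)) = 0
  outer : ∀ j, mink (n j) (lift (p j)) < 0

end Pool.Agent.MP_b0afd3_gt.H80
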