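import Pool.Agent.MP_b0afd3_gt.H80.Flip
import Pool.Agent.MP_b0afd3_gt.H14.Geom

set_option autoImplicit false

namespace Pool.Agent.MP_b0afd3_gt.H80

open Real Filter Topology Col

theorem qfac_eq (m n : ℕ) : qfac (2 * m + 1) n = bf (2 * m + 1) n / (2 * sin (hb m)) ^ n := by
  rw [qfac, bf, ← Finset.card_range n, ← Finset.prod_const, Finset.card_range,
    ← Finset.prod_div_distrib]
  refine Finset.prod_congr rfl fun k _ => ?_
  rw [qint, mul_div_mul_left _ _ two_ne_zero, hb]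
  congr 2
  push_cast
  ring

theorem bf_refl (m k : ℕ) : ∀ n, n + k = 2 * m →
    bf (2 * m + 1) (2 * m) = (-1) ^ k * bf (2 * m + 1) n * bf (2 * m + 1) k := by
  induction k with
  | zero => rintro n rfl; simp [bf]
  | succ k ih =>
    intro n h
    rw [ih (n + 1) (by omega), bf_succ, bf_succ]
    have : (n : ℝ) + 1 = 2 * m + 1 - (k + 1) := by
      have := congrArg (Nat.cast : ℕ → ℝ) h
      push_cast at this
      linarith
    rw [this, ← hb, mul_sub, hb_mul, sin_two_pi_sub]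
    ring

theorem s_ne {m : ℕ} (h : 1 ≤ m) : 2 * sin (hb m) ≠ 0 := by
  simpa [hb] using (cell_odd (m := m) (j := 0) (by omega)).1

theorem qf {m : ℕ} {n : ℕ} {k : ℤ} (h : k = n) :
    qfac (2 * m + 1) n = fa m k * (2 * sin (hb m)) ^ (-k) := by
  rw [qfac_eq, h, fa, zpow_neg, zpow_natCast, Int.toNat_natCast, div_eq_mul_inv]

theorem qf' {m : ℕ} {n : ℕ} {k : ℤ} (h : k = n) (h1 : k ≤ 2 * m - 1) :
    (-1) ^ n * qfac (2 * m + 1) (n + 1) =
      -bf (2 * m + 1) (2 * m) * (fa m (2 * m - 1 - k))⁻¹ * (2 * sin (hb m)) ^ (-k - 1) := by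
  obtain ⟨j, hj⟩ := Int.eq_ofNat_of_zero_le (sub_nonneg.2 h1)
  have h0 := bf_ne (m := m) (n := j) (by omega)
  have h2 : (-1 : ℝ) ^ j = -(-1) ^ n := by
    have : (-1 : ℝ) ^ (j + n + 1) = 1 := Even.neg_one_pow ⟨m, by omega⟩
    rcases neg_one_pow_eq_or ℝ n with g | g <;> rw [pow_succ, pow_add, g] at this <;> rw [g] <;>
      linarith
  rw [qf (k := k + 1) (by omega), bf_refl m j (n + 1) (by omega), hj, h2, neg_add', fa, fa,
    show (k + 1).toNat = n + 1 by omega, Int.toNat_natCast]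
  field_simp

theorem qfac_zero {m n : ℕ} (h : 2 * m + 1 ≤ n) : qfac (2 * m + 1) n = 0 := by
  refine Finset.prod_eq_zero (i := 2 * m) (Finset.mem_range.2 h) ?_
  rw [qint, mul_div_cancel_right₀ _ (by positivity), sin_two_pi, zero_div]

theorem sum_eq (D : Col) {m : ℕ} (hm : 1 ≤ m) {t1 t2 t3 t4 q1 q2 q3 : ℕ} (h1 : D.T1 = t1)
    (h2 : D.T2 = t2) (h3 : D.T3 = t3) (h4 : D.T4 = t4) (h5 : D.Q1 = q1) (h6 : D.Q2 = q2)
    (h7 : D.Q3 = q3) (h8 : t1 + t2 + t3 + t4 = q1 + q2 + q3)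
    (h9 : q1 ≤ t1 + 2 * m ∧ q2 ≤ t1 + 2 * m ∧ q3 ≤ t1 + 2 * m) :
    ∑ z ∈ Finset.Icc (max (max t1 t2) (max t3 t4)) (min (min q1 q2) q3),
      (-1) ^ z * qfac (2 * m + 1) (z + 1) / (qfac (2 * m + 1) (z - t1) *
        qfac (2 * m + 1) (z - t2) * qfac (2 * m + 1) (z - t3) * qfac (2 * m + 1) (z - t4) *
        (qfac (2 * m + 1) (q1 - z) * qfac (2 * m + 1) (q2 - z) * qfac (2 * m + 1) (q3 - z))) =
      -bf (2 * m + 1) (2 * m) / (2 * sin (hb m)) * D.S m := by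
  have hs := s_ne hm
  have I : ∀ n : ℤ, 0 ≤ n → ig m n = (fa m n)⁻¹ := fun n hn => if_pos hn
  have N : ∀ n : ℤ, n ≤ 2 * m → fa m n ≠ 0 := fun n => fa_ne
  rw [S, Finset.mul_sum]
  refine Finset.sum_congr_of_eq_on_inter (fun z _ h => ?_) (fun z _ h => ?_) fun z h _ => ?_
  · rw [qfac_zero (by rw [Finset.mem_range] at h; omega), mul_zero, zero_div]
  · rw [term_zero _ _ fun g => h ?_, mul_zero]
    simp only [Rg, Finset.mem_Icc, max_le_iff, le_min_iff] at g ⊢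
    omega
  rcases lt_or_ge (z : ℤ) (2 * m) with g | g; swap
  · rw [qfac_zero (by omega), term_zero _ _ fun g => by unfold Rg at g; omega]
    simp
  simp only [Finset.mem_Icc, max_le_iff, le_min_iff] at h
  have k : (2 * sin (hb m)) ^ (-(z - D.T1)) * (2 * sin (hb m)) ^ (-(z - D.T2)) *
      (2 * sin (hb m)) ^ (-(z - D.T3)) * (2 * sin (hb m)) ^ (-(z - D.T4)) *
      (2 * sin (hb m)) ^ (-(D.Q1 - z)) * (2 * sin (hb m)) ^ (-(D.Q2 - z)) *
      (2 * sin (hb m)) ^ (-(D.Q3 - z)) = (2 * sin (hb m)) ^ (-(z : ℤ) - 1) * (2 * sin (hb m)) := by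
    rw [← zpow_add_one₀ hs]
    simp only [← zpow_add₀ hs]
    congr 1
    omega
  rw [qf' (k := z) rfl (by omega), qf (k := z - D.T1) (by omega), qf (k := z - D.T2) (by omega),
    qf (k := z - D.T3) (by omega), qf (k := z - D.T4) (by omega), qf (k := D.Q1 - z) (by omega),
    qf (k := D.Q2 - z) (by omega), qf (k := D.Q3 - z) (by omega), term]
  simp (disch := omega) only [I]
  rw [div_eq_iff (by
    repeat' apply mul_ne_zero
    all_goals first | exact zpow_ne_zero _ hs | exact N _ (by omega))]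
  have := N (z - D.T1) (by omega)
  have := N (z - D.T2) (by omega)
  have := N (z - D.T3) (by omega)
  have := N (z - D.T4) (by omega)
  have := N (D.Q1 - z) (by omega)
  have := N (D.Q2 - z) (by omega)
  have := N (D.Q3 - z) (by omega)
  have := N (2 * m - 1 - z) (by omega)
  generalize 2 * sin (hb m) = s at *
  field_simp
  linear_combination bf (2 * m + 1) (2 * m) * k

theorem theta_eq {m x y z : ℕ} {T p q r : ℤ} (h : 2 * T = x + y + z) (hp : 2 * p = x + y - z)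
    (hq : 2 * q = x + z - y) (hr : 2 * r = y + z - x) (g : 0 ≤ p ∧ 0 ≤ q ∧ 0 ≤ r ∧ T ≤ 2 * m - 1)
    (hm : 1 ≤ m) : theta (2 * m + 1) x y z = -bf (2 * m + 1) (2 * m) * (fa m (2 * m - 1 - T))⁻¹ *
      (fa m p * fa m q * fa m r) / ((2 * sin (hb m)) ^ (x + y + z + 1) *
      (qfac (2 * m + 1) x * qfac (2 * m + 1) y * qfac (2 * m + 1) z)) := by
  have hs := s_ne hm
  have k : (2 * sin (hb m)) ^ (-T - 1) * (2 * sin (hb m)) ^ (-p) * (2 * sin (hb m)) ^ (-q) *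
      (2 * sin (hb m)) ^ (-r) = ((2 * sin (hb m)) ^ (x + y + z + 1))⁻¹ := by
    rw [← zpow_natCast, ← zpow_neg]
    simp only [← zpow_add₀ hs]
    congr 1
    omega
  rw [theta, qf' (k := T) (by omega) (by omega), qf (k := p) (by omega), qf (k := q) (by omega),
    qf (k := r) (by omega), ← div_div _ (_ ^ _), div_eq_mul_inv _ (_ ^ _), ← k]
  ring

theorem bracket_eq (D : Col) {m : ℕ} (hm : 1 ≤ m) (A : D.Ad m) {a b c d e f : ℕ} (ha : D.a = a)
    (hb' : D.b = b) (hc : D.c = c) (hd : D.d = d) (he : D.e = e) (hf : D.f = f) :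
    bracket (2 * m + 1) f b c d e a = |2 * sin (hb m)| / (2 * m + 1 : ℕ) * |D.u m| := by
  have j1 := D.t1
  have j2 := D.t2
  have j3 := D.t3
  have j4 := D.t4
  have j5 := D.q1
  have j6 := D.q2
  have j7 := D.q3
  have hs := s_ne hm
  have hB := bf_ne (m := m) (n := 2 * m) le_rfl
  have N : ∀ n : ℤ, n ≤ 2 * m → fa m n ≠ 0 := fun n => fa_ne
  have Z : ∀ n : ℕ, n ≤ 2 * m → qfac (2 * m + 1) n ≠ 0 := fun n hn => by
    rw [qfac_eq]; exact div_ne_zero (bf_ne hn) (pow_ne_zero _ hs)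
  unfold Ad at A
  rw [bracket, theta_eq (T := D.T1) (p := D.Q1 - D.T4) (q := D.Q2 - D.T3) (r := D.Q3 - D.T2)
      (by omega) (by omega) (by omega) (by omega) (by omega) hm,
    theta_eq (T := D.T2) (p := D.Q2 - D.T4) (q := D.Q1 - D.T3) (r := D.Q3 - D.T1)
      (by omega) (by omega) (by omega) (by omega) (by omega) hm,
    theta_eq (T := D.T3) (p := D.Q3 - D.T4) (q := D.Q1 - D.T2) (r := D.Q2 - D.T1)
      (by omega) (by omega) (by omega) (by omega) (by omega) hm,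
    theta_eq (T := D.T4) (p := D.Q3 - D.T3) (q := D.Q2 - D.T2) (r := D.Q1 - D.T1)
      (by omega) (by omega) (by omega) (by omega) (by omega) hm]
  simp only [tet, Fin.prod_univ_four, Fin.prod_univ_three, Matrix.cons_val]
  have z1 := Z a (by omega)
  have z2 := Z b (by omega)
  have z3 := Z c (by omega)
  have z4 := Z d (by omega)
  have z5 := Z e (by omega)
  have z6 := Z f (by omega)
  obtain ⟨t1, h1⟩ : ∃ t, t = (f + b + c) / 2 := ⟨_, rfl⟩
  obtain ⟨t2, h2⟩ : ∃ t, t = (f + d + e) / 2 := ⟨_, rfl⟩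
  obtain ⟨t3, h3⟩ : ∃ t, t = (b + d + a) / 2 := ⟨_, rfl⟩
  obtain ⟨t4, h4⟩ : ∃ t, t = (c + e + a) / 2 := ⟨_, rfl⟩
  obtain ⟨q1, h5⟩ : ∃ t, t = (f + a + b + e) / 2 := ⟨_, rfl⟩
  obtain ⟨q2, h6⟩ : ∃ t, t = (f + a + c + d) / 2 := ⟨_, rfl⟩
  obtain ⟨q3, h7⟩ : ∃ t, t = (b + e + c + d) / 2 := ⟨_, rfl⟩
  rw [← h1, ← h2, ← h3, ← h4, ← h5, ← h6, ← h7]
  replace h1 : D.T1 = t1 := by omega
  replace h2 : D.T2 = t2 := by omega
  replace h3 : D.T3 = t3 := by omega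
  replace h4 : D.T4 = t4 := by omega
  replace h5 : D.Q1 = q1 := by omega
  replace h6 : D.Q2 = q2 := by omega
  replace h7 : D.Q3 = q3 := by omega
  have k : (2 * sin (hb m)) ^ (-(D.Q1 - D.T1)) * (2 * sin (hb m)) ^ (-(D.Q2 - D.T1)) *
      (2 * sin (hb m)) ^ (-(D.Q3 - D.T1)) * ((2 * sin (hb m)) ^ (-(D.Q1 - D.T2)) *
      (2 * sin (hb m)) ^ (-(D.Q2 - D.T2)) * (2 * sin (hb m)) ^ (-(D.Q3 - D.T2))) *
      ((2 * sin (hb m)) ^ (-(D.Q1 - D.T3)) * (2 * sin (hb m)) ^ (-(D.Q2 - D.T3)) *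
      (2 * sin (hb m)) ^ (-(D.Q3 - D.T3))) * ((2 * sin (hb m)) ^ (-(D.Q1 - D.T4)) *
      (2 * sin (hb m)) ^ (-(D.Q2 - D.T4)) * (2 * sin (hb m)) ^ (-(D.Q3 - D.T4))) =
      ((2 * sin (hb m)) ^ (a + b + c + d + e + f))⁻¹ := by
    rw [← zpow_natCast, ← zpow_neg]
    simp only [← zpow_add₀ hs]
    congr 1
    omega
  rw [sum_eq D hm h1 h2 h3 h4 h5 h6 h7 (by omega) (by omega),
    qf (n := q1 - t1) (k := D.Q1 - D.T1) (by omega), qf (n := q2 - t1) (k := D.Q2 - D.T1) (by omega),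
    qf (n := q3 - t1) (k := D.Q3 - D.T1) (by omega), qf (n := q1 - t2) (k := D.Q1 - D.T2) (by omega),
    qf (n := q2 - t2) (k := D.Q2 - D.T2) (by omega), qf (n := q3 - t2) (k := D.Q3 - D.T2) (by omega),
    qf (n := q1 - t3) (k := D.Q1 - D.T3) (by omega), qf (n := q2 - t3) (k := D.Q2 - D.T3) (by omega),
    qf (n := q3 - t3) (k := D.Q3 - D.T3) (by omega), qf (n := q1 - t4) (k := D.Q1 - D.T4) (by omega),
    qf (n := q2 - t4) (k := D.Q2 - D.T4) (by omega), qf (n := q3 - t4) (k := D.Q3 - D.T4) (by omega)]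
  have n1 := N (D.Q1 - D.T1) (by omega)
  have n2 := N (D.Q2 - D.T1) (by omega)
  have n3 := N (D.Q3 - D.T1) (by omega)
  have n4 := N (D.Q1 - D.T2) (by omega)
  have n5 := N (D.Q2 - D.T2) (by omega)
  have n6 := N (D.Q3 - D.T2) (by omega)
  have n7 := N (D.Q1 - D.T3) (by omega)
  have n8 := N (D.Q2 - D.T3) (by omega)
  have n9 := N (D.Q3 - D.T3) (by omega)
  have n10 := N (D.Q1 - D.T4) (by omega)
  have n11 := N (D.Q2 - D.T4) (by omega)
  have n12 := N (D.Q3 - D.T4) (by omega)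
  have n13 := N (2 * m - 1 - D.T1) (by omega)
  have n14 := N (2 * m - 1 - D.T2) (by omega)
  have n15 := N (2 * m - 1 - D.T3) (by omega)
  have n16 := N (2 * m - 1 - D.T4) (by omega)
  have key : ∀ x y W : ℝ, W ≠ 0 →
      y = (bf (2 * m + 1) (2 * m) ^ 2 / (2 * sin (hb m)) ^ 2 * W) ^ 2 / D.P m →
      x = W * (-bf (2 * m + 1) (2 * m) / (2 * sin (hb m)) * D.S m) →
      |x| / √|y| = |2 * sin (hb m)| / (2 * m + 1 : ℕ) * |D.u m| := by
    rintro _ _ W hW rfl rfl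
    rw [abs_div, sqrt_div (abs_nonneg _), abs_pow, sqrt_sq (abs_nonneg _), u]
    generalize 2 * sin (hb m) = s at *
    simp only [abs_mul, abs_div, abs_neg, abs_pow, bf_top, abs_of_nonneg (sqrt_nonneg _)]
    field_simp
  generalize 2 * sin (hb m) = s at *
  refine key _ _ (fa m (D.Q1 - D.T1) * fa m (D.Q2 - D.T1) *
    fa m (D.Q3 - D.T1) * fa m (D.Q1 - D.T2) * fa m (D.Q2 - D.T2) * fa m (D.Q3 - D.T2) *
    fa m (D.Q1 - D.T3) * fa m (D.Q2 - D.T3) * fa m (D.Q3 - D.T3) * fa m (D.Q1 - D.T4) *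
    fa m (D.Q2 - D.T4) * fa m (D.Q3 - D.T4) * (s ^ (a + b + c + d + e + f))⁻¹ /
    (qfac (2 * m + 1) a * qfac (2 * m + 1) b * qfac (2 * m + 1) c * qfac (2 * m + 1) d *
      qfac (2 * m + 1) e * qfac (2 * m + 1) f)) (by positivity) ?_ ?_
  · rw [P]
    field_simp
    ring
  · rw [← k]
    ring

theorem exists_col (m a b c d e f : ℕ) : ∃ D : Col, 1 ≤ m → Adm (2 * m + 1) f b c →
    Adm (2 * m + 1) f d e → Adm (2 * m + 1) b d a → Adm (2 * m + 1) c e a →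
    D.a = a ∧ D.b = b ∧ D.c = c ∧ D.d = d ∧ D.e = e ∧ D.f = f ∧ D.Ad m := by
  by_cases h : Even (f + b + c) ∧ Even (f + d + e) ∧ Even (b + d + a) ∧ Even (c + e + a)
  · obtain ⟨⟨t1, h1⟩, ⟨t2, h2⟩, ⟨t3, h3⟩, ⟨t4, h4⟩⟩ := h
    refine ⟨⟨a, b, c, d, e, f, t1, t2, t3, t4, t1 + t4 - c, t1 + t3 - b, t1 + t2 - f, by omega,
      by omega, by omega, by omega, by omega, by omega, by omega⟩, fun _ g1 g2 g3 g4 =>
      ⟨rfl, rfl, rfl, rfl, rfl, rfl, ?_⟩⟩
    simp only [Adm, Ad] at *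
    omega
  · exact ⟨⟨0, 0, 0, 0, 0, 0, 0, 0, 0, 0, 0, 0, 0, rfl, rfl, rfl, rfl, rfl, rfl, rfl⟩,
      fun _ g1 g2 g3 g4 => (h ⟨g1.2.2.2.1, g2.2.2.2.1, g3.2.2.2.1, g4.2.2.2.1⟩).elim⟩

theorem spacelike {w : Fin 4 → ℝ} {x y : Fin 3 → ℝ} (hx : x 0 ^ 2 + x 1 ^ 2 + x 2 ^ 2 < 1)
    (h : mink w (lift x) = 0) (h' : mink w (lift y) ≠ 0) : 0 < mink w w := by
  by_contra! g
  apply h'
  simp only [mink, lift, Matrix.cons_val] at *
  have h0 : w 0 = w 1 * x 0 + w 2 * x 1 + w 3 * x 2 := by linarith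
  rw [h0] at g ⊢
  have k : w 1 ^ 2 + w 2 ^ 2 + w 3 ^ 2 ≤ 0 := by
    by_contra! k
    nlinarith [mul_pos k (sub_pos.2 hx), sq_nonneg (w 1 * x 1 - w 2 * x 0),
      sq_nonneg (w 1 * x 2 - w 3 * x 0), sq_nonneg (w 2 * x 2 - w 3 * x 1)]
  have k1 : w 1 = 0 := by nlinarith [sq_nonneg (w 2), sq_nonneg (w 3)]
  have k2 : w 2 = 0 := by nlinarith [sq_nonneg (w 1), sq_nonneg (w 3)]
  have k3 : w 3 = 0 := by nlinarith [sq_nonneg (w 1), sq_nonneg (w 2)]
  simp [k1, k2, k3]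

theorem Tetra.ang {p : Fin 4 → Fin 3 → ℝ} {n : Fin 4 → Fin 4 → ℝ} (h : Tetra p n) (i : Fin 4)
    {k l : Fin 4} (h1 : i ≠ k) (h2 : i ≠ l) (h3 : k ≠ l) :
    π - arccos (-mink (n k) (n l)) ∈ Set.Ioo 0 π ∧
      cos (π - arccos (-mink (n k) (n l))) = mink (n k) (n l) := by
  have H : ∀ s : ℝ, 0 < 1 + 2 * s * mink (n k) (n l) + s ^ 2 := fun s => by
    have a1 := h.face i k h1
    have a2 := h.face i l h2
    have a3 := h.face k l h3
    have a4 := h.outer k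
    have a5 := h.unit k
    have a6 := h.unit l
    have := spacelike (w := n k + s • n l) (y := p k) (h.ball i)
      (by simp only [mink, Pi.add_apply, Pi.smul_apply, smul_eq_mul] at *
          linear_combination a1 + s * a2)
      (by simp only [mink, Pi.add_apply, Pi.smul_apply, smul_eq_mul] at *
          intro g
          exact a4.ne (by linear_combination g - s * a3))
    simp only [mink, Pi.add_apply, Pi.smul_apply, smul_eq_mul] at *
    convert this using 1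
    linear_combination -a5 - s ^ 2 * a6
  have a1 := H 1
  have a2 := H (-1)
  refine ⟨⟨sub_pos.2 (arccos_lt_pi.2 (by linarith)), sub_lt_self _ (arccos_pos.2 (by linarith))⟩, ?_⟩
  rw [cos_pi_sub, cos_arccos (by linarith) (by linarith), neg_neg]

theorem an_lim {x : ℕ → ℕ} {y : ℕ → ℤ} (h : ∀ᶠ m in atTop, y m = x m) {θ : ℝ}
    (g : Tendsto (fun m : ℕ => 2 * π * x m / (2 * m + 1 : ℕ)) atTop (𝓝 (π + θ)) ∨
      Tendsto (fun m : ℕ => 2 * π * x m / (2 * m + 1 : ℕ)) atTop (𝓝 (π - θ))) :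
    ∃ t, (t = π - θ ∨ t = 2 * π - (π - θ)) ∧ Tendsto (fun m => an m (y m)) atTop (𝓝 t) := by
  have k : ∀ t, Tendsto (fun m : ℕ => 2 * π * x m / (2 * m + 1 : ℕ)) atTop (𝓝 t) →
      Tendsto (fun m => an m (y m)) atTop (𝓝 t) := fun t g => by
    have := g.add hb_tendsto
    rw [add_zero] at this
    refine this.congr' (h.mono fun m k => ?_)
    simp only [an, k, hb, Int.cast_natCast]
    ring
  rcases g with g | g
  exacts [⟨_, .inr (by ring), k _ g⟩, ⟨_, .inl rfl, k _ g⟩]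

theorem pref_lim :
    Tendsto (fun m : ℕ => hb m * log (|2 * sin (hb m)| / (2 * m + 1 : ℕ))) atTop (𝓝 0) := by
  have h1 : Tendsto (fun m : ℕ => hb m * log (fa m 1) + lob (hb m * (3 / 2))) atTop (𝓝 0) := by
    rw [Metric.tendsto_nhds]
    intro ε hε
    filter_upwards [fa_asym hε, eventually_ge_atTop 1] with m h g
    simpa using h 1 _ zero_le_one (by omega) (by norm_num)
  have h2 := (lob_cont.tendsto _).comp (hb_tendsto.mul_const (3 / 2))
  rw [zero_mul, lob_zero] at h2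
  have := (h1.sub h2).sub hlog_tendsto
  rw [sub_zero, sub_zero] at this
  refine this.congr' ((eventually_ge_atTop 1).mono fun m g => ?_)
  simp only [Function.comp]
  rw [log_div (abs_pos.2 (s_ne g)).ne' (by positivity), log_abs, ← hb]
  simp [fa, bf, hb]
  ring

theorem vol_pos {a b c d e f : ℝ} (ha : Reg a b c d e f) (hg : gd a b c d e f < 0)
    (hp : PosC a b c d e f) : 0 < gvol (cos a) (cos b) (cos c) (cos d) (cos e) (cos f) := by
  obtain ⟨z, hza, hz, h0, -, gz⟩ := exists_x2 ha hg hp.c01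
  exact vol_eq hp ha hz hza h0 gz ▸ K_pos hz ha hza gz

end Pool.Agent.MP_b0afd3_gt.H80
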