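import Pool.Agent.MP_b0afd3_gt.H80.Asym

set_option autoImplicit false

namespace Pool.Agent.MP_b0afd3_gt.H80

open Real Filter Topology Col

theorem sum_int {g : ℤ → ℝ} {T : ℤ} {n : ℕ} {N : ℤ} (hT : 0 ≤ T) (hN : N < n)
    (h : ∀ z, g z ≠ 0 → T ≤ z ∧ z ≤ N) :
    ∑ z ∈ Finset.range n, g z = ∑ z ∈ Finset.Icc T N, g z := by
  refine Finset.sum_bij_ne_zero (fun z _ _ => (z : ℤ)) (fun z _ g => Finset.mem_Icc.2 (h z g))
    (fun _ _ _ _ _ _ g => by exact_mod_cast g) (fun z hz g => ?_) fun _ _ _ => rfl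
  have := Finset.mem_Icc.1 hz
  obtain ⟨k, rfl⟩ := Int.eq_ofNat_of_zero_le (hT.trans this.1)
  exact ⟨k, Finset.mem_range.2 (by omega), g, rfl⟩

theorem u_flip {D E : Col} {m : ℕ} {T : ℤ} (hT : 0 ≤ T) (hP : E.P m = D.P m)
    (ht : ∀ z, E.term m (2 * m - 1 + T - z) = D.term m z) (h : ∀ z, D.Rg m z → T ≤ z) :
    E.u m = D.u m := by
  have k : ∀ z, D.term m z ≠ 0 → T ≤ z ∧ z ≤ 2 * m - 1 := fun z g =>
    have r : D.Rg m z := by_contra fun k => g (D.term_zero m k)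
    ⟨h z r, r.2.2.2.2.2.2.2⟩
  rw [u, u, hP, S, S, sum_int hT (by push_cast; omega) k, sum_int (N := 2 * m - 1) hT
    (by push_cast; omega) fun z g => by
      have := k (2 * m - 1 + T - z) (by rwa [← ht, sub_sub_cancel])
      omega]
  congr 1
  refine Finset.sum_nbij' (fun z => 2 * m - 1 + T - z) (fun z => 2 * m - 1 + T - z) ?_ ?_ ?_ ?_ ?_
  · simp only [Finset.mem_Icc]; omega
  · simp only [Finset.mem_Icc]; omega
  · simp
  · simp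
  · intro z _; rw [← ht, sub_sub_cancel]

/-- admissibility -/
def Col.Ad (D : Col) (m : ℕ) : Prop :=
  (D.T1 ≤ D.Q1 ∧ D.T1 ≤ D.Q2 ∧ D.T1 ≤ D.Q3 ∧ D.T1 ≤ 2 * m - 1) ∧
  (D.T2 ≤ D.Q1 ∧ D.T2 ≤ D.Q2 ∧ D.T2 ≤ D.Q3 ∧ D.T2 ≤ 2 * m - 1) ∧
  (D.T3 ≤ D.Q1 ∧ D.T3 ≤ D.Q2 ∧ D.T3 ≤ D.Q3 ∧ D.T3 ≤ 2 * m - 1) ∧
  (D.T4 ≤ D.Q1 ∧ D.T4 ≤ D.Q2 ∧ D.T4 ≤ D.Q3 ∧ D.T4 ≤ 2 * m - 1)

theorem Col.Ad.pos {D : Col} {m : ℕ} (h : D.Ad m) : 0 ≤ D.T2 ∧ 0 ≤ D.T3 ∧ 0 ≤ D.T4 := by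
  have j1 := D.t1
  have j2 := D.t2
  have j3 := D.t3
  have j4 := D.t4
  have j5 := D.q1
  have j6 := D.q2
  have j7 := D.q3
  unfold Ad at h
  omega

def Col.fl1 (D : Col) (N : ℤ) : Col :=
  ⟨N - D.a, N - D.b, N - D.c, D.d, D.e, D.f, N + D.T2 - D.Q3, D.T2, N + D.T2 - D.Q1,
    N + D.T2 - D.Q2, N + D.T2 - D.T3, N + D.T2 - D.T4, N + D.T2 - D.T1,
    by linarith [D.t2, D.q3], D.t2, by linarith [D.t2, D.q1], by linarith [D.t2, D.q2],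
    by linarith [D.t2, D.t3], by linarith [D.t2, D.t4], by linarith [D.t2, D.t1]⟩

def Col.fl2 (D : Col) (N : ℤ) : Col :=
  ⟨D.a, D.b, N - D.c, D.d, N - D.e, N - D.f, N + D.T3 - D.Q2, N + D.T3 - D.Q1, D.T3,
    N + D.T3 - D.Q3, N + D.T3 - D.T2, N + D.T3 - D.T1, N + D.T3 - D.T4,
    by linarith [D.t3, D.q2], by linarith [D.t3, D.q1], D.t3, by linarith [D.t3, D.q3],
    by linarith [D.t3, D.t2], by linarith [D.t3, D.t1], by linarith [D.t3, D.t4]⟩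

def Col.fl3 (D : Col) (N : ℤ) : Col :=
  ⟨D.a, N - D.b, D.c, N - D.d, D.e, N - D.f, N + D.T4 - D.Q1, N + D.T4 - D.Q2,
    N + D.T4 - D.Q3, D.T4, N + D.T4 - D.T1, N + D.T4 - D.T2, N + D.T4 - D.T3,
    by linarith [D.t4, D.q1], by linarith [D.t4, D.q2], by linarith [D.t4, D.q3], D.t4,
    by linarith [D.t4, D.t1], by linarith [D.t4, D.t2], by linarith [D.t4, D.t3]⟩

theorem Col.Ad.fl {D : Col} {m : ℕ} (h : D.Ad m) :
    ((D.fl1 (2 * m - 1)).Ad m ∧ (D.fl1 (2 * m - 1)).u m = D.u m) ∧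
    ((D.fl2 (2 * m - 1)).Ad m ∧ (D.fl2 (2 * m - 1)).u m = D.u m) ∧
    ((D.fl3 (2 * m - 1)).Ad m ∧ (D.fl3 (2 * m - 1)).u m = D.u m) := by
  refine ⟨⟨?_, u_flip h.pos.1 ?_ (fun z => ?_) fun z g => g.2.1⟩,
    ⟨?_, u_flip h.pos.2.1 ?_ (fun z => ?_) fun z g => g.2.2.1⟩,
    ⟨?_, u_flip h.pos.2.2 ?_ (fun z => ?_) fun z g => g.2.2.2.1⟩⟩
  all_goals first
    | (simp only [Ad, fl1, fl2, fl3] at h ⊢; omega)
    | (simp only [P, term, fl1, fl2, fl3]; ring_nf)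

theorem an_fl {x : ℕ → ℤ} {y y' : ℝ} (h : Tendsto (fun m => an m (x m)) atTop (𝓝 y'))
    (hy : y' = y ∨ y' = 2 * π - y) : ∃ y'', (y'' = y ∨ y'' = 2 * π - y) ∧
      (y' ≠ y → y'' = y) ∧ Tendsto (fun m : ℕ => an m (2 * m - 1 - x m)) atTop (𝓝 y'') := by
  refine ⟨2 * π - y', by rcases hy with g | g <;> simp [g], fun g => by
    rw [hy.resolve_left g]; ring, (h.const_sub _).congr fun m => ?_⟩
  simp only [an, ← hb_mul m]
  push_cast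
  ring

theorem lim_eq {x y z : ℕ → ℤ} {p p' q r : ℝ} (hx : Tendsto (fun m => an m (x m)) atTop (𝓝 p'))
    (hy : Tendsto (fun m => an m (y m)) atTop (𝓝 q)) (hz : Tendsto (fun m => an m (z m)) atTop (𝓝 r))
    (hT : ∀ᶠ m : ℕ in atTop, x m ≤ y m + z m) (hp : p' = p ∨ p' = 2 * π - p)
    (ht : p + q + r < 2 * π) : p' = p := by
  have := le_of_tendsto_of_tendsto hx (hy.add hz) (by
    filter_upwards [hT] with m g
    have : (x m : ℝ) ≤ y m + z m := by exact_mod_cast g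
    have := hb_pos m
    simp only [an]
    nlinarith)
  exact hp.resolve_right fun g => by linarith

theorem main2 {a b c d e f : ℝ} (h : Reg a b c d e f) (hg : gd a b c d e f < 0)
    (hp : PosC a b c d e f) {C : ℕ → Col} {a' b' c' d' e' f' : ℝ} (A : ∀ᶠ m in atTop, (C m).Ad m)
    (L : Lim5 C b' c' d' e' f') (La : Tendsto (fun m => an m (C m).a) atTop (𝓝 a'))
    (ha : a' = a ∨ a' = 2 * π - a) (hb' : b' = b ∨ b' = 2 * π - b) (hc : c' = c ∨ c' = 2 * π - c)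
    (hd : d' = d ∨ d' = 2 * π - d) (he : e' = e ∨ e' = 2 * π - e) (hf : f' = f ∨ f' = 2 * π - f) :
    Tendsto (fun m => hb m * log ((C m).u m)) atTop
      (𝓝 (gvol (cos a) (cos b) (cos c) (cos d) (cos e) (cos f))) := by
  wlog k1 : a' = a generalizing C a' b' c' with H
  · obtain ⟨_, a1, a2, a3⟩ := an_fl La ha
    obtain ⟨_, b1, -, b3⟩ := an_fl L.b hb'
    obtain ⟨_, c1, -, c3⟩ := an_fl L.c hc
    refine (H (C := fun m => (C m).fl1 (2 * m - 1)) (A.mono fun m g => g.fl.1.1)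
      ⟨b3, c3, L.d, L.e, L.f⟩ a3 a1 b1 c1 (a2 k1)).congr' (A.mono fun m g => ?_)
    simp only [g.fl.1.2]
  clear ha
  wlog k2 : e' = e generalizing C c' e' f' with H
  · obtain ⟨_, e1, e2, e3⟩ := an_fl L.e he
    obtain ⟨_, f1, -, f3⟩ := an_fl L.f hf
    obtain ⟨_, c1, -, c3⟩ := an_fl L.c hc
    refine (H (C := fun m => (C m).fl2 (2 * m - 1)) (A := A.mono fun m g => g.fl.2.1.1)
      (L := ⟨L.b, c3, L.d, e3, f3⟩) (La := La) (hc := c1) (he := e1) (hf := f1) (e2 k2)).congr'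
      (A.mono fun m g => ?_)
    simp only [g.fl.2.1.2]
  clear he
  wlog k3 : d' = d generalizing C b' d' f' with H
  · obtain ⟨_, d1, d2, d3⟩ := an_fl L.d hd
    obtain ⟨_, f1, -, f3⟩ := an_fl L.f hf
    obtain ⟨_, b1, -, b3⟩ := an_fl L.b hb'
    refine (H (C := fun m => (C m).fl3 (2 * m - 1)) (A := A.mono fun m g => g.fl.2.2.1)
      (L := ⟨b3, L.c, d3, L.e, f3⟩) (La := La) (hb' := b1) (hd := d1) (hf := f1) (d2 k3)).congr'
      (A.mono fun m g => ?_)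
    simp only [g.fl.2.2.2]
  subst k1 k2 k3
  have B := A.mono fun m g => show (C m).f ≤ (C m).d + (C m).e ∧ (C m).b ≤ (C m).a + (C m).d ∧
      (C m).c ≤ (C m).a + (C m).e by
    have j1 := (C m).t1
    have j2 := (C m).t2
    have j5 := (C m).q1
    have j6 := (C m).q2
    have j7 := (C m).q3
    unfold Ad at g
    omega
  obtain rfl := lim_eq L.f L.d L.e (B.mono fun _ g => g.1) hf h.t2.2.2.2
  obtain rfl := lim_eq L.b La L.d (B.mono fun _ g => g.2.1) hb' (by linarith [h.t3.2.2.2])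
  obtain rfl := lim_eq L.c La L.e (B.mono fun _ g => g.2.2) hc (by linarith [h.t4.2.2.2])
  exact (main L La h hg hp).1

end Pool.Agent.MP_b0afd3_gt.H80
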