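import Pool.Agent.MP_b0afd3_gt.H80.Base

set_option autoImplicit false

namespace Pool.Agent.MP_b0afd3_gt.H80

open Real Filter Topology

noncomputable def lam (x : ℝ) : ℂ := ⟨x + √(x ^ 2 - 1), √(1 - x ^ 2)⟩

noncomputable def mu (x : ℝ) : ℂ := ⟨x - √(x ^ 2 - 1), -√(1 - x ^ 2)⟩

theorem one_le_rho (x : ℝ) : 1 ≤ rho x := le_max_left _ _

theorem rho_cont : Continuous rho := by unfold rho; fun_prop

theorem lam_cont : Continuous lam := by
  have : lam = fun x => ((x + √(x ^ 2 - 1) : ℝ) : ℂ) + (√(1 - x ^ 2) : ℝ) * Complex.I := by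
    ext x; apply Complex.ext <;> simp [lam]
  rw [this]; fun_prop

theorem lam_add (x : ℝ) : lam x + mu x = 2 * x := by
  apply Complex.ext <;> simp [lam, mu]; ring

theorem lam_facts (x : ℝ) : lam x * mu x = 1 ∧ ‖lam x‖ ≤ rho x ∧ ‖mu x‖ ≤ rho x := by
  rcases le_total (x ^ 2) 1 with h | h
  · have h1 : √(x ^ 2 - 1) = 0 := sqrt_eq_zero_of_nonpos (by linarith)
    have h2 := mul_self_sqrt (show 0 ≤ 1 - x ^ 2 by linarith)
    refine ⟨by apply Complex.ext <;> simp [lam, mu, h1] <;> nlinarith, ?_, ?_⟩ <;>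
      refine le_trans (abs_le_of_sq_le_sq' ?_ zero_le_one).2 (one_le_rho x) <;>
      rw [Complex.sq_norm, Complex.normSq_apply] <;> simp only [lam, mu, h1] <;> nlinarith
  · have h1 : √(1 - x ^ 2) = 0 := sqrt_eq_zero_of_nonpos (by linarith)
    have h2 := mul_self_sqrt (show 0 ≤ x ^ 2 - 1 by linarith)
    have h3 := sqrt_nonneg (x ^ 2 - 1)
    refine ⟨by apply Complex.ext <;> simp [lam, mu, h1]; nlinarith, ?_, ?_⟩ <;>
      refine le_trans (abs_le_of_sq_le_sq' ?_ (by positivity)).2 (le_max_right _ _) <;>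
      rw [Complex.sq_norm, Complex.normSq_apply] <;> simp only [lam, mu, h1] <;>
      nlinarith [le_abs_self x, neg_abs_le x, sq_abs x]

theorem grow_step {u0 u1 u2 x0 x1 η δ : ℝ} (h : |u2 - 2 * x1 * u1 + u0| ≤ η * (|u1| + |u0|))
    (h1 : ‖lam x0 - lam x1‖ ≤ η) (h2 : rho x1 ≤ rho x0 + η) (h3 : 0 ≤ η) (h4 : η ≤ δ ^ 2)
    (h5 : 0 < δ) (h6 : δ ≤ 1) :
    ‖u2 - lam x1 * u1‖ + δ * |u1| ≤ (1 + 4 * δ) * rho x0 * (‖u1 - lam x0 * u0‖ + δ * |u0|) := by
  have e : u2 - lam x1 * u1 = mu x1 * ((u1 - lam x0 * u0) + (lam x0 - lam x1) * u0) +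
      ((u2 - 2 * x1 * u1 + u0 : ℝ) : ℂ) := by
    push_cast
    linear_combination (-u1 : ℂ) * lam_add x1 + (u0 : ℂ) * (lam_facts x1).1
  have k1 : |u1| ≤ ‖u1 - lam x0 * u0‖ + rho x0 * |u0| := by
    have := norm_add_le (u1 - lam x0 * u0) (lam x0 * u0)
    rw [sub_add_cancel, norm_mul, Complex.norm_real, Complex.norm_real, norm_eq_abs,
      norm_eq_abs] at this
    nlinarith [(lam_facts x0).2.1, abs_nonneg u0]
  have k2 : ‖u2 - lam x1 * u1‖ ≤ (rho x0 + η) * (‖u1 - lam x0 * u0‖ + η * |u0|) +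
      η * (|u1| + |u0|) := by
    rw [e]
    refine (norm_add_le _ _).trans (add_le_add ?_ (by rwa [Complex.norm_real]))
    rw [norm_mul]
    refine mul_le_mul ((lam_facts x1).2.2.trans h2) ((norm_add_le _ _).trans ?_) (norm_nonneg _)
      (by linarith [one_le_rho x0])
    rw [norm_mul, Complex.norm_real, norm_eq_abs]
    gcongr
  have k3 := one_le_rho x0
  have k4 := norm_nonneg (u1 - lam x0 * u0)
  have k5 := abs_nonneg u0
  generalize ‖u1 - lam x0 * u0‖ = Y at *
  generalize rho x0 = r at *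
  generalize |u0| = Z at *
  have k6 : η ≤ δ := by nlinarith
  have k7 : (η + δ) * |u1| ≤ (η + δ) * (Y + r * Z) := by gcongr
  have k8 : (r + η + η + δ) * Y ≤ (1 + 4 * δ) * r * Y := by gcongr; nlinarith
  have k9 : ((r + η) * η + η + (η + δ) * r) * Z ≤ (1 + 4 * δ) * r * δ * Z := by
    gcongr
    have : η ≤ δ ^ 2 * r := by nlinarith
    have : η * r ≤ δ ^ 2 * r := by gcongr
    have : η * η ≤ δ ^ 2 * r := by nlinarith
    nlinarith
  linarith

theorem grow {β : ℝ → ℝ} {x1 x2 : ℝ} (hβ : ContinuousOn β (Set.Icc x1 x2)) {ε : ℝ} (hε : 0 < ε) :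
    ∃ η > 0, ∀ᶠ h in 𝓝[>] (0 : ℝ), ∀ (y : ℝ) (N : ℕ) (u : ℕ → ℝ), x1 ≤ y → y + 2 * h * N ≤ x2 →
      (∀ n < N, |u (n + 2) - 2 * β (y + 2 * h * (n + 1)) * u (n + 1) + u n| ≤
        η * (|u (n + 1)| + |u n|)) →
      |u N| + |u (N + 1)| ≤
        exp (((∫ t in y..y + 2 * h * N, log (rho (β t)) / 2) + ε) / h) * (|u 0| + |u 1|) := by
  obtain ⟨δ, d0, d1, d2⟩ : ∃ δ > 0, δ ≤ 1 ∧ δ * (5 * |x2 - x1|) ≤ ε := by
    refine ⟨min 1 (ε / (5 * |x2 - x1| + 1)), by positivity, min_le_left _ _, ?_⟩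
    have := (le_div_iff₀ (by positivity)).1 (min_le_right 1 (ε / (5 * |x2 - x1| + 1)))
    nlinarith [lt_min one_pos (show 0 < ε / (5 * |x2 - x1| + 1) by positivity)]
  have c1 : ContinuousOn (fun t => rho (β t)) (Set.Icc x1 x2) := rho_cont.comp_continuousOn hβ
  have c2 : ContinuousOn (fun t => log (rho (β t))) (Set.Icc x1 x2) :=
    c1.log fun t _ => (zero_lt_one.trans_le (one_le_rho _)).ne'
  obtain ⟨R, hR⟩ := isCompact_Icc.exists_bound_of_continuousOn c1
  obtain ⟨s, s0, hs⟩ := Metric.uniformContinuousOn_iff.1 (isCompact_Icc.uniformContinuousOn_of_continuous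
    ((lam_cont.comp_continuousOn hβ).prodMk (c1.prodMk c2))) (δ ^ 2) (by positivity)
  have t1 : Tendsto (fun h : ℝ => exp (ε / 2 * h⁻¹)) (𝓝[>] 0) atTop :=
    tendsto_exp_atTop.comp (tendsto_inv_nhdsGT_zero.const_mul_atTop (half_pos hε))
  refine ⟨δ ^ 2, by positivity, ?_⟩
  filter_upwards [Ioo_mem_nhdsGT (half_pos s0), t1.eventually_ge_atTop ((R + 2) * (R + 2) / δ)]
    with h hh hC y N u y1 y2 hu
  have h0 := hh.1
  have mem : ∀ n ≤ N, y + 2 * h * n ∈ Set.Icc x1 x2 := fun n hn => by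
    have : (n : ℝ) ≤ N := by exact_mod_cast hn
    exact ⟨by linarith [show 0 ≤ 2 * h * n by positivity], by nlinarith⟩
  have key : ∀ n ≤ N, ‖u (n + 1) - lam (β (y + 2 * h * n)) * u n‖ + δ * |u n| ≤
      exp ((∫ t in y..y + 2 * h * n, log (rho (β t)) / 2) / h + 5 * δ * n) *
        (‖u 1 - lam (β y) * u 0‖ + δ * |u 0|) := by
    intro n hn
    induction n with
    | zero => simp
    | succ n ih =>
      have m0 := mem n (by omega)
      have m1 := mem (n + 1) hn
      have sub : Set.uIcc (y + 2 * h * n) (y + 2 * h * (n + 1 : ℕ)) ⊆ Set.Icc x1 x2 :=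
        Set.uIcc_subset_Icc m0 m1
      have le : y + 2 * h * n ≤ y + 2 * h * (n + 1 : ℕ) := by push_cast; linarith
      have near : ∀ t ∈ Set.Icc (y + 2 * h * n) (y + 2 * h * (n + 1 : ℕ)),
          ‖lam (β (y + 2 * h * n)) - lam (β t)‖ < δ ^ 2 ∧
          |rho (β (y + 2 * h * n)) - rho (β t)| < δ ^ 2 ∧
          |log (rho (β (y + 2 * h * n))) - log (rho (β t))| < δ ^ 2 := fun t ht => by
        have := hs _ m0 t (sub (Set.Icc_subset_uIcc ht)) (by
          rw [dist_eq, abs_lt]; push_cast at ht; constructor <;> linarith [ht.1, ht.2, hh.2])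
        simp only [Prod.dist_eq, max_lt_iff] at this
        simpa only [dist_eq_norm, Function.comp, norm_eq_abs] using this
      have n1 := near _ ⟨le, le_rfl⟩
      have st := grow_step (by simpa using hu n hn) n1.1.le (by linarith [abs_lt.1 n1.2.1])
        (by positivity) le_rfl d0 d1
      have i1 := (c2.div_const 2).mono sub |>.intervalIntegrable (μ := MeasureTheory.volume)
      have i0 := (c2.div_const 2).mono (Set.uIcc_subset_Icc (by simpa using mem 0 N.zero_le) m0)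
        |>.intervalIntegrable (μ := MeasureTheory.volume)
      have lo := intervalIntegral.integral_mono_on le (intervalIntegrable_const
        (c := (log (rho (β (y + 2 * h * n))) - δ) / 2)) i1 fun t ht => by
          have := abs_lt.1 (near t ht).2.2
          nlinarith
      rw [intervalIntegral.integral_const, smul_eq_mul] at lo
      rw [← intervalIntegral.integral_add_adjacent_intervals i0 i1]
      refine st.trans ((mul_le_mul_of_nonneg_left (ih (by omega))
        (by have := one_le_rho (β (y + 2 * h * n)); positivity)).trans ?_)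
      rw [← mul_assoc]
      gcongr
      rw [← exp_log (zero_lt_one.trans_le (one_le_rho (β (y + 2 * h * n))))]
      refine (mul_le_mul_of_nonneg_right (mul_le_mul_of_nonneg_right
        (show 1 + 4 * δ ≤ exp (4 * δ) by linarith [add_one_le_exp (4 * δ)]) (exp_pos _).le)
        (exp_pos _).le).trans ?_
      rw [← exp_add, ← exp_add, exp_le_exp, add_div]
      have : log (rho (β (y + 2 * h * n))) - δ ≤
          (∫ t in y + 2 * h * n..y + 2 * h * (n + 1 : ℕ), log (rho (β t)) / 2) / h := by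
        rw [le_div_iff₀ h0]; push_cast at lo ⊢; linarith
      push_cast at this ⊢
      linarith
  have kN := key N le_rfl
  have r0 := ((lam_facts _).2.1.trans (le_abs_self _)).trans (hR y (by simpa using mem 0 N.zero_le))
  have rN := ((lam_facts _).2.1.trans (le_abs_self _)).trans (hR _ (mem N le_rfl))
  have R0 : 0 ≤ R := (norm_nonneg _).trans r0
  have k1 : |u (N + 1)| ≤ ‖u (N + 1) - lam (β (y + 2 * h * N)) * u N‖ + R * |u N| := by
    have := norm_add_le (u (N + 1) - lam (β (y + 2 * h * N)) * u N) (lam (β (y + 2 * h * N)) * u N)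
    rw [sub_add_cancel, norm_mul, Complex.norm_real, Complex.norm_real, norm_eq_abs,
      norm_eq_abs] at this
    nlinarith [abs_nonneg (u N)]
  have k2 : ‖u 1 - lam (β y) * u 0‖ + δ * |u 0| ≤ (R + 2) * (|u 0| + |u 1|) := by
    have := norm_sub_le (u 1 : ℂ) (lam (β y) * u 0)
    rw [norm_mul, Complex.norm_real, Complex.norm_real, norm_eq_abs, norm_eq_abs] at this
    nlinarith [abs_nonneg (u 0), abs_nonneg (u 1)]
  have k3 : δ * (|u N| + |u (N + 1)|) ≤
      (R + 2) * (‖u (N + 1) - lam (β (y + 2 * h * N)) * u N‖ + δ * |u N|) := by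
    have := norm_nonneg (u (N + 1) - lam (β (y + 2 * h * N)) * u N)
    nlinarith [abs_nonneg (u N), mul_le_mul_of_nonneg_left k1 d0.le]
  have k4 : 5 * δ * N ≤ ε / 2 * h⁻¹ := by
    rw [← div_eq_mul_inv, le_div_iff₀ h0]
    nlinarith [le_abs_self (x2 - x1)]
  rw [div_le_iff₀ d0] at hC
  rw [show ((∫ t in y..y + 2 * h * N, log (rho (β t)) / 2) + ε) / h =
    (∫ t in y..y + 2 * h * N, log (rho (β t)) / 2) / h + ε / 2 * h⁻¹ + ε / 2 * h⁻¹ by ring,
    exp_add]
  refine le_of_mul_le_mul_left (k3.trans ?_) d0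
  have k5 := exp_le_exp.2 (add_le_add_right k4 ((∫ t in y..y + 2 * h * N, log (rho (β t)) / 2) / h))
  calc _ ≤ (R + 2) * (exp ((∫ t in y..y + 2 * h * N, log (rho (β t)) / 2) / h + ε / 2 * h⁻¹) *
        ((R + 2) * (|u 0| + |u 1|))) := by
        gcongr
        exact kN.trans (by gcongr)
    _ = (R + 2) * (R + 2) * (exp ((∫ t in y..y + 2 * h * N, log (rho (β t)) / 2) / h + ε / 2 * h⁻¹) *
        (|u 0| + |u 1|)) := by ring
    _ ≤ _ := (mul_le_mul_of_nonneg_right hC (by positivity)).trans_eq (by ring)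

end Pool.Agent.MP_b0afd3_gt.H80
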