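import Pool.Agent.MP_b0afd3_gt.H80.Lob

set_option autoImplicit false

namespace Pool.Agent.MP_b0afd3_gt.H80

open Real

noncomputable def osc (σ τ φ s s' p p' x : ℝ) : ℝ :=
  s * sin σ * cos (x - τ) + s' * sin τ * cos (x - φ) - p' * sin σ * cos x
    - p * sin τ * cos (x - σ - φ)

noncomputable def hh (σ τ φ s s' p p' x : ℝ) : ℝ :=
  s * s' * sin τ - p * p' * sin σ - p * s * sin (τ - σ) + sin σ * sin τ * sin φ -
    osc σ τ φ s s' p p' x

noncomputable def kk (σ τ φ s s' p p' x : ℝ) : ℝ :=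
  s * s' * sin (σ + τ) - s' * p' * sin σ - p * s * sin τ + sin τ * sin σ * sin (σ + φ) -
    osc σ τ φ s s' p p' x

theorem id1 (σ τ φ s s' p p' η : ℝ) :
    (s' - cos η) * hh σ τ φ s s' p p' (η - σ) - kk σ τ φ s s' p p' η * (p - cos (η - σ)) =
      sin τ * (s' ^ 2 + p ^ 2 - 2 * s' * p * cos σ - sin σ ^ 2) * (s - cos (η - σ - φ)) := by
  simp only [hh, kk, osc, sin_add, sin_sub, cos_sub]
  have h1 := sin_sq_add_cos_sq σ
  have h2 := sin_sq_add_cos_sq τ
  have h3 := sin_sq_add_cos_sq φ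
  have h4 := sin_sq_add_cos_sq η
  grind

theorem id2 (σ τ φ s s' p p' η : ℝ) :
    kk σ τ φ s s' p p' η * (s - cos (η - τ - φ)) - (p' - cos (η - φ)) * hh σ τ φ s s' p p' (η - τ) =
      sin σ * (s ^ 2 + p' ^ 2 - 2 * s * p' * cos τ - sin τ ^ 2) * (p - cos (η - τ)) +
        ((s * s' + p * p') * sin (σ + τ) - (s' * p' + p * s) * (sin σ + sin τ) +
          sin σ * sin τ * (sin (σ + φ) + sin (τ - φ))) * (s - cos (η - τ - φ)) := by
  simp only [hh, kk, osc, sin_add, sin_sub, cos_sub]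
  have h1 := sin_sq_add_cos_sq σ
  have h2 := sin_sq_add_cos_sq τ
  have h3 := sin_sq_add_cos_sq φ
  have h4 := sin_sq_add_cos_sq η
  grind

noncomputable def cA (b c d e t : ℝ) : ℝ := (cos (b - d) - cos t) * (cos (c - e) - cos t)

noncomputable def cC (b c d e t : ℝ) : ℝ := (cos t - cos (b + d)) * (cos t - cos (c + e))

noncomputable def cB (b c d e σ τ φ : ℝ) : ℝ :=
  (cos b * cos e + cos c * cos d) * sin (σ + τ) - (cos b * cos c + cos d * cos e) * (sin σ + sin τ)
    + sin σ * sin τ * (sin (σ + φ) + sin (τ - φ))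

theorem res_eq (u v t : ℝ) : cos (u - v) ^ 2 + cos (u + v) ^ 2 - 2 * cos (u - v) * cos (u + v) * cos t
    - sin t ^ 2 = (cos (2 * u) - cos t) * (cos (2 * v) - cos t) := by
  simp only [cos_sub, cos_add, cos_two_mul]
  have h1 := sin_sq_add_cos_sq u
  have h2 := sin_sq_add_cos_sq v
  have h3 := sin_sq_add_cos_sq t
  grind

theorem cos_half (x y : ℝ) : cos ((x + y) / 2) * cos ((x - y) / 2) = (cos x + cos y) / 2 := by
  rw [cos_add_cos]; ring

theorem ident (σ τ φ η b c d e : ℝ) {s s' p p' : ℝ} (hs : s = cos ((b + e - c - d) / 2))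
    (hs' : s' = cos ((b + c + d + e) / 2)) (hp : p = cos ((b + d - c - e) / 2))
    (hp' : p' = cos ((b + c - d - e) / 2)) :
    sin σ * cA b c d e τ * ((p - cos (η - σ)) * (p - cos (η - τ))) +
      cB b c d e σ τ φ * ((p - cos (η - σ)) * (s - cos (η - τ - φ))) +
      sin τ * cC b c d e σ * ((s - cos (η - τ - φ)) * (s - cos (η - σ - φ))) =
    (s' - cos η) * (s - cos (η - τ - φ)) * hh σ τ φ s s' p p' (η - σ) -
      (p' - cos (η - φ)) * (p - cos (η - σ)) * hh σ τ φ s s' p p' (η - τ) := by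
  have e1 : s ^ 2 + p' ^ 2 - 2 * s * p' * cos τ - sin τ ^ 2 = cA b c d e τ := by
    have := res_eq ((b - d) / 2) ((c - e) / 2) τ
    rw [show (b - d) / 2 - (c - e) / 2 = (b + e - c - d) / 2 by ring,
      show (b - d) / 2 + (c - e) / 2 = (b + c - d - e) / 2 by ring, ← hs, ← hp',
      mul_div_cancel₀ _ two_ne_zero, mul_div_cancel₀ _ two_ne_zero] at this
    exact this
  have e2 : s' ^ 2 + p ^ 2 - 2 * s' * p * cos σ - sin σ ^ 2 = cC b c d e σ := by
    have := res_eq ((b + d) / 2) ((c + e) / 2) σ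
    rw [show (b + d) / 2 - (c + e) / 2 = (b + d - c - e) / 2 by ring,
      show (b + d) / 2 + (c + e) / 2 = (b + c + d + e) / 2 by ring, ← hs', ← hp,
      mul_div_cancel₀ _ two_ne_zero, mul_div_cancel₀ _ two_ne_zero] at this
    rw [cC]
    linear_combination this
  have e3 : s * s' + p * p' = cos b * cos e + cos c * cos d := by
    have h1 := cos_half (b + e) (c + d)
    have h2 := cos_half (b - e) (c - d)
    rw [show (b + e + (c + d)) / 2 = (b + c + d + e) / 2 by ring,
      show (b + e - (c + d)) / 2 = (b + e - c - d) / 2 by ring, ← hs, ← hs'] at h1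
    rw [show (b - e + (c - d)) / 2 = (b + c - d - e) / 2 by ring,
      show (b - e - (c - d)) / 2 = (b + d - c - e) / 2 by ring, ← hp, ← hp'] at h2
    simp only [cos_add, cos_sub] at h1 h2
    linear_combination h1 + h2
  have e4 : s' * p' + p * s = cos b * cos c + cos d * cos e := by
    have h1 := cos_half (b + c) (d + e)
    have h2 := cos_half (b - c) (d - e)
    rw [show (b + c + (d + e)) / 2 = (b + c + d + e) / 2 by ring,
      show (b + c - (d + e)) / 2 = (b + c - d - e) / 2 by ring, ← hp', ← hs'] at h1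
    rw [show (b - c + (d - e)) / 2 = (b + d - c - e) / 2 by ring,
      show (b - c - (d - e)) / 2 = (b + e - c - d) / 2 by ring, ← hp, ← hs] at h2
    simp only [cos_add, cos_sub] at h1 h2
    linear_combination h1 + h2
  have h1 := id1 σ τ φ s s' p p' η
  have h2 := id2 σ τ φ s s' p p' η
  rw [e2] at h1
  rw [e1, e3, e4] at h2
  rw [cB]
  linear_combination (-(s - cos (η - τ - φ))) * h1 - (p - cos (η - σ)) * h2

end Pool.Agent.MP_b0afd3_gt.H80
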