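import Pool.Agent.MP_b0afd3_gt.H80.Base

set_option autoImplicit false

namespace Pool.Agent.MP_b0afd3_gt.H80

open Real MeasureTheory Filter Topology intervalIntegral

theorem ae_ls : ∀ᵐ t : ℝ, log (2 * sin t) = log 2 + log (sin t) := by
  have h : ({t : ℝ | sin t = 0}).Countable := by
    refine (Set.countable_range fun n : ℤ => (n : ℝ) * π).mono fun t ht => ?_
    exact sin_eq_zero_iff.1 ht
  filter_upwards [h.ae_notMem volume] with t ht
  exact log_mul two_ne_zero ht

theorem ii_ls (a b : ℝ) : IntervalIntegrable (fun t => log (2 * sin t)) volume a b := by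
  have h : IntervalIntegrable (fun t => log 2 + log (sin t)) volume a b :=
    (intervalIntegrable_const).add intervalIntegrable_log_sin
  exact h.congr_ae (ae_restrict_of_ae (ae_ls.mono fun t ht => ht.symm))

theorem lob_sub (x y : ℝ) : lob x - lob y = ∫ t in x..y, log (2 * sin t) := by
  rw [lob, lob, ← integral_interval_sub_left (ii_ls 0 y) (ii_ls 0 x)]; ring

theorem lob_zero : lob 0 = 0 := by simp [lob]

theorem lob_pi : lob π = 0 := by
  rw [lob, integral_congr_ae (ae_ls.mono fun t ht _ => ht),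
    integral_add (g := fun t => log (sin t)) intervalIntegrable_const intervalIntegrable_log_sin,
    integral_log_sin_zero_pi]
  simp [mul_comm]

theorem lob_cont : Continuous lob := (continuous_primitive ii_ls 0).neg

theorem lob_per : Function.Periodic lob π := by
  intro x
  have h : Function.Periodic (fun t => log (2 * sin t)) π := fun t => by simp
  have h1 := h.intervalIntegral_add_eq x 0
  rw [← lob_sub, ← lob_sub, zero_add, lob_pi, lob_zero] at h1
  linarith

theorem lob_neg (x : ℝ) : lob (-x) = -lob x := by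
  have := integral_comp_neg (a := 0) (b := x) fun t => log (2 * sin t)
  simp only [sin_neg, mul_neg, log_neg_eq_log, neg_zero] at this
  rw [lob, lob, this, integral_symm]

theorem lob_int (x : ℝ) (k : ℤ) : lob (x + k * π) = lob x := lob_per.int_mul k x

theorem lob_deriv {x : ℝ} (h : sin x ≠ 0) : HasDerivAt lob (-log (2 * sin x)) x := by
  have hc : ContinuousAt (fun t => log (2 * sin t)) x :=
    ContinuousAt.log (by fun_prop) (by simpa using h)
  exact (integral_hasDerivAt_right (ii_ls 0 x)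
    (Measurable.stronglyMeasurable (by fun_prop)).stronglyMeasurableAtFilter hc).neg

theorem lob_uc : UniformContinuous lob := by
  refine Metric.uniformContinuous_iff.2 fun ε hε => ?_
  obtain ⟨δ, hδ, h⟩ := Metric.uniformContinuousOn_iff.1
    ((isCompact_Icc (a := -1) (b := π + 1)).uniformContinuousOn_of_continuous
      lob_cont.continuousOn) ε hε
  refine ⟨min δ 1, by positivity, fun {x y} hxy => ?_⟩
  have h1 := toIcoMod_mem_Ico pi_pos 0 x
  have h2 := toIcoMod_add_toIcoDiv_zsmul pi_pos 0 x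
  set k := toIcoDiv pi_pos 0 x
  set u := toIcoMod pi_pos 0 x
  have h3 := abs_lt.1 ((dist_eq x y ▸ hxy).trans_le (min_le_right _ _))
  rw [zsmul_eq_mul] at h2
  rw [← h2, lob_int, show y = y - k * π + k * π by ring, lob_int]
  refine h u ⟨by linarith [h1.1], by linarith [h1.2]⟩ _
    ⟨by linarith [h1.1], by linarith [h1.2]⟩ ?_
  rw [dist_eq, show u - (y - k * π) = x - y by linarith]
  exact (dist_eq x y ▸ hxy).trans_le (min_le_left _ _)

theorem cell_le {c s : ℝ} (hs : 0 ≤ s) (h1 : s ≤ c) (h2 : c + s ≤ π) :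
    lob (c - s) - lob (c + s) ≤ 2 * s * log (2 * sin c) := by
  have e1 : lob c - lob (c + s) = ∫ t in (0 : ℝ)..s, log (2 * sin (c + t)) := by
    rw [lob_sub, integral_comp_add_left (fun t => log (2 * sin t)), add_zero]
  have e2 : lob (c - s) - lob c = ∫ t in (0 : ℝ)..s, log (2 * sin (c - t)) := by
    rw [lob_sub, integral_comp_sub_left (fun t => log (2 * sin t)), sub_zero]
  have i1 : IntervalIntegrable (fun t => log (2 * sin (c + t))) volume 0 s := by
    simpa using (ii_ls c (c + s)).comp_add_left c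
  have i2 : IntervalIntegrable (fun t => log (2 * sin (c - t))) volume 0 s := by
    simpa using (ii_ls c (c - s)).comp_sub_left c
  have := integral_mono_on_of_le_Ioo (g := fun _ => 2 * log (2 * sin c)) hs (i1.add i2)
    intervalIntegrable_const fun t ht => by
      have p1 := sin_pos_of_pos_of_lt_pi (x := c + t) (by linarith [ht.1, ht.2]) (by linarith [ht.2])
      have p2 := sin_pos_of_pos_of_lt_pi (x := c - t) (by linarith [ht.2]) (by linarith [ht.1, ht.2])
      rw [← log_mul (by positivity) (by positivity), show (2 : ℝ) * log (2 * sin c) =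
        log ((2 * sin c) ^ 2) by simp]
      refine log_le_log (by positivity) ?_
      rw [sin_add, sin_sub]
      nlinarith [sin_sq_add_cos_sq c, sin_sq_add_cos_sq t, sq_nonneg (sin t)]
  rw [integral_add i1 i2, intervalIntegral.integral_const, smul_eq_mul] at this
  linarith

/-- the product of the first `n` numbers `2 sin (2 π k / r)` -/
noncomputable def bf (r n : ℕ) : ℝ := ∏ k ∈ Finset.range n, 2 * sin (2 * π / r * (k + 1))

theorem bf_succ (r n : ℕ) : bf r (n + 1) = bf r n * (2 * sin (2 * π / r * (n + 1))) :=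
  Finset.prod_range_succ _ _

theorem cell_odd {m j : ℕ} (hj : j < 2 * m) : 2 * sin (2 * π / (2 * m + 1 : ℕ) * (j + 1)) ≠ 0 ∧
    lob (2 * π / (2 * m + 1 : ℕ) * (j + 1 / 2)) - lob (2 * π / (2 * m + 1 : ℕ) * (j + 1 + 1 / 2)) ≤
      2 * π / (2 * m + 1 : ℕ) * log (2 * sin (2 * π / (2 * m + 1 : ℕ) * (j + 1))) := by
  set h := 2 * π / (2 * m + 1 : ℕ) with hh
  have h0 : 0 < h := by positivity
  have h1 : h * (m + 1 / 2) = π := by rw [hh]; push_cast; field_simp
  have hj0 : (0 : ℝ) ≤ j := j.cast_nonneg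
  rcases lt_or_ge j m with g | g
  · have g' : (j : ℝ) + 1 ≤ m := by exact_mod_cast g
    have := cell_le (c := h * (j + 1)) (s := h / 2) (by positivity) (by nlinarith) (by nlinarith)
    refine ⟨(mul_pos two_pos (sin_pos_of_pos_of_lt_pi (by positivity) (by nlinarith))).ne', ?_⟩
    convert this using 3 <;> ring
  · have g' : (m : ℝ) ≤ j := by exact_mod_cast g
    have g2 : (j : ℝ) + 1 ≤ 2 * m := by exact_mod_cast hj
    have := cell_le (c := h * (j + 1) - π) (s := h / 2) (by positivity) (by nlinarith) (by nlinarith)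
    have p := sin_pos_of_pos_of_lt_pi (x := h * (j + 1) - π) (by nlinarith) (by nlinarith)
    rw [sin_sub_pi] at p this
    refine ⟨(mul_neg_of_pos_of_neg two_pos (by linarith)).ne, ?_⟩
    rw [← lob_per (_ - _), ← lob_per (_ - π + _), mul_neg, log_neg_eq_log] at this
    convert this using 3 <;> ring

theorem bf_ne {m n : ℕ} (hn : n ≤ 2 * m) : bf (2 * m + 1) n ≠ 0 :=
  Finset.prod_ne_zero_iff.2 fun _ hk => (cell_odd ((Finset.mem_range.1 hk).trans_le hn)).1

theorem bf_top (m : ℕ) : |bf (2 * m + 1) (2 * m)| = (2 * m + 1 : ℕ) := by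
  have h := (Complex.isPrimitiveRoot_exp_of_coprime 2 (2 * m + 1) (by omega)
    (by simp)).prod_one_sub_pow_eq_order
  have h1 := congrArg norm h
  rw [norm_prod] at h1
  rw [bf, Finset.abs_prod]
  refine (Finset.prod_congr rfl fun k _ => ?_).trans (h1.trans (by norm_cast))
  rw [norm_sub_rev, ← Complex.exp_nat_mul, ← Real.norm_eq_abs,
    show 2 * π / (2 * m + 1 : ℕ) * (k + 1) = (4 * π / (2 * m + 1 : ℕ) * (k + 1)) / 2 by ring,
    ← Complex.norm_exp_I_mul_ofReal_sub_one]
  congr 3
  push_cast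
  ring

theorem bf_exc (m : ℕ) : ∀ n ≤ 2 * m, ∀ k ≤ n,
    2 * π / (2 * m + 1 : ℕ) * log (bf (2 * m + 1) k) + lob (2 * π / (2 * m + 1 : ℕ) * (k + 1 / 2)) ≤
    2 * π / (2 * m + 1 : ℕ) * log (bf (2 * m + 1) n) + lob (2 * π / (2 * m + 1 : ℕ) * (n + 1 / 2)) := by
  intro n hn k hk
  induction n, hk using Nat.le_induction with
  | base => rfl
  | succ n hk ih =>
    refine (ih (by omega)).trans ?_
    have := cell_odd (m := m) (j := n) hn
    rw [bf_succ, log_mul (bf_ne (by omega)) this.1, Nat.cast_succ n]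
    linarith [this.2]

theorem h_tendsto : Tendsto (fun m : ℕ => 2 * π / (2 * m + 1 : ℕ)) atTop (𝓝 0) :=
  (tendsto_const_div_atTop_nhds_zero_nat (2 * π)).comp
    (tendsto_atTop_mono (fun m => by simp only [id]; omega) tendsto_id)

theorem hlog_tendsto :
    Tendsto (fun m : ℕ => 2 * π / (2 * m + 1 : ℕ) * log (2 * m + 1 : ℕ)) atTop (𝓝 0) := by
  have h := (tendsto_pow_log_div_mul_add_atTop 1 0 1 one_ne_zero).const_mul (2 * π)
  rw [mul_zero] at h
  have h2 : Tendsto (fun m : ℕ => ((2 * m + 1 : ℕ) : ℝ)) atTop atTop :=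
    tendsto_natCast_atTop_atTop.comp
      (tendsto_atTop_mono (fun m => by simp only [id]; omega) tendsto_id)
  refine (h.comp h2).congr fun m => ?_
  simp only [Function.comp]
  ring

theorem bf_asym {ε : ℝ} (hε : 0 < ε) : ∀ᶠ m : ℕ in atTop, ∀ n ≤ 2 * m,
    |2 * π / (2 * m + 1 : ℕ) * log (bf (2 * m + 1) n) +
      lob (2 * π / (2 * m + 1 : ℕ) * (n + 1 / 2))| < ε := by
  have h1 : Tendsto (fun m : ℕ => lob (2 * π / (2 * m + 1 : ℕ) * (1 / 2))) atTop (𝓝 0) := by
    have := (lob_cont.tendsto _).comp (h_tendsto.mul_const (1 / 2))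
    rwa [zero_mul, lob_zero] at this
  filter_upwards [h1.eventually (Ioo_mem_nhds (neg_lt_zero.2 (half_pos hε)) (half_pos hε)),
    hlog_tendsto.eventually (Iio_mem_nhds (half_pos hε))] with m g1 g2 n hn
  have k1 := bf_exc m n hn 0 n.zero_le
  have k2 := bf_exc m (2 * m) le_rfl n hn
  have e : 2 * π / (2 * m + 1 : ℕ) * ((2 * m : ℕ) + 1 / 2) =
      -(2 * π / (2 * m + 1 : ℕ) * (1 / 2)) + (2 : ℤ) * π := by push_cast; field_simp; ring
  rw [e, lob_int, lob_neg, ← log_abs (bf _ (2 * m)), bf_top] at k2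
  simp only [bf, Finset.range_zero, Finset.prod_empty, log_one, mul_zero, Nat.cast_zero,
    zero_add] at k1
  rw [abs_lt]
  simp only [bf] at *
  constructor <;> linarith [g1.1, g1.2]

end Pool.Agent.MP_b0afd3_gt.H80
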