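import Pool.Agent.MP_b0afd3_gt.H80.Ident

set_option autoImplicit false

namespace Pool.Agent.MP_b0afd3_gt.H80

open Real

/-- strict spherical triangle inequalities -/
def Tri (x y z : ℝ) : Prop := x < y + z ∧ y < x + z ∧ z < x + y ∧ x + y + z < 2 * π

/-- all four vertices are of compact type -/
structure Reg (a b c d e f : ℝ) : Prop where
  t1 : Tri f b c
  t2 : Tri f d e
  t3 : Tri a b d
  t4 : Tri a c e

noncomputable def dl (x y z : ℝ) : ℝ :=
  lob ((x + y - z) / 2) + lob ((x + z - y) / 2) + lob ((y + z - x) / 2) - lob ((x + y + z) / 2)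

/-- the growth rate of one term of the normalised symbol -/
noncomputable def U (a b c d e f ξ : ℝ) : ℝ :=
  lob (ξ - (f + b + c) / 2) + lob (ξ - (f + d + e) / 2) + lob (ξ - (a + b + d) / 2) +
    lob (ξ - (a + c + e) / 2) + lob ((a + f + b + e) / 2 - ξ) + lob ((a + f + c + d) / 2 - ξ) +
    lob ((b + c + d + e) / 2 - ξ) - lob ξ - (dl f b c + dl f d e + dl a b d + dl a c e) / 2

noncomputable def sX (a b c d e f ξ : ℝ) : ℝ :=
  sin (ξ - (f + b + c) / 2) * sin (ξ - (f + d + e) / 2) * sin (ξ - (a + b + d) / 2) *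
    sin (ξ - (a + c + e) / 2)

noncomputable def sY (a b c d e f ξ : ℝ) : ℝ :=
  -(sin ((a + f + b + e) / 2 - ξ) * sin ((a + f + c + d) / 2 - ξ) * sin ((b + c + d + e) / 2 - ξ) *
    sin ξ)

/-- `log (2 sin x)` -/
noncomputable def ls (x : ℝ) : ℝ := log (2 * sin x)

noncomputable def dd (x y z : ℝ) : ℝ :=
  (ls ((y + z - x) / 2) + ls ((x + y + z) / 2) - ls ((x + y - z) / 2) - ls ((x + z - y) / 2)) / 2

/-- the partial derivative of `U` in `a` -/
noncomputable def pa (a b c d e f ξ : ℝ) : ℝ :=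
  (ls (ξ - (a + b + d) / 2) + ls (ξ - (a + c + e) / 2) - ls ((a + f + b + e) / 2 - ξ)
    - ls ((a + f + c + d) / 2 - ξ) - dd a b d - dd a c e) / 2

/-- the hyperbolic cosine of the length of the edge `a` -/
noncomputable def be (a b c d e f : ℝ) : ℝ :=
  cof (cos a) (cos b) (cos c) (cos d) (cos e) (cos f) /
    √(vtx (cos a) (cos b) (cos d) * vtx (cos a) (cos c) (cos e))

noncomputable def gd (a b c d e f : ℝ) : ℝ := gdet (cos a) (cos b) (cos c) (cos d) (cos e) (cos f)

namespace Tri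

variable {x y z : ℝ} (h : Tri x y z)
include h

theorem s0 : 0 < sin ((x + y + z) / 2) :=
  sin_pos_of_pos_of_lt_pi (by linarith [h.1, h.2.1, h.2.2.1]) (by linarith [h.2.2.2])
theorem s1 : 0 < sin ((y + z - x) / 2) :=
  sin_pos_of_pos_of_lt_pi (by linarith [h.1]) (by linarith [h.2.1, h.2.2.1, h.2.2.2])
theorem s2 : 0 < sin ((x + z - y) / 2) :=
  sin_pos_of_pos_of_lt_pi (by linarith [h.2.1]) (by linarith [h.1, h.2.2.1, h.2.2.2])
theorem s3 : 0 < sin ((x + y - z) / 2) :=
  sin_pos_of_pos_of_lt_pi (by linarith [h.2.2.1]) (by linarith [h.1, h.2.1, h.2.2.2])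
theorem sx : 0 < sin x :=
  sin_pos_of_pos_of_lt_pi (by linarith [h.2.1, h.2.2.1]) (by linarith [h.1, h.2.2.2])
theorem rot : Tri y z x := ⟨by linarith [h.2.1], by linarith [h.2.2.1], h.1, by linarith [h.2.2.2]⟩
theorem swap : Tri x z y :=
  ⟨by linarith [h.1], h.2.2.1, h.2.1, by linarith [h.2.2.2]⟩

end Tri

theorem cos_sub_a (x y z : ℝ) :
    cos (y - z) - cos x = 2 * sin ((x + y - z) / 2) * sin ((x + z - y) / 2) := by
  rw [cos_sub_cos, show (y - z - x) / 2 = -((x + z - y) / 2) by ring, sin_neg]; ring_nf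

theorem cos_sub_c (x y z : ℝ) :
    cos x - cos (y + z) = 2 * sin ((x + y + z) / 2) * sin ((y + z - x) / 2) := by
  rw [cos_sub_cos, show (x - (y + z)) / 2 = -((y + z - x) / 2) by ring, sin_neg]; ring_nf

theorem vtx_eq (x y z : ℝ) :
    vtx (cos x) (cos y) (cos z) = (cos (y - z) - cos x) * (cos x - cos (y + z)) := by
  simp only [vtx, cos_sub, cos_add]
  have h1 := sin_sq_add_cos_sq y
  have h2 := sin_sq_add_cos_sq z
  grind

theorem Tri.vtx_pos {x y z : ℝ} (h : Tri x y z) : 0 < vtx (cos x) (cos y) (cos z) := by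
  have := h.s0; have := h.s1; have := h.s2; have := h.s3
  rw [vtx_eq, cos_sub_a, cos_sub_c]; positivity

theorem tri_of_vtx {x y z : ℝ} (hx : x ∈ Set.Ioo 0 π) (hy : y ∈ Set.Ioo 0 π) (hz : z ∈ Set.Ioo 0 π)
    (h : 0 < vtx (cos x) (cos y) (cos z)) : Tri x y z := by
  obtain ⟨x0, x1⟩ := hx
  obtain ⟨y0, y1⟩ := hy
  obtain ⟨z0, z1⟩ := hz
  rw [vtx_eq, cos_sub_a, cos_sub_c] at h
  have P : ∀ t, 0 ≤ t → t ≤ π → 0 ≤ sin t := fun t => sin_nonneg_of_nonneg_of_le_pi
  have N : ∀ t, t ≤ 0 → -π ≤ t → sin t ≤ 0 := fun t => sin_nonpos_of_nonpos_of_neg_pi_le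
  refine ⟨?_, ?_, ?_, ?_⟩ <;> by_contra! g
  · have := mul_nonneg (mul_nonneg (P ((x + y - z) / 2) (by linarith) (by linarith))
      (P ((x + z - y) / 2) (by linarith) (by linarith))) (P ((x + y + z) / 2) (by linarith) (by linarith))
    nlinarith [N ((y + z - x) / 2) (by linarith) (by linarith)]
  · have := mul_nonneg (mul_nonneg (P ((x + y - z) / 2) (by linarith) (by linarith))
      (P ((y + z - x) / 2) (by linarith) (by linarith))) (P ((x + y + z) / 2) (by linarith) (by linarith))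
    nlinarith [N ((x + z - y) / 2) (by linarith) (by linarith)]
  · have := mul_nonneg (mul_nonneg (P ((x + z - y) / 2) (by linarith) (by linarith))
      (P ((y + z - x) / 2) (by linarith) (by linarith))) (P ((x + y + z) / 2) (by linarith) (by linarith))
    nlinarith [N ((x + y - z) / 2) (by linarith) (by linarith)]
  · have := mul_nonneg (mul_nonneg (P ((x + z - y) / 2) (by linarith) (by linarith))
      (P ((y + z - x) / 2) (by linarith) (by linarith))) (P ((x + y - z) / 2) (by linarith) (by linarith))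
    have h1 := P ((x + y + z) / 2 - π) (by linarith) (by linarith)
    rw [sin_sub_pi] at h1
    nlinarith

theorem cof_sq (a b c d e f : ℝ) :
    cof a b c d e f ^ 2 - vtx a b d * vtx a c e = -gdet a b c d e f * (1 - a ^ 2) := by
  simp only [cof, vtx, gdet]; ring

variable {a b c d e f ξ : ℝ}

theorem neg_one_four (k : ℤ) : ((-1 : ℝ) ^ k) ^ 4 = 1 := by
  rcases Int.even_or_odd k with h | h
  · simp [h.neg_one_zpow]
  · rw [h.neg_one_zpow]; norm_num

theorem sX_per (ξ : ℝ) (k : ℤ) : sX a b c d e f (ξ + k * π) = sX a b c d e f ξ := by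
  simp only [sX, add_sub_right_comm, sin_add_int_mul_pi]
  linear_combination (sin (ξ - (f + b + c) / 2) * sin (ξ - (f + d + e) / 2) *
    sin (ξ - (a + b + d) / 2) * sin (ξ - (a + c + e) / 2)) * neg_one_four k

theorem sY_per (ξ : ℝ) (k : ℤ) : sY a b c d e f (ξ + k * π) = sY a b c d e f ξ := by
  simp only [sY, ← sub_sub, sin_add_int_mul_pi, sin_sub_int_mul_pi]
  linear_combination (-(sin ((a + f + b + e) / 2 - ξ) * sin ((a + f + c + d) / 2 - ξ) *
    sin ((b + c + d + e) / 2 - ξ) * sin ξ)) * neg_one_four k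

theorem U_per (ξ : ℝ) (k : ℤ) : U a b c d e f (ξ + k * π) = U a b c d e f ξ := by
  have h : ∀ x, lob (x - (ξ + k * π)) = lob (x - ξ) := fun x => by
    rw [← lob_int _ k]; congr 1; ring
  simp only [U, h, add_sub_right_comm ξ, lob_int]

/-- at a zero of one of the eight sines the equation has a sign -/
theorem Reg.neg (h : Reg a b c d e f) (h0 : sX a b c d e f ξ * sY a b c d e f ξ = 0) :
    sY a b c d e f ξ < sX a b c d e f ξ := by
  have key : ∀ t, sin (ξ - t) = 0 → sY a b c d e f t < sX a b c d e f t →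
      sY a b c d e f ξ < sX a b c d e f ξ := fun t h1 h2 => by
    obtain ⟨k, hk⟩ := sin_eq_zero_iff.1 h1
    rwa [show ξ = t + k * π by linarith, sX_per, sY_per]
  have key' : ∀ t, sin (t - ξ) = 0 → sin (ξ - t) = 0 := fun t h1 => by
    rw [← neg_sub, sin_neg, h1, neg_zero]
  obtain ⟨t1, t2, t3, t4⟩ := h
  simp only [sX, sY, mul_eq_zero, neg_eq_zero] at h0
  rcases h0 with (((g | g) | g) | g) | (((g | g) | g) | g)
  · refine key _ g ?_
    have := mul_pos (mul_pos (mul_pos t4.s2 t3.s2) t2.s1) t1.s0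
    simp only [sX, sY, sub_self, sin_zero, zero_mul, neg_lt_zero]
    refine this.trans_eq ?_
    ring_nf
  · refine key _ g ?_
    have := mul_pos (mul_pos (mul_pos t3.s3 t4.s3) t1.s1) t2.s0
    simp only [sX, sY, sub_self, sin_zero, zero_mul, mul_zero, neg_lt_zero]
    refine this.trans_eq ?_
    ring_nf
  · refine key _ g ?_
    have := mul_pos (mul_pos (mul_pos t2.s2 t1.s2) t4.s1) t3.s0
    simp only [sX, sY, sub_self, sin_zero, zero_mul, mul_zero, neg_lt_zero]
    refine this.trans_eq ?_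
    ring_nf
  · refine key _ g ?_
    have := mul_pos (mul_pos (mul_pos t1.s3 t2.s3) t3.s1) t4.s0
    simp only [sX, sY, sub_self, sin_zero, mul_zero, neg_lt_zero]
    refine this.trans_eq ?_
    ring_nf
  · refine key _ (key' _ g) ?_
    have := mul_pos (mul_pos (mul_pos t4.s2 t3.s3) t2.s2) t1.s3
    simp only [sX, sY, sub_self, sin_zero, zero_mul, neg_zero]
    refine this.trans_eq ?_
    ring_nf
  · refine key _ (key' _ g) ?_
    have := mul_pos (mul_pos (mul_pos t3.s2 t4.s3) t1.s2) t2.s3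
    simp only [sX, sY, sub_self, sin_zero, zero_mul, mul_zero, neg_zero]
    refine this.trans_eq ?_
    ring_nf
  · refine key _ (key' _ g) ?_
    have := mul_pos (mul_pos (mul_pos t2.s1 t1.s1) t4.s1) t3.s1
    simp only [sX, sY, sub_self, sin_zero, zero_mul, mul_zero, neg_zero]
    refine this.trans_eq ?_
    ring_nf
  · refine key 0 (by simpa using g) ?_
    have := mul_pos (mul_pos (mul_pos t1.s0 t2.s0) t3.s0) t4.s0
    simp only [sX, sY, sin_zero, mul_zero, neg_zero, zero_sub, sin_neg]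
    linarith

/-- the eight sines do not vanish -/
def Nz (a b c d e f ξ : ℝ) : Prop :=
  (((sin (ξ - (f + b + c) / 2) ≠ 0 ∧ sin (ξ - (f + d + e) / 2) ≠ 0) ∧
    sin (ξ - (a + b + d) / 2) ≠ 0) ∧ sin (ξ - (a + c + e) / 2) ≠ 0) ∧
  (((sin ((a + f + b + e) / 2 - ξ) ≠ 0 ∧ sin ((a + f + c + d) / 2 - ξ) ≠ 0) ∧
    sin ((b + c + d + e) / 2 - ξ) ≠ 0) ∧ sin ξ ≠ 0)

theorem Reg.nz (h : Reg a b c d e f) (h0 : sX a b c d e f ξ ≤ sY a b c d e f ξ) :
    Nz a b c d e f ξ := by
  have : sX a b c d e f ξ * sY a b c d e f ξ ≠ 0 := fun g => (h.neg g).not_ge h0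
  simpa only [Nz, sX, sY, ne_eq, mul_eq_zero, neg_eq_zero, not_or] using this

theorem ls_mul {x y : ℝ} (hx : sin x ≠ 0) (hy : sin y ≠ 0) :
    ls x + ls y = log (4 * (sin x * sin y)) := by
  rw [ls, ls, ← log_mul (by simpa using hx) (by simpa using hy)]; congr 1; ring

theorem lob_comp {g : ℝ → ℝ} {g' t : ℝ} (hg : HasDerivAt g g' t) (h : sin (g t) ≠ 0) :
    HasDerivAt (fun s => lob (g s)) (-ls (g t) * g') t := (lob_deriv h).comp t hg

theorem dl_deriv {x y z : ℝ → ℝ} {x' y' z' t : ℝ} (hx : HasDerivAt x x' t) (hy : HasDerivAt y y' t)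
    (hz : HasDerivAt z z' t) (h : Tri (x t) (y t) (z t)) :
    HasDerivAt (fun s => dl (x s) (y s) (z s))
      (dd (x t) (y t) (z t) * x' + dd (y t) (x t) (z t) * y' + dd (z t) (x t) (y t) * z') t := by
  have := (((lob_comp (((hx.add hy).sub hz).div_const 2) h.s3.ne').add
    (lob_comp (((hx.add hz).sub hy).div_const 2) h.s2.ne')).add
    (lob_comp (((hy.add hz).sub hx).div_const 2) h.s1.ne')).sub
    (lob_comp (((hx.add hy).add hz).div_const 2) h.s0.ne')
  refine this.congr_deriv ?_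
  simp only [dd, Pi.add_apply, Pi.sub_apply]
  ring_nf

theorem U_deriv {a b c d e f ξ : ℝ → ℝ} {a' b' c' d' e' f' ξ' t : ℝ} (ha : HasDerivAt a a' t)
    (hb : HasDerivAt b b' t) (hc : HasDerivAt c c' t) (hd : HasDerivAt d d' t)
    (he : HasDerivAt e e' t) (hf : HasDerivAt f f' t) (hξ : HasDerivAt ξ ξ' t)
    (h : Reg (a t) (b t) (c t) (d t) (e t) (f t))
    (hz : Nz (a t) (b t) (c t) (d t) (e t) (f t) (ξ t)) :
    HasDerivAt (fun s => U (a s) (b s) (c s) (d s) (e s) (f s) (ξ s))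
      (pa (a t) (b t) (c t) (d t) (e t) (f t) (ξ t) * a' +
        pa (b t) (f t) (d t) (c t) (a t) (e t) (ξ t) * b' +
        pa (c t) (f t) (e t) (b t) (a t) (d t) (ξ t) * c' +
        pa (d t) (f t) (b t) (e t) (a t) (c t) (ξ t) * d' +
        pa (e t) (f t) (c t) (d t) (a t) (b t) (ξ t) * e' +
        pa (f t) (b t) (d t) (c t) (e t) (a t) (ξ t) * f' +
        log (sY (a t) (b t) (c t) (d t) (e t) (f t) (ξ t) /
          sX (a t) (b t) (c t) (d t) (e t) (f t) (ξ t)) * ξ') t := by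
  obtain ⟨⟨⟨⟨x1, x2⟩, x3⟩, x4⟩, ⟨⟨y1, y2⟩, y3⟩, y4⟩ := hz
  have := ((((((((lob_comp (hξ.sub (((hf.add hb).add hc).div_const 2)) x1).add
    (lob_comp (hξ.sub (((hf.add hd).add he).div_const 2)) x2)).add
    (lob_comp (hξ.sub (((ha.add hb).add hd).div_const 2)) x3)).add
    (lob_comp (hξ.sub (((ha.add hc).add he).div_const 2)) x4)).add
    (lob_comp (((((ha.add hf).add hb).add he).div_const 2).sub hξ) y1)).add
    (lob_comp (((((ha.add hf).add hc).add hd).div_const 2).sub hξ) y2)).add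
    (lob_comp (((((hb.add hc).add hd).add he).div_const 2).sub hξ) y3)).sub
    (lob_comp hξ y4)).sub (((((dl_deriv hf hb hc h.t1).add (dl_deriv hf hd he h.t2)).add
    (dl_deriv ha hb hd h.t3)).add (dl_deriv ha hc he h.t4)).div_const 2)
  refine this.congr_deriv ?_
  have e : log (sY (a t) (b t) (c t) (d t) (e t) (f t) (ξ t) /
      sX (a t) (b t) (c t) (d t) (e t) (f t) (ξ t)) =
      ls ((a t + f t + b t + e t) / 2 - ξ t) + ls ((a t + f t + c t + d t) / 2 - ξ t) +
      ls ((b t + c t + d t + e t) / 2 - ξ t) + ls (ξ t) - ls (ξ t - (f t + b t + c t) / 2) -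
      ls (ξ t - (f t + d t + e t) / 2) - ls (ξ t - (a t + b t + d t) / 2) -
      ls (ξ t - (a t + c t + e t) / 2) := by
    simp only [sX, sY, ls, neg_div, log_neg_eq_log]
    rw [log_div (by positivity) (by positivity)]
    repeat rw [log_mul (by positivity) (by positivity)]
    ring
  rw [e]
  simp only [pa, dd, Pi.add_apply, Pi.sub_apply]
  ring_nf

theorem char (h : Reg a b c d e f) (h0 : sY a b c d e f ξ = sX a b c d e f ξ) :
    cA b c d e a * (sin (ξ - (a + b + d) / 2) * sin (ξ - (a + c + e) / 2)) ^ 2 -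
      2 * cof (cos a) (cos b) (cos c) (cos d) (cos e) (cos f) *
        (sin (ξ - (a + b + d) / 2) * sin (ξ - (a + c + e) / 2)) *
        (sin ((a + f + b + e) / 2 - ξ) * sin ((a + f + c + d) / 2 - ξ)) +
      cC b c d e a * (sin ((a + f + b + e) / 2 - ξ) * sin ((a + f + c + d) / 2 - ξ)) ^ 2 = 0 := by
  have id := ident a a f (2 * ξ - (b + c + d + e) / 2) b c d e rfl rfl rfl rfl
  have m : ∀ x y, cos (x - y) - cos (x + y) = 2 * (sin x * sin y) := fun x y => by
    rw [cos_sub, cos_add]; ring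
  have x0 : cos ((b + d - c - e) / 2) - cos (2 * ξ - (b + c + d + e) / 2 - a) =
      2 * (sin (ξ - (a + c + e) / 2) * sin (ξ - (a + b + d) / 2)) := by
    rw [← m]; congr 2 <;> ring
  have x1 : cos ((b + c - d - e) / 2) - cos (2 * ξ - (b + c + d + e) / 2 - f) =
      2 * (sin (ξ - (f + d + e) / 2) * sin (ξ - (f + b + c) / 2)) := by
    rw [← m]; congr 2 <;> ring
  have y0 : cos ((b + e - c - d) / 2) - cos (2 * ξ - (b + c + d + e) / 2 - a - f) =
      2 * (sin ((a + f + b + e) / 2 - ξ) * sin ((a + f + c + d) / 2 - ξ)) := by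
    rw [← m, ← cos_neg (_ - f)]; congr 2 <;> ring
  have y1 : cos ((b + c + d + e) / 2) - cos (2 * ξ - (b + c + d + e) / 2) =
      -(2 * (sin ξ * sin ((b + c + d + e) / 2 - ξ))) := by
    rw [← m, neg_sub]; congr 2 <;> ring
  have e1 : cB b c d e a a f =
      -(2 * sin a * cof (cos a) (cos b) (cos c) (cos d) (cos e) (cos f)) := by
    simp only [cB, cof, sin_add, sin_sub]
    have := sin_sq_add_cos_sq a
    grind
  rw [x0, x1, y0, y1, e1] at id
  simp only [sX, sY] at h0
  refine mul_left_cancel₀ (mul_pos four_pos h.t3.sx).ne' ?_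
  linear_combination id + 4 * hh a a f (cos ((b + e - c - d) / 2)) (cos ((b + c + d + e) / 2))
    (cos ((b + d - c - e) / 2)) (cos ((b + c - d - e) / 2)) (2 * ξ - (b + c + d + e) / 2 - a) * h0

theorem Reg.cA_pos (h : Reg a b c d e f) : 0 < cA b c d e a := by
  have := h.t3.s2; have := h.t3.s3; have := h.t4.s2; have := h.t4.s3
  rw [cA, cos_sub_a, cos_sub_a]; positivity

theorem Reg.cC_pos (h : Reg a b c d e f) : 0 < cC b c d e a := by
  have := h.t3.s0; have := h.t3.s1; have := h.t4.s0; have := h.t4.s1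
  rw [cC, cos_sub_c, cos_sub_c]; positivity

theorem cA_cC (a b c d e : ℝ) : cA b c d e a * cC b c d e a =
    vtx (cos a) (cos b) (cos d) * vtx (cos a) (cos c) (cos e) := by
  rw [vtx_eq, vtx_eq, cA, cC]; ring

theorem char_sign (h : Reg a b c d e f) (h0 : sY a b c d e f ξ = sX a b c d e f ξ) :
    0 < cof (cos a) (cos b) (cos c) (cos d) (cos e) (cos f) *
      (sin (ξ - (a + b + d) / 2) * sin (ξ - (a + c + e) / 2)) *
      (sin ((a + f + b + e) / 2 - ξ) * sin ((a + f + c + d) / 2 - ξ)) := by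
  obtain ⟨⟨⟨⟨x1, x2⟩, x3⟩, x4⟩, ⟨⟨y1, y2⟩, y3⟩, y4⟩ := h.nz h0.ge
  have h1 := char h h0
  have := mul_pos h.cA_pos (sq_pos_of_ne_zero (mul_ne_zero x3 x4))
  have := mul_pos h.cC_pos (sq_pos_of_ne_zero (mul_ne_zero y1 y2))
  linarith

theorem pa_eq (h : Reg a b c d e f) (h0 : sY a b c d e f ξ = sX a b c d e f ξ) :
    exp (2 * pa a b c d e f ξ) + exp (-(2 * pa a b c d e f ξ)) = 2 * |be a b c d e f| := by
  obtain ⟨⟨⟨⟨x1, x2⟩, x3⟩, x4⟩, ⟨⟨y1, y2⟩, y3⟩, y4⟩ := h.nz h0.ge
  have h1 := char h h0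
  have h2 := char_sign h h0
  have hA := h.cA_pos
  have hC := h.cC_pos
  have e1 : 2 * dd a b d + 2 * dd a c e = log (cC b c d e a) - log (cA b c d e a) := by
    have := h.t3.s0; have := h.t3.s1; have := h.t4.s0; have := h.t4.s1
    have := h.t3.s2; have := h.t3.s3; have := h.t4.s2; have := h.t4.s3
    simp only [dd, ls, cA, cC, cos_sub_a, cos_sub_c]
    repeat rw [log_mul (by positivity) (by positivity)]
    ring
  set X := sin (ξ - (a + b + d) / 2) * sin (ξ - (a + c + e) / 2) with hX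
  set Y := sin ((a + f + b + e) / 2 - ξ) * sin ((a + f + c + d) / 2 - ξ) with hY
  have hX0 : X ≠ 0 := mul_ne_zero x3 x4
  have hY0 : Y ≠ 0 := mul_ne_zero y1 y2
  have e2 : 2 * pa a b c d e f ξ = log (|X / Y| * (√(cA b c d e a) / √(cC b c d e a))) := by
    rw [log_mul (by positivity) (by positivity), log_abs, log_div hX0 hY0,
      log_div (by positivity) (by positivity), log_sqrt hA.le, log_sqrt hC.le, pa]
    have e3 := ls_mul x3 x4
    have e4 := ls_mul y1 y2
    rw [log_mul four_ne_zero hX0] at e3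
    rw [log_mul four_ne_zero hY0] at e4
    linarith
  rw [exp_neg, e2, exp_log (by positivity), be, ← cA_cC, sqrt_mul hA.le,
    abs_div _ (√_ * √_), abs_of_pos (a := √_ * √_) (by positivity)]
  set k := cof (cos a) (cos b) (cos c) (cos d) (cos e) (cos f)
  have e5 : |k| * |X| * |Y| = k * X * Y := by rw [← abs_mul, ← abs_mul, abs_of_pos h2]
  rw [← sq_abs X, ← sq_abs Y, ← sq_sqrt hA.le, ← sq_sqrt hC.le] at h1
  rw [abs_div]
  field_simp
  linear_combination h1 - 2 * e5

noncomputable def e0 (a b c d e f : ℝ) : ℝ :=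
  cos ((b + e - c - d) / 2) * cos ((b + c + d + e) / 2) -
    cos ((b + d - c - e) / 2) * cos ((b + c - d - e) / 2) - sin a * sin f

noncomputable def e1 (a b c d e f : ℝ) : ℝ :=
  cos ((b + e - c - d) / 2) + cos ((b + c + d + e) / 2) * cos (a + f) -
    cos ((b + d - c - e) / 2) * cos f - cos ((b + c - d - e) / 2) * cos a

noncomputable def e2 (a b c d e f : ℝ) : ℝ :=
  cos ((b + c + d + e) / 2) * sin (a + f) -
    cos ((b + d - c - e) / 2) * sin f - cos ((b + c - d - e) / 2) * sin a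

theorem normal (a b c d e f ξ : ℝ) : 4 * (sY a b c d e f ξ - sX a b c d e f ξ) =
    e0 a b c d e f - e1 a b c d e f * cos (2 * ξ - (b + c + d + e) / 2) -
      e2 a b c d e f * sin (2 * ξ - (b + c + d + e) / 2) := by
  have m : ∀ x y, cos (x - y) - cos (x + y) = 2 * (sin x * sin y) := fun x y => by
    rw [cos_sub, cos_add]; ring
  have x0 : cos ((b + d - c - e) / 2) - cos (2 * ξ - (b + c + d + e) / 2 - a) =
      2 * (sin (ξ - (a + c + e) / 2) * sin (ξ - (a + b + d) / 2)) := by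
    rw [← m]; congr 2 <;> ring
  have x1 : cos ((b + c - d - e) / 2) - cos (2 * ξ - (b + c + d + e) / 2 - f) =
      2 * (sin (ξ - (f + d + e) / 2) * sin (ξ - (f + b + c) / 2)) := by
    rw [← m]; congr 2 <;> ring
  have y0 : cos ((b + e - c - d) / 2) - cos (2 * ξ - (b + c + d + e) / 2 - a - f) =
      2 * (sin ((a + f + b + e) / 2 - ξ) * sin ((a + f + c + d) / 2 - ξ)) := by
    rw [← m, ← cos_neg (_ - f)]; congr 2 <;> ring
  have y1 : cos ((b + c + d + e) / 2) - cos (2 * ξ - (b + c + d + e) / 2) =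
      -(2 * (sin ξ * sin ((b + c + d + e) / 2 - ξ))) := by
    rw [← m, neg_sub]; congr 2 <;> ring
  have : 4 * (sY a b c d e f ξ - sX a b c d e f ξ) =
      (cos ((b + c + d + e) / 2) - cos (2 * ξ - (b + c + d + e) / 2)) *
        (cos ((b + e - c - d) / 2) - cos (2 * ξ - (b + c + d + e) / 2 - a - f)) -
      (cos ((b + c - d - e) / 2) - cos (2 * ξ - (b + c + d + e) / 2 - f)) *
        (cos ((b + d - c - e) / 2) - cos (2 * ξ - (b + c + d + e) / 2 - a)) := by
    rw [x0, x1, y0, y1, sX, sY]; ring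
  rw [this, e0, e1, e2]
  generalize 2 * ξ - (b + c + d + e) / 2 = η
  simp only [cos_sub η, cos_sub (η - a), sin_sub η, cos_add a, sin_add a]
  have := sin_sq_add_cos_sq η
  grind

theorem disc (a b c d e f : ℝ) :
    e1 a b c d e f ^ 2 + e2 a b c d e f ^ 2 - e0 a b c d e f ^ 2 = -gd a b c d e f := by
  obtain ⟨u, v, rfl, rfl⟩ : ∃ u v, b = u + v ∧ d = u - v := ⟨(b + d) / 2, (b - d) / 2, by ring, by ring⟩
  obtain ⟨x, y, rfl, rfl⟩ : ∃ x y, c = x + y ∧ e = x - y := ⟨(c + e) / 2, (c - e) / 2, by ring, by ring⟩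
  rw [e0, e1, e2, gd, gdet, show (u + v + (x - y) - (x + y) - (u - v)) / 2 = v - y by ring,
    show (u + v + (x + y) + (u - v) + (x - y)) / 2 = u + x by ring,
    show (u + v + (u - v) - (x + y) - (x - y)) / 2 = u - x by ring,
    show (u + v + (x + y) - (u - v) - (x - y)) / 2 = v + y by ring]
  simp only [cos_add, cos_sub, sin_add]
  have := sin_sq_add_cos_sq u
  have := sin_sq_add_cos_sq v
  have := sin_sq_add_cos_sq x
  have := sin_sq_add_cos_sq y
  have := sin_sq_add_cos_sq a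
  have := sin_sq_add_cos_sq f
  grind

end Pool.Agent.MP_b0afd3_gt.H80
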