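import Pool.Agent.MP_b0afd3_gt.H80.Ident

set_option autoImplicit false

namespace Pool.Agent.MP_b0afd3_gt.H80

open Real

/-- the step `2 π / r` for `r = 2 m + 1` -/
noncomputable def hb (m : ℕ) : ℝ := 2 * π / (2 * m + 1 : ℕ)

noncomputable def w (m : ℕ) (n : ℤ) : ℝ := 2 * sin (hb m * n)

noncomputable def fa (m : ℕ) (n : ℤ) : ℝ := bf (2 * m + 1) n.toNat

noncomputable def ig (m : ℕ) (n : ℤ) : ℝ := if 0 ≤ n then (fa m n)⁻¹ else 0

theorem hb_pos (m : ℕ) : 0 < hb m := by rw [hb]; positivity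

theorem hb_mul (m : ℕ) : hb m * (2 * m + 1) = 2 * π := by rw [hb]; push_cast; field_simp

theorem fa_step {m : ℕ} {n : ℤ} (h : 1 ≤ n) : fa m n = fa m (n - 1) * w m n := by
  obtain ⟨k, rfl⟩ : ∃ k : ℕ, n = k + 1 := ⟨(n - 1).toNat, by omega⟩
  simp [fa, w, hb, bf_succ]

theorem fa_ne {m : ℕ} {n : ℤ} (h : n ≤ 2 * m) : fa m n ≠ 0 := bf_ne (by omega)

theorem ig_neg {m : ℕ} {n : ℤ} (h : n < 0) : ig m n = 0 := if_neg (by omega)

theorem ig_step {m : ℕ} {n : ℤ} (k : ℤ) (hk : k = n + 1) (h : k ≤ 2 * m) :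
    ig m n = ig m k * w m k := by
  obtain rfl : n = k - 1 := by omega
  rcases lt_trichotomy k 0 with g | rfl | g
  · simp [ig_neg g, ig_neg (show k - 1 < 0 by omega)]
  · simp [ig_neg, w]
  · have h1 := fa_ne h
    rw [fa_step (by omega)] at h1
    rw [ig, ig, if_pos (by omega), if_pos g.le, fa_step (n := k) (by omega)]
    field_simp [left_ne_zero_of_mul h1, right_ne_zero_of_mul h1]

theorem w_mul (m : ℕ) (x y : ℤ) :
    w m x * w m y = 2 * (cos (hb m * (x - y)) - cos (hb m * (x + y))) := by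
  simp only [w, mul_sub, mul_add, cos_sub, cos_add]
  ring

/-- colours with the half sums -/
structure Col where
  (a b c d e f T1 T2 T3 T4 Q1 Q2 Q3 : ℤ)
  t1 : 2 * T1 = f + b + c
  t2 : 2 * T2 = f + d + e
  t3 : 2 * T3 = a + b + d
  t4 : 2 * T4 = a + c + e
  q1 : 2 * Q1 = a + f + b + e
  q2 : 2 * Q2 = a + f + c + d
  q3 : 2 * Q3 = b + c + d + e

namespace Col

variable (C : Col) (m : ℕ)

def sh (n : ℤ) : Col :=
  ⟨C.a + 2 * n, C.b, C.c, C.d, C.e, C.f, C.T1, C.T2, C.T3 + n, C.T4 + n, C.Q1 + n, C.Q2 + n, C.Q3,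
    C.t1, C.t2, by linarith [C.t3], by linarith [C.t4], by linarith [C.q1], by linarith [C.q2], C.q3⟩

theorem sh_sh (n k : ℤ) : (C.sh n).sh k = C.sh (n + k) := by
  simp only [sh, mk.injEq, true_and, and_true]
  refine ⟨?_, ?_, ?_, ?_, ?_⟩ <;> ring

noncomputable def term (z : ℤ) : ℝ :=
  ig m (z - C.T1) * ig m (z - C.T2) * ig m (z - C.T3) * ig m (z - C.T4) * ig m (C.Q1 - z) *
    ig m (C.Q2 - z) * ig m (C.Q3 - z) * ig m (2 * m - 1 - z)

noncomputable def S : ℝ := ∑ z ∈ Finset.range (2 * m + 1), C.term m z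

/-- the angle attached to a colour -/
noncomputable def an (x : ℤ) : ℝ := hb m * (x + 1)

theorem real : (C.T1 : ℝ) = (C.f + C.b + C.c) / 2 ∧ (C.T2 : ℝ) = (C.f + C.d + C.e) / 2 ∧
    (C.T3 : ℝ) = (C.a + C.b + C.d) / 2 ∧ (C.T4 : ℝ) = (C.a + C.c + C.e) / 2 ∧
    (C.Q1 : ℝ) = (C.a + C.f + C.b + C.e) / 2 ∧ (C.Q2 : ℝ) = (C.a + C.f + C.c + C.d) / 2 ∧
    (C.Q3 : ℝ) = (C.b + C.c + C.d + C.e) / 2 := by
  have h1 := congrArg (Int.cast : ℤ → ℝ) C.t1
  have h2 := congrArg (Int.cast : ℤ → ℝ) C.t2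
  have h3 := congrArg (Int.cast : ℤ → ℝ) C.t3
  have h4 := congrArg (Int.cast : ℤ → ℝ) C.t4
  have h5 := congrArg (Int.cast : ℤ → ℝ) C.q1
  have h6 := congrArg (Int.cast : ℤ → ℝ) C.q2
  have h7 := congrArg (Int.cast : ℤ → ℝ) C.q3
  push_cast at *
  refine ⟨?_, ?_, ?_, ?_, ?_, ?_, ?_⟩ <;> linarith

noncomputable def H (z : ℤ) : ℝ :=
  hh (hb m * C.a) (hb m * (C.a + 2)) (hb m * (C.f + 2))
    (cos ((an m C.b + an m C.e - an m C.c - an m C.d) / 2))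
    (cos ((an m C.b + an m C.c + an m C.d + an m C.e) / 2))
    (cos ((an m C.b + an m C.d - an m C.c - an m C.e) / 2))
    (cos ((an m C.b + an m C.c - an m C.d - an m C.e) / 2)) (hb m * (2 * z - C.Q3 - C.a))

noncomputable def G (z : ℤ) : ℝ :=
  ig m (z - C.T1 - 1) * ig m (z - C.T2 - 1) * ig m (z - C.T3) * ig m (z - C.T4) *
    ig m (C.Q1 + 1 - z) * ig m (C.Q2 + 1 - z) * ig m (C.Q3 - z) * ig m (2 * m - 1 - z) * C.H m z

theorem term_rec (h1 : 0 ≤ C.T1) (h2 : 0 ≤ C.T2) (h3 : 1 ≤ C.T3) (h4 : 1 ≤ C.T4)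
    (h5 : C.Q1 < 2 * m) (h6 : C.Q2 < 2 * m) (h7 : C.Q3 ≤ 2 * m) {z : ℤ} (z0 : 0 ≤ z)
    (z1 : z ≤ 2 * m) :
    sin (hb m * C.a) * cA (an m C.b) (an m C.c) (an m C.d) (an m C.e) (hb m * (C.a + 2)) *
        (C.sh 1).term m z +
      cB (an m C.b) (an m C.c) (an m C.d) (an m C.e) (hb m * C.a) (hb m * (C.a + 2))
        (hb m * (C.f + 2)) * C.term m z +
      sin (hb m * (C.a + 2)) * cC (an m C.b) (an m C.c) (an m C.d) (an m C.e) (hb m * C.a) *
        (C.sh (-1)).term m z = C.G m (z + 1) - C.G m z := by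
  obtain ⟨r1, r2, r3, r4, r5, r6, r7⟩ := C.real
  have id := ident (hb m * C.a) (hb m * (C.a + 2)) (hb m * (C.f + 2)) (hb m * (2 * z + 2 - C.Q3))
    (an m C.b) (an m C.c) (an m C.d) (an m C.e) rfl rfl rfl rfl
  set s := cos ((an m C.b + an m C.e - an m C.c - an m C.d) / 2) with hs
  set s' := cos ((an m C.b + an m C.c + an m C.d + an m C.e) / 2) with hs'
  set p := cos ((an m C.b + an m C.d - an m C.c - an m C.e) / 2) with hp
  set p' := cos ((an m C.b + an m C.c - an m C.d - an m C.e) / 2) with hp'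
  have x0 : w m (z - C.T4 + 1) * w m (z - C.T3 + 1) =
      2 * (p - cos (hb m * (2 * z + 2 - C.Q3) - hb m * C.a)) := by
    rw [w_mul, hp]; push_cast; simp only [an, r3, r4, r7]; congr 3 <;> ring
  have x1 : w m (z - C.T4) * w m (z - C.T3) =
      2 * (p - cos (hb m * (2 * z + 2 - C.Q3) - hb m * (C.a + 2))) := by
    rw [w_mul, hp]; push_cast; simp only [an, r3, r4, r7]; congr 3 <;> ring
  have y0 : w m (C.Q1 + 1 - z) * w m (C.Q2 + 1 - z) =
      2 * (s - cos (hb m * (2 * z + 2 - C.Q3) - hb m * (C.a + 2) - hb m * (C.f + 2))) := by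
    rw [w_mul, hs, ← cos_neg (_ - hb m * (C.f + 2))]; push_cast; simp only [an, r5, r6, r7]
    congr 3 <;> ring
  have y1 : w m (C.Q1 - z) * w m (C.Q2 - z) =
      2 * (s - cos (hb m * (2 * z + 2 - C.Q3) - hb m * C.a - hb m * (C.f + 2))) := by
    rw [w_mul, hs, ← cos_neg (_ - hb m * (C.f + 2))]; push_cast; simp only [an, r5, r6, r7]
    congr 3 <;> ring
  have x2 : w m (z - C.T2) * w m (z - C.T1) =
      2 * (p' - cos (hb m * (2 * z + 2 - C.Q3) - hb m * (C.f + 2))) := by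
    rw [w_mul, hp']; push_cast; simp only [an, r1, r2, r7]; congr 3 <;> ring
  have y2 : w m (C.Q3 - z) * w m (2 * m - 1 - z) = 2 * (s' - cos (hb m * (2 * z + 2 - C.Q3))) := by
    rw [w_mul, hs', ← cos_add_two_pi (hb m * (_ - _)), ← cos_two_pi_sub (hb m * (_ + _)), ← hb_mul m]
    push_cast; simp only [an, r7]; congr 3 <;> ring
  have e1 : C.H m (z + 1) = hh (hb m * C.a) (hb m * (C.a + 2)) (hb m * (C.f + 2)) s s' p p'
      (hb m * (2 * z + 2 - C.Q3) - hb m * C.a) := by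
    rw [H]; push_cast; congr 1; ring
  have e2 : C.H m z = hh (hb m * C.a) (hb m * (C.a + 2)) (hb m * (C.f + 2)) s s' p p'
      (hb m * (2 * z + 2 - C.Q3) - hb m * (C.a + 2)) := by
    rw [H]; congr 1; ring
  simp only [term, G, sh]
  rw [e1, e2, ig_step (n := z - (C.T3 + 1)) (z - C.T3) (by ring) (by omega),
    ig_step (n := z - (C.T4 + 1)) (z - C.T4) (by ring) (by omega),
    ig_step (n := C.Q1 + -1 - z) (C.Q1 - z) (by ring) (by omega),
    ig_step (n := C.Q2 + -1 - z) (C.Q2 - z) (by ring) (by omega),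
    ig_step (n := z - C.T3) (z - C.T3 + 1) rfl (by omega),
    ig_step (n := z - C.T4) (z - C.T4 + 1) rfl (by omega),
    ig_step (n := z - C.T1 - 1) (z - C.T1) (by ring) (by omega),
    ig_step (n := z - C.T2 - 1) (z - C.T2) (by ring) (by omega),
    ig_step (n := C.Q3 - (z + 1)) (C.Q3 - z) (by ring) (by omega),
    ig_step (n := 2 * m - 1 - (z + 1)) (2 * m - 1 - z) (by ring) (by omega),
    show C.Q1 + 1 - (z + 1) = C.Q1 - z by ring, show C.Q2 + 1 - (z + 1) = C.Q2 - z by ring,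
    ig_step (n := C.Q1 - z) (C.Q1 + 1 - z) (by ring) (by omega),
    ig_step (n := C.Q2 - z) (C.Q2 + 1 - z) (by ring) (by omega),
    show z + 1 - C.T1 - 1 = z - C.T1 by ring, show z + 1 - C.T2 - 1 = z - C.T2 by ring,
    show z + 1 - C.T3 = z - C.T3 + 1 by ring, show z + 1 - C.T4 = z - C.T4 + 1 by ring,
    show z - (C.T3 + -1) = z - C.T3 + 1 by ring, show z - (C.T4 + -1) = z - C.T4 + 1 by ring]
  set τ := ig m (z - C.T1) * ig m (z - C.T2) * ig m (z - C.T3 + 1) * ig m (z - C.T4 + 1) *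
    ig m (C.Q1 + 1 - z) * ig m (C.Q2 + 1 - z) * ig m (C.Q3 - z) * ig m (2 * m - 1 - z) with hτ
  have key := congrArg (4 * τ * ·) id
  generalize hh _ _ _ s s' p p' (_ - hb m * C.a) = k1 at *
  generalize hh _ _ _ s s' p p' (_ - hb m * (C.a + 2)) = k2 at *
  generalize sin (hb m * C.a) * cA _ _ _ _ _ = A at *
  generalize sin (hb m * (C.a + 2)) * cC _ _ _ _ _ = D at *
  generalize cB _ _ _ _ _ _ _ = B at *
  transitivity τ * (A * ((w m (z - C.T4 + 1) * w m (z - C.T3 + 1)) * (w m (z - C.T4) * w m (z - C.T3)))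
    + B * ((w m (z - C.T4 + 1) * w m (z - C.T3 + 1)) * (w m (C.Q1 + 1 - z) * w m (C.Q2 + 1 - z)))
    + D * ((w m (C.Q1 + 1 - z) * w m (C.Q2 + 1 - z)) * (w m (C.Q1 - z) * w m (C.Q2 - z))))
  · rw [hτ]; ring
  transitivity τ * ((w m (C.Q3 - z) * w m (2 * m - 1 - z)) *
    (w m (C.Q1 + 1 - z) * w m (C.Q2 + 1 - z)) * k1 - (w m (z - C.T2) * w m (z - C.T1)) *
      (w m (z - C.T4 + 1) * w m (z - C.T3 + 1)) * k2)
  · rw [x0, x1, y0, y1, x2, y2]; linear_combination key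
  · rw [hτ]; ring

theorem S_rec (h1 : 0 ≤ C.T1) (h2 : 0 ≤ C.T2) (h3 : 1 ≤ C.T3) (h4 : 1 ≤ C.T4)
    (h5 : C.Q1 < 2 * m) (h6 : C.Q2 < 2 * m) (h7 : C.Q3 ≤ 2 * m) :
    sin (hb m * C.a) * cA (an m C.b) (an m C.c) (an m C.d) (an m C.e) (hb m * (C.a + 2)) *
        (C.sh 1).S m +
      cB (an m C.b) (an m C.c) (an m C.d) (an m C.e) (hb m * C.a) (hb m * (C.a + 2))
        (hb m * (C.f + 2)) * C.S m +
      sin (hb m * (C.a + 2)) * cC (an m C.b) (an m C.c) (an m C.d) (an m C.e) (hb m * C.a) *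
        (C.sh (-1)).S m = 0 := by
  simp only [S, Finset.mul_sum, ← Finset.sum_add_distrib]
  rw [Finset.sum_congr rfl fun z hz => C.term_rec m h1 h2 h3 h4 h5 h6 h7 (z := (z : ℕ))
    (by omega) (by have := Finset.mem_range.1 hz; omega)]
  have := Finset.sum_range_sub (fun z : ℕ => C.G m z) (2 * m + 1)
  push_cast at this
  rw [this, G, G, ig_neg (n := 2 * m - 1 - (2 * m + 1)) (by omega),
    ig_neg (n := 0 - C.T1 - 1) (by omega)]
  simp

noncomputable def P : ℝ :=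
  fa m (C.Q1 - C.T1) * fa m (C.Q1 - C.T2) * fa m (C.Q2 - C.T1) * fa m (C.Q2 - C.T2) *
    (fa m (C.Q3 - C.T3) * fa m (C.Q3 - C.T4) * fa m (2 * m - 1 - C.T3) * fa m (2 * m - 1 - C.T4)) *
    (fa m (C.Q1 - C.T3) * fa m (C.Q1 - C.T4) * fa m (C.Q2 - C.T3) * fa m (C.Q2 - C.T4) *
    (fa m (C.Q3 - C.T1) * fa m (C.Q3 - C.T2) * fa m (2 * m - 1 - C.T1) * fa m (2 * m - 1 - C.T2)))

/-- the normalised symbol -/
noncomputable def u : ℝ := √|C.P m| * C.S m

/-- the range conditions for one step -/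
structure Ok : Prop where
  h11 : C.T1 ≤ C.Q1
  h12 : C.T1 ≤ C.Q2
  h21 : C.T2 ≤ C.Q1
  h22 : C.T2 ≤ C.Q2
  h33 : C.T3 < C.Q3
  h43 : C.T4 < C.Q3
  h30 : C.T3 < 2 * m - 1
  h40 : C.T4 < 2 * m - 1

theorem P_step (h : C.Ok m) :
    (C.sh 1).P m * cC (an m C.b) (an m C.c) (an m C.d) (an m C.e) (hb m * (C.a + 2)) =
      C.P m * cA (an m C.b) (an m C.c) (an m C.d) (an m C.e) (hb m * (C.a + 2)) := by
  obtain ⟨r1, r2, r3, r4, r5, r6, r7⟩ := C.real
  obtain ⟨h1, h2, h3, h4, h5, h6, h7, h8⟩ := h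
  have x0 : w m (C.Q1 + 1 - C.T2) * w m (C.Q2 + 1 - C.T1) =
      2 * (cos (an m C.b - an m C.d) - cos (hb m * (C.a + 2))) := by
    rw [w_mul]; push_cast; simp only [an, r1, r2, r5, r6]; congr 3 <;> ring
  have x1 : w m (C.Q2 + 1 - C.T2) * w m (C.Q1 + 1 - C.T1) =
      2 * (cos (an m C.c - an m C.e) - cos (hb m * (C.a + 2))) := by
    rw [w_mul]; push_cast; simp only [an, r1, r2, r5, r6]; congr 3 <;> ring
  have y0 : w m (C.Q3 - C.T4) * w m (2 * m - 1 - C.T3) =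
      2 * (cos (an m C.b + an m C.d) - cos (hb m * (C.a + 2))) := by
    rw [w_mul, ← cos_add_two_pi (hb m * (_ - _)), ← cos_two_pi_sub (hb m * (_ + _)), ← hb_mul m]
    push_cast; simp only [an, r3, r4, r7]; congr 3 <;> ring
  have y1 : w m (C.Q3 - C.T3) * w m (2 * m - 1 - C.T4) =
      2 * (cos (an m C.c + an m C.e) - cos (hb m * (C.a + 2))) := by
    rw [w_mul, ← cos_add_two_pi (hb m * (_ - _)), ← cos_two_pi_sub (hb m * (_ + _)), ← hb_mul m]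
    push_cast; simp only [an, r3, r4, r7]; congr 3 <;> ring
  simp only [P, sh]
  rw [fa_step (n := C.Q1 + 1 - C.T1) (by omega), fa_step (n := C.Q1 + 1 - C.T2) (by omega),
    fa_step (n := C.Q2 + 1 - C.T1) (by omega), fa_step (n := C.Q2 + 1 - C.T2) (by omega),
    fa_step (n := C.Q3 - C.T3) (by omega), fa_step (n := C.Q3 - C.T4) (by omega),
    fa_step (n := 2 * m - 1 - C.T3) (by omega), fa_step (n := 2 * m - 1 - C.T4) (by omega)]
  simp only [← sub_sub, add_sub_right_comm _ (1 : ℤ)]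
  simp only [add_sub_right_comm _ (1 : ℤ)] at x0 x1
  have e1 : 4 * cA (an m C.b) (an m C.c) (an m C.d) (an m C.e) (hb m * (C.a + 2)) =
      w m (C.Q1 - C.T2 + 1) * w m (C.Q2 - C.T1 + 1) *
        (w m (C.Q2 - C.T2 + 1) * w m (C.Q1 - C.T1 + 1)) := by rw [x0, x1, cA]; ring
  have e2 : 4 * cC (an m C.b) (an m C.c) (an m C.d) (an m C.e) (hb m * (C.a + 2)) =
      w m (C.Q3 - C.T4) * w m (2 * m - 1 - C.T3) *
        (w m (C.Q3 - C.T3) * w m (2 * m - 1 - C.T4)) := by rw [y0, y1, cC]; ring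
  rw [← mul_right_inj' (four_ne_zero (α := ℝ)), mul_left_comm, e2, mul_left_comm 4, e1]
  ring_nf

theorem sqrt_step {x y p q : ℝ} (h : x * p = y * q) (hp : 0 ≤ p) (hq : 0 ≤ q) :
    √|x| * √p = √|y| * √q := by
  rw [← sqrt_mul (abs_nonneg _), ← sqrt_mul (abs_nonneg _), ← abs_of_nonneg hp, ← abs_mul, h,
    abs_mul, abs_of_nonneg hq]

theorem u_rec (h : C.Ok m) (h' : (C.sh (-1)).Ok m) (h1 : 0 ≤ C.T1) (h2 : 0 ≤ C.T2) (h3 : 1 ≤ C.T3)
    (h4 : 1 ≤ C.T4) (h5 : C.Q1 < 2 * m) (h6 : C.Q2 < 2 * m) (h7 : C.Q3 ≤ 2 * m)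
    {A D A' D' : ℝ} (hA : A = cA (an m C.b) (an m C.c) (an m C.d) (an m C.e) (hb m * (C.a + 2)))
    (hD : D = cC (an m C.b) (an m C.c) (an m C.d) (an m C.e) (hb m * (C.a + 2)))
    (hA' : A' = cA (an m C.b) (an m C.c) (an m C.d) (an m C.e) (hb m * C.a))
    (hD' : D' = cC (an m C.b) (an m C.c) (an m C.d) (an m C.e) (hb m * C.a))
    (p1 : 0 ≤ A) (p2 : 0 ≤ D) (p3 : 0 ≤ A') (p4 : 0 ≤ D') :
    sin (hb m * C.a) * √(A * D) * (C.sh 1).u m +
      cB (an m C.b) (an m C.c) (an m C.d) (an m C.e) (hb m * C.a) (hb m * (C.a + 2))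
        (hb m * (C.f + 2)) * C.u m +
      sin (hb m * (C.a + 2)) * √(A' * D') * (C.sh (-1)).u m = 0 := by
  have k1 := C.P_step m h
  have k2 := (C.sh (-1)).P_step m h'
  have k3 := C.S_rec m h1 h2 h3 h4 h5 h6 h7
  have e : (C.sh (-1)).sh 1 = C := by rw [sh_sh]; simp [sh]
  have e' : (((C.sh (-1)).a : ℝ) + 2) = C.a := by simp [sh]
  rw [e, e'] at k2
  rw [← hA, ← hD] at k1
  rw [← hA, ← hD'] at k3
  have k4 := sqrt_step k1 p2 p1
  have k5 := sqrt_step (hA' ▸ hD' ▸ k2 : C.P m * D' = (C.sh (-1)).P m * A') p4 p3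
  simp only [u, sqrt_mul p1, sqrt_mul p3]
  have k6 := mul_self_sqrt p1
  have k7 := mul_self_sqrt p4
  linear_combination √|C.P m| * k3 + sin (hb m * C.a) * √A * (C.sh 1).S m * k4
    + sin (hb m * C.a) * √|C.P m| * (C.sh 1).S m * k6
    - sin (hb m * (C.a + 2)) * √D' * (C.sh (-1)).S m * k5
    + sin (hb m * (C.a + 2)) * √|C.P m| * (C.sh (-1)).S m * k7

end Col

end Pool.Agent.MP_b0afd3_gt.H80
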