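import Pool.Agent.MP_b0afd3_gt.H80.Pot

set_option autoImplicit false

namespace Pool.Agent.MP_b0afd3_gt.H80

open Real Filter Topology

theorem arg_lift {w : ℝ → ℂ} {t : ℝ} (hw : DifferentiableAt ℝ w t) (h0 : w t ≠ 0) :
    ∃ φ : ℝ → ℝ, DifferentiableAt ℝ φ t ∧ φ t = (w t).arg ∧
      ∀ᶠ s in 𝓝 t, ∃ k : ℤ, (w s).arg = φ s + k * (2 * π) := by
  have h1 : DifferentiableAt ℝ (fun s => Complex.log (w s / w t)) t :=
    ((hw.div_const _).hasDerivAt.clog_real (by simp [h0])).differentiableAt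
  refine ⟨fun s => (w s / w t).arg + (w t).arg, ?_, by simp [h0], ?_⟩
  · simp only [← Complex.log_im]
    exact (Complex.imCLM.differentiableAt.comp t h1).add_const _
  · filter_upwards [hw.continuousAt.eventually_ne h0] with s hs
    have h2 := Complex.arg_mul_coe_angle (div_ne_zero hs h0) h0
    rw [div_mul_cancel₀ _ h0, ← Real.Angle.coe_add, Real.Angle.angle_eq_iff_two_pi_dvd_sub] at h2
    obtain ⟨k, hk⟩ := h2
    exact ⟨k, by linarith⟩

noncomputable def E1 (a b c d e f : ℝ) : ℂ := -(e1 a b c d e f + e2 a b c d e f * Complex.I)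

noncomputable def om (a b c d e f : ℝ) : ℝ := arccos (-e0 a b c d e f / ‖E1 a b c d e f‖)

/-- the two critical points, `s = 1` and `s = -1` -/
noncomputable def rt (s a b c d e f : ℝ) : ℝ :=
  ((E1 a b c d e f).arg + s * om a b c d e f + (b + c + d + e) / 2) / 2

variable {a b c d e f ξ : ℝ}

theorem E1_sq (a b c d e f : ℝ) :
    ‖E1 a b c d e f‖ ^ 2 = e0 a b c d e f ^ 2 - gd a b c d e f := by
  rw [E1, norm_neg, Complex.sq_norm, Complex.normSq_add_mul_I]
  linarith [disc a b c d e f]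

theorem Reg.neg0 (h : Reg a b c d e f) : sY a b c d e f 0 < sX a b c d e f 0 :=
  h.neg (by simp [sY])

theorem Reg.E1_ne (h : Reg a b c d e f) (hg : gd a b c d e f ≤ 0) : E1 a b c d e f ≠ 0 := by
  intro g
  have h1 := E1_sq a b c d e f
  have h2 := normal a b c d e f 0
  have h3 := congrArg Complex.re g
  have h4 := congrArg Complex.im g
  simp [E1] at h3 h4
  rw [g, norm_zero] at h1
  rw [h3, h4] at h2
  nlinarith [h.neg0]

theorem Reg.form (h : Reg a b c d e f) (hg : gd a b c d e f ≤ 0) (ξ : ℝ) :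
    4 * (sY a b c d e f ξ - sX a b c d e f ξ) = ‖E1 a b c d e f‖ *
      (cos (2 * ξ - (b + c + d + e) / 2 - (E1 a b c d e f).arg) - cos (om a b c d e f)) := by
  have h0 := h.E1_ne hg
  have h1 := norm_pos_iff.2 h0
  have h2 := abs_le.1 (abs_le_of_sq_le_sq (a := e0 a b c d e f)
    (by linarith [E1_sq a b c d e f]) h1.le)
  rw [normal, om, cos_arccos (by rw [le_div_iff₀ h1]; linarith) (by rw [div_le_iff₀ h1]; linarith),
    cos_sub _ (Complex.arg _), Complex.cos_arg h0, Complex.sin_arg]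
  field_simp
  simp [E1]
  ring

theorem Reg.om_lt (h : Reg a b c d e f) (hg : gd a b c d e f ≤ 0) : om a b c d e f < π := by
  refine (arccos_le_pi _).lt_of_ne fun g => ?_
  have h1 := h.form hg 0
  have h2 := neg_one_le_cos (2 * 0 - (b + c + d + e) / 2 - (E1 a b c d e f).arg)
  rw [show om a b c d e f = π from g, cos_pi] at h1
  nlinarith [h.neg0, norm_nonneg (E1 a b c d e f)]

theorem Reg.abs_lt (h : Reg a b c d e f) (hg : gd a b c d e f < 0) :
    -1 < -e0 a b c d e f / ‖E1 a b c d e f‖ ∧ -e0 a b c d e f / ‖E1 a b c d e f‖ < 1 := by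
  have h1 := norm_pos_iff.2 (h.E1_ne hg.le)
  have h2 := _root_.abs_lt.1 (abs_lt_of_sq_lt_sq (a := e0 a b c d e f)
    (by linarith [E1_sq a b c d e f]) h1.le)
  exact ⟨by rw [lt_div_iff₀ h1]; linarith, by rw [div_lt_iff₀ h1]; linarith⟩

theorem Reg.om_pos (h : Reg a b c d e f) (hg : gd a b c d e f < 0) : 0 < om a b c d e f :=
  arccos_pos.2 (h.abs_lt hg).2

theorem Reg.om_zero (h : Reg a b c d e f) (hg : gd a b c d e f = 0) : om a b c d e f = 0 := by
  have h1 := norm_pos_iff.2 (h.E1_ne hg.le)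
  have h2 := E1_sq a b c d e f
  rw [hg, sub_zero, sq_eq_sq_iff_eq_or_eq_neg] at h2
  rcases h2 with g | g
  · have := h.om_lt hg.le
    rw [om, ← g, neg_div, div_self h1.ne', arccos_neg_one] at this
    exact absurd this (lt_irrefl _)
  · rw [om, ← g, div_self h1.ne', arccos_one]

theorem Reg.rt_root (h : Reg a b c d e f) (hg : gd a b c d e f ≤ 0) {s : ℝ} (hs : s = 1 ∨ s = -1) :
    sY a b c d e f (rt s a b c d e f) = sX a b c d e f (rt s a b c d e f) := by
  have := h.form hg (rt s a b c d e f)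
  rw [show 2 * rt s a b c d e f - (b + c + d + e) / 2 - (E1 a b c d e f).arg = s * om a b c d e f by
    rw [rt]; ring] at this
  rcases hs with rfl | rfl <;> simp only [one_mul, neg_mul, cos_neg, sub_self, mul_zero] at this <;>
    linarith

theorem Reg.arc (h : Reg a b c d e f) (hg : gd a b c d e f ≤ 0)
    (h0 : sX a b c d e f ξ ≤ sY a b c d e f ξ) :
    ∃ k : ℤ, rt (-1) a b c d e f + k * π ≤ ξ ∧ ξ ≤ rt 1 a b c d e f + k * π := by
  have h1 := h.form hg ξ
  have h2 := norm_pos_iff.2 (h.E1_ne hg)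
  set x := 2 * ξ - (b + c + d + e) / 2 - (E1 a b c d e f).arg with hx
  have h3 : cos (om a b c d e f) ≤ cos x := by nlinarith
  have h4 := toIocMod_mem_Ioc two_pi_pos (-π) x
  have h5 := toIocMod_add_toIocDiv_zsmul two_pi_pos (-π) x
  set k := toIocDiv two_pi_pos (-π) x
  set y := toIocMod two_pi_pos (-π) x
  rw [zsmul_eq_mul] at h5
  rw [← h5, cos_add_int_mul_two_pi, ← cos_abs y] at h3
  have h6 : |y| ≤ om a b c d e f := by
    by_contra! g
    exact (cos_lt_cos_of_nonneg_of_le_pi (arccos_nonneg _)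
      (abs_le.2 ⟨h4.1.le, by linarith [h4.2]⟩) g).not_ge h3
  refine ⟨k, ?_, ?_⟩ <;> rw [rt] <;> linarith [abs_le.1 h6]

theorem Reg.in_arc (h : Reg a b c d e f) (hg : gd a b c d e f ≤ 0) (h1 : rt (-1) a b c d e f ≤ ξ)
    (h2 : ξ ≤ rt 1 a b c d e f) : sX a b c d e f ξ ≤ sY a b c d e f ξ ∧
      (rt (-1) a b c d e f < ξ → ξ < rt 1 a b c d e f → sX a b c d e f ξ < sY a b c d e f ξ) := by
  have h3 := h.form hg ξ
  have h4 := norm_pos_iff.2 (h.E1_ne hg)
  rw [← cos_abs (_ - _)] at h3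
  simp only [rt] at *
  constructor
  · have := cos_le_cos_of_nonneg_of_le_pi (abs_nonneg (2 * ξ - (b + c + d + e) / 2 -
      (E1 a b c d e f).arg)) (h.om_lt hg).le (abs_le.2 ⟨by linarith, by linarith⟩)
    nlinarith
  · intro g1 g2
    have := cos_lt_cos_of_nonneg_of_le_pi (abs_nonneg (2 * ξ - (b + c + d + e) / 2 -
      (E1 a b c d e f).arg)) (h.om_lt hg).le (_root_.abs_lt.2 ⟨by linarith, by linarith⟩)
    nlinarith

theorem sign_const {g : ℝ → ℝ} {x y : ℝ} (hg : ContinuousOn g (Set.uIcc x y))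
    (h : ∀ t ∈ Set.uIcc x y, g t ≠ 0) (hx : 0 < g x) : 0 < g y := by
  by_contra! hy
  obtain ⟨t, ht, h1⟩ := intermediate_value_uIcc hg (a := x) (b := y)
    (show (0 : ℝ) ∈ Set.uIcc (g x) (g y) from Set.mem_uIcc.2 (Or.inr ⟨hy, hx.le⟩))
  exact h t ht h1

theorem U_xi (h : Reg a b c d e f) (hz : Nz a b c d e f ξ) :
    HasDerivAt (U a b c d e f) (log (sY a b c d e f ξ / sX a b c d e f ξ)) ξ := by
  simpa using U_deriv (hasDerivAt_const ξ a) (hasDerivAt_const ξ b) (hasDerivAt_const ξ c)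
    (hasDerivAt_const ξ d) (hasDerivAt_const ξ e) (hasDerivAt_const ξ f) (hasDerivAt_id' ξ) h hz

theorem Reg.mono (h : Reg a b c d e f) (hg : gd a b c d e f < 0) (h1 : rt (-1) a b c d e f ≤ ξ)
    (h2 : ξ ≤ rt 1 a b c d e f) :
    (0 < sX a b c d e f ξ →
      U a b c d e f (rt (-1) a b c d e f) < U a b c d e f (rt 1 a b c d e f)) ∧
    (sY a b c d e f ξ < 0 →
      U a b c d e f (rt 1 a b c d e f) < U a b c d e f (rt (-1) a b c d e f)) := by
  have hlt : rt (-1) a b c d e f < rt 1 a b c d e f := by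
    simp only [rt]; linarith [h.om_pos hg]
  have hz : ∀ t ∈ Set.Icc (rt (-1) a b c d e f) (rt 1 a b c d e f), Nz a b c d e f t :=
    fun t ht => h.nz (h.in_arc hg.le ht.1 ht.2).1
  obtain ⟨t, ht, h3⟩ := exists_hasDerivAt_eq_slope (U a b c d e f) _ hlt
    (fun t ht => (U_xi h (hz t ht)).continuousAt.continuousWithinAt)
    fun t ht => U_xi h (hz t (Set.Ioo_subset_Icc_self ht))
  have h4 := (h.in_arc hg.le ht.1.le ht.2.le).2 ht.1 ht.2
  have h5 := Set.uIcc_subset_Icc (⟨h1, h2⟩ : ξ ∈ Set.Icc _ _) (Set.Ioo_subset_Icc_self ht)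
  rw [eq_div_iff (sub_pos.2 hlt).ne'] at h3
  constructor
  · intro g
    have h6 := sign_const (g := sX a b c d e f) (y := t) (by unfold sX; fun_prop)
      (fun s hs => by
        obtain ⟨⟨⟨⟨x1, x2⟩, x3⟩, x4⟩, -⟩ := hz s (h5 hs)
        rw [sX]; positivity) g
    have := mul_pos (log_pos ((one_lt_div h6).2 h4)) (sub_pos.2 hlt)
    linarith
  · intro g
    have h6 := sign_const (g := fun s => -sY a b c d e f s) (x := ξ) (y := t)
      (by unfold sY; fun_prop) (fun s hs => by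
        obtain ⟨-, ⟨⟨x1, x2⟩, x3⟩, x4⟩ := hz s (h5 hs)
        simp only [sY, neg_neg]; positivity) (neg_pos.2 g)
    have h7 : sX a b c d e f t < 0 := by linarith
    have := mul_neg_of_neg_of_pos (log_neg (div_pos_of_neg_of_neg (by linarith) h7)
      ((div_lt_one_of_neg h7).2 h4)) (sub_pos.2 hlt)
    linarith

section path

variable {a b c d e f : ℝ → ℝ} {a' b' c' d' e' f' t : ℝ} (ha : HasDerivAt a a' t)
  (hb : HasDerivAt b b' t) (hc : HasDerivAt c c' t) (hd : HasDerivAt d d' t)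
  (he : HasDerivAt e e' t) (hf : HasDerivAt f f' t)
  (h : Reg (a t) (b t) (c t) (d t) (e t) (f t))
include ha hb hc hd he hf

theorem e_diff : DifferentiableAt ℝ (fun s => e0 (a s) (b s) (c s) (d s) (e s) (f s)) t ∧
    DifferentiableAt ℝ (fun s => E1 (a s) (b s) (c s) (d s) (e s) (f s)) t := by
  have h1 := ha.differentiableAt
  have h2 := hb.differentiableAt
  have h3 := hc.differentiableAt
  have h4 := hd.differentiableAt
  have h5 := he.differentiableAt
  have h6 := hf.differentiableAt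
  refine ⟨by unfold e0; fun_prop, ?_⟩
  have k1 : DifferentiableAt ℝ (fun s => e1 (a s) (b s) (c s) (d s) (e s) (f s)) t := by
    unfold e1; fun_prop
  have k2 : DifferentiableAt ℝ (fun s => e2 (a s) (b s) (c s) (d s) (e s) (f s)) t := by
    unfold e2; fun_prop
  exact (k1.hasDerivAt.ofReal_comp.add (k2.hasDerivAt.ofReal_comp.mul_const _)).neg.differentiableAt

include h

theorem rt_lift (hg : gd (a t) (b t) (c t) (d t) (e t) (f t) ≤ 0) (σ : ℝ) :
    ∃ φ : ℝ → ℝ, DifferentiableAt ℝ φ t ∧ φ t = (E1 (a t) (b t) (c t) (d t) (e t) (f t)).arg ∧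
      (fun s => U (a s) (b s) (c s) (d s) (e s) (f s) (rt σ (a s) (b s) (c s) (d s) (e s) (f s)))
        =ᶠ[𝓝 t] fun s => U (a s) (b s) (c s) (d s) (e s) (f s)
          ((φ s + σ * om (a s) (b s) (c s) (d s) (e s) (f s) + (b s + c s + d s + e s) / 2) / 2) := by
  obtain ⟨φ, h1, h2, h3⟩ := arg_lift (e_diff ha hb hc hd he hf).2 (h.E1_ne hg)
  refine ⟨φ, h1, h2, h3.mono fun s ⟨k, hk⟩ => ?_⟩
  simp only [rt, hk]
  rw [← U_per _ (-k)]
  congr 1
  push_cast
  ring

theorem V_cont (hg : gd (a t) (b t) (c t) (d t) (e t) (f t) ≤ 0) (σ : ℝ) :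
    ContinuousAt (fun s => U (a s) (b s) (c s) (d s) (e s) (f s)
      (rt σ (a s) (b s) (c s) (d s) (e s) (f s))) t := by
  obtain ⟨φ, h1, -, h3⟩ := rt_lift ha hb hc hd he hf h hg σ
  refine ContinuousAt.congr ?_ h3.symm
  have k := e_diff ha hb hc hd he hf
  have k0 : ContinuousAt (fun s => om (a s) (b s) (c s) (d s) (e s) (f s)) t :=
    continuous_arccos.continuousAt.comp (k.1.continuousAt.neg.div k.2.continuousAt.norm
      (norm_ne_zero_iff.2 (h.E1_ne hg)))
  have k1 := ha.continuousAt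
  have k2 := hb.continuousAt
  have k3 := hc.continuousAt
  have k4 := hd.continuousAt
  have k5 := he.continuousAt
  have k6 := hf.continuousAt
  have k7 := h1.continuousAt
  have k8 := lob_cont
  unfold U dl
  fun_prop

theorem V_deriv (hg : gd (a t) (b t) (c t) (d t) (e t) (f t) ≤ 0) {σ : ℝ} (hσ : σ = 1 ∨ σ = -1)
    (ho : DifferentiableAt ℝ (fun s => om (a s) (b s) (c s) (d s) (e s) (f s)) t) {ξ : ℝ}
    (hξ : ξ = rt σ (a t) (b t) (c t) (d t) (e t) (f t)) :
    HasDerivAt (fun s => U (a s) (b s) (c s) (d s) (e s) (f s)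
      (rt σ (a s) (b s) (c s) (d s) (e s) (f s)))
      (pa (a t) (b t) (c t) (d t) (e t) (f t) ξ * a' + pa (b t) (f t) (d t) (c t) (a t) (e t) ξ * b' +
        pa (c t) (f t) (e t) (b t) (a t) (d t) ξ * c' + pa (d t) (f t) (b t) (e t) (a t) (c t) ξ * d' +
        pa (e t) (f t) (c t) (d t) (a t) (b t) ξ * e' +
        pa (f t) (b t) (d t) (c t) (e t) (a t) ξ * f') t := by
  obtain ⟨φ, h1, h2, h3⟩ := rt_lift ha hb hc hd he hf h hg σ
  have h4 := hξ ▸ h.rt_root hg hσ
  have h5 := h.nz h4.ge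
  have h6 := ((h1.hasDerivAt.add (ho.hasDerivAt.const_mul σ)).add
    ((((hb.add hc).add hd).add he).div_const 2)).div_const 2
  have h7 : (φ t + σ * om (a t) (b t) (c t) (d t) (e t) (f t) + (b t + c t + d t + e t) / 2) / 2
      = ξ := by rw [hξ, rt, h2]
  have h8 := U_deriv ha hb hc hd he hf h6 h (h7 ▸ h5)
  obtain ⟨⟨⟨⟨x1, x2⟩, x3⟩, x4⟩, -⟩ := h5
  simp only [Pi.add_apply, h7, h4] at h8
  rw [div_self (by rw [sX]; positivity), log_one, zero_mul, add_zero] at h8
  exact h8.congr_of_eventuallyEq h3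

theorem om_diff (hg : gd (a t) (b t) (c t) (d t) (e t) (f t) < 0) :
    DifferentiableAt ℝ (fun s => om (a s) (b s) (c s) (d s) (e s) (f s)) t := by
  have k := e_diff ha hb hc hd he hf
  have h1 := h.abs_lt hg
  exact (hasDerivAt_arccos h1.1.ne' h1.2.ne).differentiableAt.comp t
    (k.1.neg.div (k.2.norm ℂ (h.E1_ne hg.le)) (norm_ne_zero_iff.2 (h.E1_ne hg.le)))

end path

end Pool.Agent.MP_b0afd3_gt.H80
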