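import Pool.Agent.MP_b0afd3_gt.H80.Root
import Pool.Agent.MP_b0afd3_gt.H80.Grow

set_option autoImplicit false

namespace Pool.Agent.MP_b0afd3_gt.H80

open Real Filter Topology

/-- half of the length of the edge `a` -/
noncomputable def kap (b c d e f x : ℝ) : ℝ := log (rho (be x b c d e f)) / 2

variable {a b c d e f ξ x y p q : ℝ}

theorem kap_nonneg : 0 ≤ kap b c d e f x := div_nonneg (log_nonneg (one_le_rho _)) zero_le_two

theorem Reg.be_sq (h : Reg a b c d e f) : be a b c d e f ^ 2 - 1 = -gd a b c d e f * sin a ^ 2 /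
    (vtx (cos a) (cos b) (cos d) * vtx (cos a) (cos c) (cos e)) := by
  have h1 := mul_pos h.t3.vtx_pos h.t4.vtx_pos
  rw [be, div_pow, sq_sqrt h1.le, sin_sq, gd, ← cof_sq, sub_div, div_self h1.ne']

theorem Reg.be_gt (h : Reg a b c d e f) (hg : gd a b c d e f < 0) : 1 < |be a b c d e f| := by
  have := div_pos (mul_pos (neg_pos.2 hg) (pow_pos h.t3.sx 2)) (mul_pos h.t3.vtx_pos h.t4.vtx_pos)
  rw [← h.be_sq] at this
  exact (one_lt_sq_iff_one_lt_abs _).1 (by linarith)

theorem rho_eq (h : 1 ≤ |x|) : rho x = |x| + √(x ^ 2 - 1) :=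
  max_eq_right (by linarith [sqrt_nonneg (x ^ 2 - 1)])

theorem Reg.kap_pos (h : Reg a b c d e f) (hg : gd a b c d e f < 0) : 0 < kap b c d e f a := by
  have := h.be_gt hg
  exact half_pos (log_pos (by rw [rho_eq this.le]; linarith [sqrt_nonneg (be a b c d e f ^ 2 - 1)]))

theorem Reg.kap_zero (h : Reg a b c d e f) (hg : 0 ≤ gd a b c d e f) : kap b c d e f a = 0 := by
  have := div_nonpos_of_nonpos_of_nonneg (mul_nonpos_of_nonpos_of_nonneg (neg_nonpos.2 hg)
    (sq_nonneg (sin a))) (mul_pos h.t3.vtx_pos h.t4.vtx_pos).le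
  rw [← h.be_sq] at this
  rw [kap, rho, sqrt_eq_zero_of_nonpos this, add_zero,
    max_eq_left ((sq_le_one_iff_abs_le_one _).1 (by linarith)), log_one, zero_div]

theorem Reg.pa_pm (h : Reg a b c d e f) (hg : gd a b c d e f < 0)
    (h0 : sY a b c d e f ξ = sX a b c d e f ξ) :
    pa a b c d e f ξ = kap b c d e f a ∨ pa a b c d e f ξ = -kap b c d e f a := by
  have h1 := pa_eq h h0
  have h2 := h.be_gt hg
  have h3 := mul_self_sqrt (show 0 ≤ be a b c d e f ^ 2 - 1 by nlinarith [sq_abs (be a b c d e f)])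
  have h4 : exp (2 * pa a b c d e f ξ) * exp (-(2 * pa a b c d e f ξ)) = 1 := by simp [← exp_add]
  have h5 : (exp (2 * pa a b c d e f ξ) - rho (be a b c d e f)) *
      (exp (-(2 * pa a b c d e f ξ)) - rho (be a b c d e f)) = 0 := by
    rw [rho_eq h2.le]
    linear_combination h4 - (|be a b c d e f| + √(be a b c d e f ^ 2 - 1)) * h1 + h3
      - sq_abs (be a b c d e f)
  rcases mul_eq_zero.1 h5 with g | g
  · left; rw [kap, ← sub_eq_zero.1 g, log_exp]; ring
  · right; rw [kap, ← sub_eq_zero.1 g, log_exp]; ring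

theorem Tri.between (hp : Tri p b d) (hq : Tri q b d) (hx : x ∈ Set.uIcc p q) : Tri x b d := by
  obtain ⟨h1, h2, h3, h4⟩ := hp
  obtain ⟨h5, h6, h7, h8⟩ := hq
  rcases Set.mem_uIcc.1 hx with g | g <;> refine ⟨?_, ?_, ?_, ?_⟩ <;> linarith [g.1, g.2]

theorem Reg.between (hp : Reg p b c d e f) (hq : Reg q b c d e f) (hx : x ∈ Set.uIcc p q) :
    Reg x b c d e f := ⟨hp.t1, hp.t2, hp.t3.between hq.t3 hx, hp.t4.between hq.t4 hx⟩

theorem Reg.be_cont (h : Reg a b c d e f) : ContinuousAt (fun x => be x b c d e f) a := by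
  have := sqrt_pos.2 (mul_pos h.t3.vtx_pos h.t4.vtx_pos)
  refine ContinuousAt.div ?_ ?_ this.ne' <;> simp only [cof, vtx] <;> fun_prop

theorem Reg.kap_cont (h : Reg a b c d e f) : ContinuousAt (kap b c d e f) a :=
  ((rho_cont.continuousAt.comp h.be_cont).log (zero_lt_one.trans_le (one_le_rho _)).ne').div_const 2

theorem Reg.kap_int (hp : Reg p b c d e f) (hq : Reg q b c d e f) :
    IntervalIntegrable (kap b c d e f) MeasureTheory.volume p q :=
  ContinuousOn.intervalIntegrable fun _ hx => (hp.between hq hx).kap_cont.continuousWithinAt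

theorem V_int (hp : Reg p b c d e f) (hq : Reg q b c d e f) (hpq : p ≤ q)
    (gp : gd p b c d e f ≤ 0) (gq : gd q b c d e f ≤ 0)
    (hg : ∀ x ∈ Set.Ioo p q, gd x b c d e f < 0) {σ : ℝ} (hσ : σ = 1 ∨ σ = -1) :
    |U q b c d e f (rt σ q b c d e f) - U p b c d e f (rt σ p b c d e f)| =
      ∫ x in p..q, kap b c d e f x := by
  have R : ∀ x ∈ Set.Icc p q, Reg x b c d e f := fun x hx =>
    hp.between hq (Set.Icc_subset_uIcc hx)
  have C : ContinuousOn (fun x => U x b c d e f (rt σ x b c d e f)) (Set.Icc p q) := fun x hx =>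
    (V_cont (hasDerivAt_id' x) (hasDerivAt_const x b) (hasDerivAt_const x c) (hasDerivAt_const x d)
      (hasDerivAt_const x e) (hasDerivAt_const x f) (R x hx) (by
        rcases hx.1.eq_or_lt with rfl | g1
        · exact gp
        rcases hx.2.eq_or_lt with rfl | g2
        · exact gq
        exact (hg x ⟨g1, g2⟩).le) σ).continuousWithinAt
  have D : ∀ x ∈ Set.Ioo p q, HasDerivAt (fun x => U x b c d e f (rt σ x b c d e f))
      (pa x b c d e f (rt σ x b c d e f)) x := fun x hx => by
    have r := R x (Set.Ioo_subset_Icc_self hx)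
    simpa using V_deriv (hasDerivAt_id' x) (hasDerivAt_const x b) (hasDerivAt_const x c)
      (hasDerivAt_const x d) (hasDerivAt_const x e) (hasDerivAt_const x f) r (hg x hx).le hσ
      (om_diff (hasDerivAt_id' x) (hasDerivAt_const x b) (hasDerivAt_const x c)
        (hasDerivAt_const x d) (hasDerivAt_const x e) (hasDerivAt_const x f) r (hg x hx)) rfl
  have P : ∀ x ∈ Set.Ioo p q, 0 < kap b c d e f x ∧
      (pa x b c d e f (rt σ x b c d e f) = kap b c d e f x ∨
        pa x b c d e f (rt σ x b c d e f) = -kap b c d e f x) := fun x hx =>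
    have r := R x (Set.Ioo_subset_Icc_self hx)
    ⟨r.kap_pos (hg x hx), r.pa_pm (hg x hx) (r.rt_root (hg x hx).le hσ)⟩
  have N : 0 ≤ ∫ x in p..q, kap b c d e f x :=
    intervalIntegral.integral_nonneg hpq fun _ _ => kap_nonneg
  rcases hasDerivWithinAt_forall_lt_or_forall_gt_of_forall_ne (convex_Ioo p q)
    (fun x hx => (D x hx).hasDerivWithinAt) (m := 0) (fun x hx => by
      rcases P x hx with ⟨g1, g2 | g2⟩ <;> rw [g2] <;> linarith) with g | g
  · have := intervalIntegral.integral_eq_sub_of_hasDerivAt_of_le hpq C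
      (f' := fun x => -kap b c d e f x) (fun x hx => (D x hx).congr_deriv
        ((P x hx).2.resolve_left fun k => by linarith [g x hx, (P x hx).1])) (hp.kap_int hq).neg
    rw [intervalIntegral.integral_neg] at this
    rw [← this, abs_neg, abs_of_nonneg N]
  · have := intervalIntegral.integral_eq_sub_of_hasDerivAt_of_le hpq C
      (fun x hx => (D x hx).congr_deriv
        ((P x hx).2.resolve_right fun k => by linarith [g x hx, (P x hx).1])) (hp.kap_int hq)
    rw [← this, abs_of_nonneg N]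

theorem U_uc {ε : ℝ} (hε : 0 < ε) : ∃ δ > 0, ∀ a b c d e f ξ a' b' c' d' e' f' ξ' : ℝ,
    |a - a'| < δ → |b - b'| < δ → |c - c'| < δ → |d - d'| < δ → |e - e'| < δ → |f - f'| < δ →
      |ξ - ξ'| < δ → |U a b c d e f ξ - U a' b' c' d' e' f' ξ'| < ε := by
  have h : UniformContinuous fun p : Fin 7 → ℝ => U (p 0) (p 1) (p 2) (p 3) (p 4) (p 5) (p 6) := by
    have k : ∀ g : (Fin 7 → ℝ) → ℝ, UniformContinuous g → UniformContinuous fun p => lob (g p) :=
      fun g => lob_uc.comp
    unfold U dl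
    repeat' with_reducible first
      | apply Pi.uniformContinuous_proj
      | apply UniformContinuous.sub
      | apply UniformContinuous.add
      | apply UniformContinuous.div_const'
      | apply k
  obtain ⟨δ, hδ, h1⟩ := Metric.uniformContinuous_iff.1 h ε hε
  refine ⟨δ, hδ, fun a b c d e f ξ a' b' c' d' e' f' ξ' g0 g1 g2 g3 g4 g5 g6 => ?_⟩
  refine h1 (a := ![a, b, c, d, e, f, ξ]) (b := ![a', b', c', d', e', f', ξ']) ?_
  rw [dist_pi_lt_iff hδ]
  intro i
  fin_cases i <;> assumption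

theorem U_cont : Continuous fun p : ℝ × ℝ × ℝ => U p.1 b c d e p.2.1 p.2.2 := by
  have := lob_cont
  unfold U dl
  fun_prop

theorem simple_root (h0 : sY a b c d e f ξ = sX a b c d e f ξ) (hg : gd a b c d e f < 0) :
    ∀ᶠ δ in 𝓝[>] (0 : ℝ), sX a b c d e f (ξ + δ) < sY a b c d e f (ξ + δ) ∨
      sX a b c d e f (ξ - δ) < sY a b c d e f (ξ - δ) := by
  have h1 := normal a b c d e f ξ
  have h2 := disc a b c d e f
  set η := 2 * ξ - (b + c + d + e) / 2 with hη
  set D := e1 a b c d e f * sin η - e2 a b c d e f * cos η with hD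
  have h3 : e0 a b c d e f = e1 a b c d e f * cos η + e2 a b c d e f * sin η := by linarith
  have h4 : 0 < |D| := abs_pos.2 fun g => by
    have := sin_sq_add_cos_sq η
    have : D ^ 2 = -gd a b c d e f := by
      rw [← h2, h3, hD]
      linear_combination (e1 a b c d e f ^ 2 + e2 a b c d e f ^ 2) * this
    rw [g] at this
    linarith
  have h5 : ∀ t, 4 * (sY a b c d e f (ξ + t) - sX a b c d e f (ξ + t)) =
      2 * sin t * (e0 a b c d e f * sin t + D * cos t) := fun t => by
    rw [normal, show 2 * (ξ + t) - (b + c + d + e) / 2 = η + 2 * t by ring, cos_add, sin_add,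
      cos_two_mul, sin_two_mul, h3, hD]
    linear_combination (-2 * (e1 a b c d e f * cos η + e2 a b c d e f * sin η)) * sin_sq_add_cos_sq t
  have h6 : ContinuousAt (fun t => e0 a b c d e f * sin t + |D| * cos t) 0 := by fun_prop
  filter_upwards [nhdsWithin_le_nhds (h6.eventually (lt_mem_nhds (a := 0) (by simpa using h4))),
    Ioo_mem_nhdsGT pi_pos] with t g1 g2
  have := mul_pos (sin_pos_of_pos_of_lt_pi g2.1 g2.2) g1
  rcases abs_cases D with k | k <;> rw [k.1] at this
  · left; linarith [h5 t]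
  · right
    have k1 := h5 (-t)
    rw [sin_neg, cos_neg, ← sub_eq_add_neg] at k1
    linarith

/-- location of the two critical points from one point of the positive arc -/
theorem Reg.loc (h : Reg a b c d e f) (hg : gd a b c d e f < 0)
    (h0 : sX a b c d e f ξ < sY a b c d e f ξ) : ∃ l r, l ≤ ξ ∧ ξ ≤ r ∧
      (∀ t, sX a b c d e f t * sY a b c d e f t = 0 → (t ≤ ξ → t < l) ∧ (ξ ≤ t → r < t)) ∧
      U a b c d e f l = U a b c d e f (rt (-1) a b c d e f) ∧
      U a b c d e f r = U a b c d e f (rt 1 a b c d e f) ∧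
      sY a b c d e f r = sX a b c d e f r ∧
      (0 < sX a b c d e f ξ → U a b c d e f l < U a b c d e f r) ∧
      (sY a b c d e f ξ < 0 → U a b c d e f r < U a b c d e f l) := by
  obtain ⟨k, h1, h2⟩ := h.arc hg.le h0.le
  have h3 := h.mono hg (ξ := ξ + (-k : ℤ) * π) (by push_cast; linarith) (by push_cast; linarith)
  rw [sX_per, sY_per] at h3
  refine ⟨_, _, h1, h2, fun t ht => ?_, U_per _ _, U_per _ _, ?_, ?_⟩
  · have key : rt (-1) a b c d e f + k * π ≤ t → t ≤ rt 1 a b c d e f + k * π → False := by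
      intro g1 g2
      have := (h.in_arc hg.le (ξ := t + (-k : ℤ) * π) (by push_cast; linarith)
        (by push_cast; linarith)).1
      rw [sX_per, sY_per] at this
      exact (h.neg ht).not_ge this
    exact ⟨fun g => lt_of_not_ge fun k => key k (g.trans h2),
      fun g => lt_of_not_ge fun k => key (h1.trans g) k⟩
  · rw [sX_per, sY_per, h.rt_root hg.le (Or.inl rfl)]
  · simpa only [U_per] using h3

/-- the cofactor of the opposite edge -/
noncomputable def ell (b c d e f x : ℝ) : ℝ := cof (cos f) (cos b) (cos d) (cos c) (cos e) (cos x)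

theorem ell_sq (b c d e f x : ℝ) : ell b c d e f x ^ 2 =
    vtx (cos f) (cos b) (cos c) * vtx (cos f) (cos d) (cos e) - gd x b c d e f * sin f ^ 2 := by
  simp only [ell, gd, sin_sq, cof, vtx, gdet]; ring

theorem ell_mono (hf : 0 < sin f) : StrictMonoOn (ell b c d e f) (Set.Icc 0 π) := by
  intro x hx y hy hxy
  have := mul_pos (pow_pos hf 2) (sub_pos.2 (strictAntiOn_cos hx hy hxy))
  simp only [ell, cof, ← sin_sq]
  linarith

theorem ell_cont : Continuous (ell b c d e f) := by unfold ell cof; fun_prop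

theorem Tri.cos_law (h : Tri f b c) : |cos b * cos f - cos c| < sin b * sin f := by
  have h1 := h.vtx_pos
  refine abs_lt_of_sq_lt_sq ?_ (mul_pos h.rot.sx h.sx).le
  rw [mul_pow, sin_sq, sin_sq]
  rw [vtx] at h1
  linarith

theorem ell_neg (h1 : Tri f b c) (h2 : Tri f d e) (hx : cos x = cos (b - d)) :
    ell b c d e f x < 0 := by
  have := mul_lt_mul'' h1.cos_law h2.cos_law (abs_nonneg _) (abs_nonneg _)
  rw [← abs_mul] at this
  have h3 := le_abs_self ((cos b * cos f - cos c) * (cos d * cos f - cos e))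
  rw [ell, cof, hx, cos_sub, ← sin_sq]
  linarith [congrArg (cos b * cos d * ·) (sin_sq f)]

end Pool.Agent.MP_b0afd3_gt.H80
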