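import Pool.Agent.MP_b0afd3_gt.H80.Rec
import Pool.Agent.MP_b0afd3_gt.H80.Zone

set_option autoImplicit false

namespace Pool.Agent.MP_b0afd3_gt.H80

open Real Filter Topology Col

theorem hb_tendsto : Tendsto hb atTop (𝓝 0) := h_tendsto

theorem hb_lt {δ : ℝ} (h : 0 < δ) : ∀ᶠ m in atTop, hb m < δ := hb_tendsto.eventually (Iio_mem_nhds h)

/-- real triangle inequalities with a margin -/
def TriM (h x y z : ℝ) : Prop :=
  x + 5 * h < y + z ∧ y + 5 * h < x + z ∧ z + 5 * h < x + y ∧ x + y + z + 5 * h < 2 * π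

theorem TriM.int {m : ℕ} {x y z : ℤ} (h : TriM (hb m) (an m x) (an m y) (an m z)) :
    x + 3 < y + z ∧ y + 3 < x + z ∧ z + 3 < x + y ∧ x + y + z + 6 < 2 * m := by
  obtain ⟨h1, h2, h3, h4⟩ := h
  simp only [an, ← hb_mul m] at *
  have p := hb_pos m
  refine ⟨?_, ?_, ?_, ?_⟩ <;> rw [← @Int.cast_lt ℝ] <;> push_cast <;>
    refine lt_of_mul_lt_mul_left ?_ p.le <;> linarith

theorem Tri.ev {X : Type} {l : Filter X} {x y z : ℝ} (h : Tri x y z) {x' y' z' k : X → ℝ}
    (hx : Tendsto x' l (𝓝 x)) (hy : Tendsto y' l (𝓝 y)) (hz : Tendsto z' l (𝓝 z))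
    (hk : Tendsto k l (𝓝 0)) : ∀ᶠ p in l, TriM (k p) (x' p) (y' p) (z' p) :=
  ((hx.add (hk.const_mul 5)).eventually_lt (hy.add hz) (by simpa using h.1)).and
    (((hy.add (hk.const_mul 5)).eventually_lt (hx.add hz) (by simpa using h.2.1)).and
    (((hz.add (hk.const_mul 5)).eventually_lt (hx.add hy) (by simpa using h.2.2.1)).and
    ((((hx.add hy).add hz).add (hk.const_mul 5)).eventually_lt tendsto_const_nhds
      (by simpa using h.2.2.2))))

/-- convergence of five angles -/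
structure Lim5 (C : ℕ → Col) (b c d e f : ℝ) : Prop where
  b : Tendsto (fun m => an m (C m).b) atTop (𝓝 b)
  c : Tendsto (fun m => an m (C m).c) atTop (𝓝 c)
  d : Tendsto (fun m => an m (C m).d) atTop (𝓝 d)
  e : Tendsto (fun m => an m (C m).e) atTop (𝓝 e)
  f : Tendsto (fun m => an m (C m).f) atTop (𝓝 f)

/-- the four vertex conditions for integer colours -/
structure Col.Good (C : Col) (m : ℕ) : Prop where
  t1 : TriM (hb m) (an m C.f) (an m C.b) (an m C.c)
  t2 : TriM (hb m) (an m C.f) (an m C.d) (an m C.e)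
  t3 : TriM (hb m) (an m C.a) (an m C.b) (an m C.d)
  t4 : TriM (hb m) (an m C.a) (an m C.c) (an m C.e)

variable {C : ℕ → Col} {a b c d e f : ℝ}

theorem Lim5.good (L : Lim5 C b c d e f) (La : Tendsto (fun m => an m (C m).a) atTop (𝓝 a))
    (h : Reg a b c d e f) : ∀ᶠ m in atTop, (C m).Good m := by
  filter_upwards [h.t1.ev L.f L.b L.c hb_tendsto, h.t2.ev L.f L.d L.e hb_tendsto,
    h.t3.ev La L.b L.d hb_tendsto, h.t4.ev La L.c L.e hb_tendsto] with m h1 h2 h3 h4
  exact ⟨h1, h2, h3, h4⟩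

/-- `z` is in the range of summation -/
def Col.Rg (C : Col) (m : ℕ) (z : ℤ) : Prop :=
  C.T1 ≤ z ∧ C.T2 ≤ z ∧ C.T3 ≤ z ∧ C.T4 ≤ z ∧ z ≤ C.Q1 ∧ z ≤ C.Q2 ∧ z ≤ C.Q3 ∧ z ≤ 2 * m - 1

theorem Col.term_zero (C : Col) (m : ℕ) {z : ℤ} (h : ¬ C.Rg m z) : C.term m z = 0 := by
  simp only [Rg, not_and_or, not_le] at h
  rcases h with h | h | h | h | h | h | h | h <;> simp [term, ig_neg (sub_neg.2 h)]

theorem fa_asym {ε : ℝ} (hε : 0 < ε) : ∀ᶠ m : ℕ in atTop, ∀ (n : ℤ) (x : ℝ), 0 ≤ n → n ≤ 2 * m →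
    x = hb m * (n + 1 / 2) → |hb m * log (fa m n) + lob x| < ε := by
  filter_upwards [bf_asym hε] with m h n x h0 h1 hx
  obtain ⟨k, rfl⟩ := Int.eq_ofNat_of_zero_le h0
  simpa [fa, hx, hb] using h k (by omega)

theorem term_est (L : Lim5 C b c d e f) (La : Tendsto (fun m => an m (C m).a) atTop (𝓝 a))
    (h : Reg a b c d e f) {ε : ℝ} (hε : 0 < ε) : ∀ᶠ m in atTop, ∀ z, (C m).Rg m z →
      √|(C m).P m| * (C m).term m z ≠ 0 ∧
      |hb m * log (√|(C m).P m| * (C m).term m z) - U a b c d e f (hb m * (z + 2))| < ε := by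
  obtain ⟨s, s0, hs⟩ := U_uc (half_pos hε)
  obtain ⟨t, t0, ht⟩ := Metric.uniformContinuous_iff.1 lob_uc (ε / 40) (by positivity)
  have E : ∀ {x : ℕ → ℝ} {y : ℝ}, Tendsto x atTop (𝓝 y) → ∀ᶠ m in atTop, |x m - y| < s :=
    fun hx => Metric.tendsto_nhds.1 hx s s0
  filter_upwards [L.good La h, fa_asym (ε := ε / 40) (by positivity), hb_lt t0, E La, E L.b, E L.c,
    E L.d, E L.e, E L.f] with m G F h0 ea eb ec ed ee ef z hz
  generalize C m = D at *
  have k := hs _ _ _ _ _ _ (hb m * (z + 2)) _ _ _ _ _ _ (hb m * (z + 2)) ea eb ec ed ee ef (by simpa)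
  obtain ⟨r1, r2, r3, r4, r5, r6, r7⟩ := D.real
  obtain ⟨z1, z2, z3, z4, z5, z6, z7, z8⟩ := hz
  have i1 := G.t1.int
  have i2 := G.t2.int
  have i3 := G.t3.int
  have i4 := G.t4.int
  have j1 := D.t1
  have j2 := D.t2
  have j3 := D.t3
  have j4 := D.t4
  have j5 := D.q1
  have j6 := D.q2
  have j7 := D.q3
  have p := hb_pos m
  have N : ∀ n : ℤ, n ≤ 2 * m → fa m n ≠ 0 := fun n => fa_ne
  have W : ∀ x y, x = y + hb m / 2 → |lob x - lob y| < ε / 40 := fun x y hx =>
    ht (by rw [dist_eq, hx, add_sub_cancel_left, abs_of_pos (half_pos p)]; linarith)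
  have V : ∀ (T : ℤ) (x : ℝ), 0 ≤ T → T ≤ 2 * m - 1 → x = hb m * (T + 3 / 2) →
      |hb m * log (fa m (2 * m - 1 - T)) - lob x| < ε / 40 := fun T x g1 g2 hx => by
    have := F (2 * m - 1 - T) (-x + (2 : ℤ) * π) (by omega) (by omega)
      (by push_cast; linarith [hb_mul m])
    rwa [lob_int, lob_neg] at this
  set ξ := hb m * (z + 2) with hξ
  have a1 := F (z - D.T1) (ξ - (an m D.f + an m D.b + an m D.c) / 2) (by omega) (by omega)
    (by push_cast; simp only [hξ, an, r1]; ring)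
  have a2 := F (z - D.T2) (ξ - (an m D.f + an m D.d + an m D.e) / 2) (by omega) (by omega)
    (by push_cast; simp only [hξ, an, r2]; ring)
  have a3 := F (z - D.T3) (ξ - (an m D.a + an m D.b + an m D.d) / 2) (by omega) (by omega)
    (by push_cast; simp only [hξ, an, r3]; ring)
  have a4 := F (z - D.T4) (ξ - (an m D.a + an m D.c + an m D.e) / 2) (by omega) (by omega)
    (by push_cast; simp only [hξ, an, r4]; ring)
  have a5 := F (D.Q1 - z) _ (by omega) (by omega) rfl
  have a6 := F (D.Q2 - z) _ (by omega) (by omega) rfl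
  have a7 := F (D.Q3 - z) _ (by omega) (by omega) rfl
  have a8 := V z _ (by omega) z8 rfl
  have b5 := W (hb m * ((D.Q1 - z : ℤ) + 1 / 2))
    ((an m D.a + an m D.f + an m D.b + an m D.e) / 2 - ξ)
    (by push_cast; simp only [hξ, an, r5]; ring)
  have b6 := W (hb m * ((D.Q2 - z : ℤ) + 1 / 2))
    ((an m D.a + an m D.f + an m D.c + an m D.d) / 2 - ξ)
    (by push_cast; simp only [hξ, an, r6]; ring)
  have b7 := W (hb m * ((D.Q3 - z : ℤ) + 1 / 2))
    ((an m D.b + an m D.c + an m D.d + an m D.e) / 2 - ξ)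
    (by push_cast; simp only [hξ, an, r7]; ring)
  have b8 := W ξ (hb m * (z + 3 / 2)) (by rw [hξ]; ring)
  have c1 := F (D.Q1 - D.T1) ((an m D.a + an m D.e - an m D.c) / 2) (by omega) (by omega)
    (by push_cast; simp only [an, r1, r5]; ring)
  have c2 := F (D.Q1 - D.T2) ((an m D.a + an m D.b - an m D.d) / 2) (by omega) (by omega)
    (by push_cast; simp only [an, r2, r5]; ring)
  have c3 := F (D.Q2 - D.T1) ((an m D.a + an m D.d - an m D.b) / 2) (by omega) (by omega)
    (by push_cast; simp only [an, r1, r6]; ring)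
  have c4 := F (D.Q2 - D.T2) ((an m D.a + an m D.c - an m D.e) / 2) (by omega) (by omega)
    (by push_cast; simp only [an, r2, r6]; ring)
  have c5 := F (D.Q3 - D.T3) ((an m D.c + an m D.e - an m D.a) / 2) (by omega) (by omega)
    (by push_cast; simp only [an, r3, r7]; ring)
  have c6 := F (D.Q3 - D.T4) ((an m D.b + an m D.d - an m D.a) / 2) (by omega) (by omega)
    (by push_cast; simp only [an, r4, r7]; ring)
  have c7 := F (D.Q1 - D.T3) ((an m D.f + an m D.e - an m D.d) / 2) (by omega) (by omega)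
    (by push_cast; simp only [an, r3, r5]; ring)
  have c8 := F (D.Q1 - D.T4) ((an m D.f + an m D.b - an m D.c) / 2) (by omega) (by omega)
    (by push_cast; simp only [an, r4, r5]; ring)
  have c9 := F (D.Q2 - D.T3) ((an m D.f + an m D.c - an m D.b) / 2) (by omega) (by omega)
    (by push_cast; simp only [an, r3, r6]; ring)
  have c10 := F (D.Q2 - D.T4) ((an m D.f + an m D.d - an m D.e) / 2) (by omega) (by omega)
    (by push_cast; simp only [an, r4, r6]; ring)
  have c11 := F (D.Q3 - D.T1) ((an m D.d + an m D.e - an m D.f) / 2) (by omega) (by omega)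
    (by push_cast; simp only [an, r1, r7]; ring)
  have c12 := F (D.Q3 - D.T2) ((an m D.b + an m D.c - an m D.f) / 2) (by omega) (by omega)
    (by push_cast; simp only [an, r2, r7]; ring)
  have d1 := V D.T1 ((an m D.f + an m D.b + an m D.c) / 2) (by omega) (by omega)
    (by simp only [an, r1]; ring)
  have d2 := V D.T2 ((an m D.f + an m D.d + an m D.e) / 2) (by omega) (by omega)
    (by simp only [an, r2]; ring)
  have d3 := V D.T3 ((an m D.a + an m D.b + an m D.d) / 2) (by omega) (by omega)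
    (by simp only [an, r3]; ring)
  have d4 := V D.T4 ((an m D.a + an m D.c + an m D.e) / 2) (by omega) (by omega)
    (by simp only [an, r4]; ring)
  have I : ∀ n : ℤ, 0 ≤ n → ig m n = (fa m n)⁻¹ := fun n hn => if_pos hn
  have P0 : D.P m ≠ 0 := by
    rw [P]; repeat' apply mul_ne_zero
    all_goals exact N _ (by omega)
  have T0 : D.term m z ≠ 0 := by
    rw [term]; repeat' apply mul_ne_zero
    all_goals (rw [I _ (by omega)]; exact inv_ne_zero (N _ (by omega)))
  have S0 := (sqrt_pos.2 (abs_pos.2 P0)).ne'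
  refine ⟨mul_ne_zero S0 T0, ?_⟩
  rw [log_mul S0 T0, log_sqrt (abs_nonneg _), log_abs]
  simp only [term, P, ne_eq, mul_eq_zero, not_or] at P0 T0 ⊢
  simp (disch := simp only [ne_eq, mul_eq_zero, P0, T0, or_self, not_false_eq_true]) only [log_mul]
  simp (disch := omega) only [I, log_inv]
  simp only [U, dl, abs_lt] at *
  constructor <;> linarith

end Pool.Agent.MP_b0afd3_gt.H80
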