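import Pool.Agent.MP_b0afd3_gt.H80.Term

set_option autoImplicit false

namespace Pool.Agent.MP_b0afd3_gt.H80

open Real Filter Topology Col

variable {C : ℕ → Col} {a b c d e f p q : ℝ}

noncomputable def al (b c d e x t : ℝ) : ℝ :=
  sin (x - t) * √(cA b c d e (x + t) * cC b c d e (x + t))

theorem TriM.shift {h x y z : ℝ} (h0 : 0 < h) (g : TriM h x y z) : Tri (x + h) y z ∧ Tri (x - h) y z :=
  let ⟨h1, h2, h3, h4⟩ := g
  ⟨⟨by linarith, by linarith, by linarith, by linarith⟩,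
    ⟨by linarith, by linarith, by linarith, by linarith⟩⟩

theorem cA_pos {x : ℝ} (h1 : Tri x b d) (h2 : Tri x c e) : 0 < cA b c d e x ∧ 0 < cC b c d e x := by
  have := h1.s0; have := h1.s1; have := h2.s0; have := h2.s1
  have := h1.s2; have := h1.s3; have := h2.s2; have := h2.s3
  rw [cA, cC, cos_sub_a, cos_sub_a, cos_sub_c, cos_sub_c]
  constructor <;> positivity

theorem Col.Good.rec' {D : Col} {m : ℕ} (G : D.Good m) :
    al (an m D.b) (an m D.c) (an m D.d) (an m D.e) (an m D.a) (hb m) * (D.sh 1).u m +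
      cB (an m D.b) (an m D.c) (an m D.d) (an m D.e) (an m D.a - hb m) (an m D.a + hb m)
        (an m D.f + hb m) * D.u m +
      al (an m D.b) (an m D.c) (an m D.d) (an m D.e) (an m D.a) (-hb m) * (D.sh (-1)).u m = 0 := by
  have i1 := G.t1.int
  have i2 := G.t2.int
  have i3 := G.t3.int
  have i4 := G.t4.int
  have j1 := D.t1
  have j2 := D.t2
  have j3 := D.t3
  have j4 := D.t4
  have j5 := D.q1
  have j6 := D.q2
  have j7 := D.q3
  have e1 : an m D.a - hb m = hb m * D.a := by rw [an]; ring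
  have e2 : an m D.a + hb m = hb m * (D.a + 2) := by rw [an]; ring
  have e3 : an m D.f + hb m = hb m * (D.f + 2) := by rw [an]; ring
  have k3 := G.t3.shift (hb_pos m)
  have k4 := G.t4.shift (hb_pos m)
  have p1 := cA_pos k3.1 k4.1
  have p2 := cA_pos k3.2 k4.2
  simp only [al, sub_neg_eq_add, ← sub_eq_add_neg]
  rw [e1, e2] at *
  rw [e3]
  exact D.u_rec m (by constructor <;> omega) (by constructor <;> simp only [sh] <;> omega)
    (by omega) (by omega) (by omega) (by omega) (by omega) (by omega) (by omega) rfl rfl rfl rfl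
    p1.1.le p1.2.le p2.1.le p2.2.le

theorem tube (hp : Reg p b c d e f) (hq : Reg q b c d e f) {η : ℝ} (hη : 0 < η) :
    ∀ᶠ v : Fin 6 → ℝ in 𝓝 ![b, c, d, e, f, 0], ∀ x ∈ Set.uIcc p q,
      TriM (v 5) x (v 0) (v 2) ∧ TriM (v 5) x (v 1) (v 3) ∧ 0 < al (v 0) (v 1) (v 2) (v 3) x (v 5) ∧
      |-cB (v 0) (v 1) (v 2) (v 3) (x - v 5) (x + v 5) (v 4 + v 5) /
        al (v 0) (v 1) (v 2) (v 3) x (v 5) - 2 * be x b c d e f| < η ∧
      |1 - al (v 0) (v 1) (v 2) (v 3) x (-v 5) / al (v 0) (v 1) (v 2) (v 3) x (v 5)| < η := by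
  refine isCompact_uIcc.eventually_forall_of_forall_eventually fun x hx => ?_
  have r := hp.between hq hx
  have a0 : 0 < al b c d e x 0 := by
    simpa [al] using mul_pos r.t3.sx (sqrt_pos.2 (mul_pos r.cA_pos r.cC_pos))
  have t : ∀ i, Tendsto (fun z : (Fin 6 → ℝ) × ℝ => z.1 i) (𝓝 (![b, c, d, e, f, 0], x))
      (𝓝 (![b, c, d, e, f, 0] i)) := fun i => ((continuous_apply i).comp continuous_fst).tendsto _
  have t' : Tendsto (fun z : (Fin 6 → ℝ) × ℝ => z.2) (𝓝 (![b, c, d, e, f, 0], x)) (𝓝 x) :=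
    continuous_snd.tendsto _
  have c1 : Tendsto (fun z : (Fin 6 → ℝ) × ℝ => al (z.1 0) (z.1 1) (z.1 2) (z.1 3) z.2 (z.1 5))
      (𝓝 (![b, c, d, e, f, 0], x)) (𝓝 (al b c d e x 0)) :=
    Continuous.tendsto' (by unfold al cA cC; fun_prop) _ _ rfl
  have c2 : Tendsto (fun z : (Fin 6 → ℝ) × ℝ => al (z.1 0) (z.1 1) (z.1 2) (z.1 3) z.2 (-z.1 5))
      (𝓝 (![b, c, d, e, f, 0], x)) (𝓝 (al b c d e x 0)) :=
    Continuous.tendsto' (by unfold al cA cC; fun_prop) _ _ (by simp)
  have c3 : Tendsto (fun z : (Fin 6 → ℝ) × ℝ => -cB (z.1 0) (z.1 1) (z.1 2) (z.1 3) (z.2 - z.1 5)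
      (z.2 + z.1 5) (z.1 4 + z.1 5)) (𝓝 (![b, c, d, e, f, 0], x)) (𝓝 (-cB b c d e x x f)) :=
    Continuous.tendsto' (by unfold cB; fun_prop) _ _ (by simp)
  have c4 := (r.be_cont.tendsto.comp t').const_mul 2
  refine (r.t3.ev t' (t 0) (t 2) (t 5)).and ((r.t4.ev t' (t 1) (t 3) (t 5)).and
    ((c1.eventually (lt_mem_nhds a0)).and
    ((((c3.div c1 a0.ne').sub c4).abs.eventually (gt_mem_nhds ?_)).and
    (((c2.div c1 a0.ne').const_sub 1).abs.eventually (gt_mem_nhds ?_)))))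
  · have e1 : cB b c d e x x f =
        -(2 * sin x * cof (cos x) (cos b) (cos c) (cos d) (cos e) (cos f)) := by
      simp only [cB, cof, sin_add, sin_sub]
      have := sin_sq_add_cos_sq x
      grind
    have := r.t3.sx
    have := sqrt_pos.2 (mul_pos r.t3.vtx_pos r.t4.vtx_pos)
    simp only [sub_zero, add_zero, e1, al, be, cA_cC]
    rwa [sub_eq_zero.2 (by field_simp), abs_zero]
  · simpa [a0.ne'] using hη

theorem rec_est (L : Lim5 C b c d e f) (hp : Reg p b c d e f) (hq : Reg q b c d e f) {η : ℝ}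
    (hη : 0 < η) : ∀ᶠ m in atTop, ∀ n : ℤ, an m ((C m).sh n).a ∈ Set.uIcc p q →
      |((C m).sh (n + 1)).u m - 2 * be (an m ((C m).sh n).a) b c d e f * ((C m).sh n).u m +
        ((C m).sh (n - 1)).u m| ≤ η * (|((C m).sh n).u m| + |((C m).sh (n - 1)).u m|) := by
  have T : Tendsto (fun m => ![an m (C m).b, an m (C m).c, an m (C m).d, an m (C m).e, an m (C m).f,
      hb m]) atTop (𝓝 ![b, c, d, e, f, 0]) := by
    rw [tendsto_pi_nhds]
    intro i
    fin_cases i
    exacts [L.b, L.c, L.d, L.e, L.f, hb_tendsto]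
  have H := tube hp hq hη
  filter_upwards [T.eventually H, hp.t1.ev L.f L.b L.c hb_tendsto, hp.t2.ev L.f L.d L.e hb_tendsto]
    with m h h1 h2 n hn
  obtain ⟨h3, h4, h5, h6, h7⟩ := h _ hn
  have k := Col.Good.rec' (D := (C m).sh n) ⟨h1, h2, h3, h4⟩
  rw [sh_sh, sh_sh, ← sub_eq_add_neg] at k
  change al (an m (C m).b) (an m (C m).c) (an m (C m).d) (an m (C m).e) _ _ * _ +
    cB (an m (C m).b) (an m (C m).c) (an m (C m).d) (an m (C m).e) _ _ (an m (C m).f + _) * _ +
    al (an m (C m).b) (an m (C m).c) (an m (C m).d) (an m (C m).e) _ _ * _ = 0 at k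
  simp only [Matrix.cons_val] at h5 h6 h7
  generalize al _ _ _ _ _ (hb m) = A at *
  generalize al _ _ _ _ _ (-hb m) = B at *
  generalize cB _ _ _ _ _ _ _ = D at *
  generalize be _ _ _ _ _ _ = β at *
  rw [show ((C m).sh (n + 1)).u m - 2 * β * ((C m).sh n).u m + ((C m).sh (n - 1)).u m =
    (-D / A - 2 * β) * ((C m).sh n).u m + (1 - B / A) * ((C m).sh (n - 1)).u m by
      field_simp; linear_combination k, mul_add]
  refine (abs_add_le _ _).trans ?_
  rw [abs_mul, abs_mul]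
  gcongr

theorem Reg.ev (h : Reg a b c d e f) : ∀ᶠ x in 𝓝 a, Reg x b c d e f := by
  have t := fun y : ℝ => tendsto_const_nhds (x := y) (f := 𝓝 a)
  filter_upwards [h.t3.ev tendsto_id (t _) (t _) (t _), h.t4.ev tendsto_id (t _) (t _) (t _)]
    with x h1 h2
  exact ⟨h.t1, h.t2, by simpa [TriM, Tri] using h1, by simpa [TriM, Tri] using h2⟩

theorem Reg.K_cont (hp : Reg p b c d e f) (hq : Reg q b c d e f) :
    ContinuousAt (fun y => ∫ x in p..y, kap b c d e f x) q :=
  (intervalIntegral.integral_hasDerivAt_right (hp.kap_int hq)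
    (ContinuousAt.stronglyMeasurableAtFilter (s := {x | ∀ᶠ y in 𝓝 x, Reg y b c d e f})
      isOpen_setOfPred_eventually_nhds (fun _ hx => hx.self_of_nhds.kap_cont) q hq.ev)
    hq.kap_cont).continuousAt

theorem an_sh (D : Col) (m : ℕ) (n : ℤ) : an m (D.sh n).a = an m D.a + 2 * hb m * n := by
  simp only [an, sh]; push_cast; ring

theorem Lim5.sh (L : Lim5 C b c d e f) (n : ℕ → ℤ) : Lim5 (fun m => (C m).sh (n m)) b c d e f :=
  ⟨L.b, L.c, L.d, L.e, L.f⟩

theorem exists_sh (C : ℕ → Col) (y : ℝ) :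
    ∃ n : ℕ → ℤ, Tendsto (fun m => an m ((C m).sh (n m)).a) atTop (𝓝 y) := by
  refine ⟨fun m => ⌊(y - an m (C m).a) / (2 * hb m)⌋, ?_⟩
  have h : Tendsto (fun m => y - 2 * hb m) atTop (𝓝 y) := by
    simpa using (hb_tendsto.const_mul 2).const_sub y
  refine tendsto_of_tendsto_of_tendsto_of_le_of_le h tendsto_const_nhds (fun m => ?_) fun m => ?_
  · have := (div_lt_iff₀ (mul_pos two_pos (hb_pos m))).1
      (Int.lt_floor_add_one ((y - an m (C m).a) / (2 * hb m)))
    simp only [an_sh]; linarith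
  · have := (le_div_iff₀ (mul_pos two_pos (hb_pos m))).1
      (Int.floor_le ((y - an m (C m).a) / (2 * hb m)))
    simp only [an_sh]; linarith

/-- the size of two consecutive values -/
noncomputable def Col.M (D : Col) (m : ℕ) : ℝ := |D.u m| + |(D.sh 1).u m|

theorem transport (L : Lim5 C b c d e f) (hp : Reg p b c d e f) (hq : Reg q b c d e f) (hpq : p < q)
    {n : ℕ → ℤ} (Lp : Tendsto (fun m => an m (C m).a) atTop (𝓝 p))
    (Lq : Tendsto (fun m => an m ((C m).sh (n m)).a) atTop (𝓝 q)) {ε : ℝ} (hε : 0 < ε) :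
    ∀ᶠ m in atTop, ((C m).sh (n m)).M m ≤
      exp (((∫ x in p..q, kap b c d e f x) + ε) / hb m) * (C m).M m := by
  obtain ⟨x1, h1, r1⟩ := hp.ev.exists_lt
  obtain ⟨x2, h2, r2⟩ := hq.ev.exists_gt
  have le : x1 ≤ x2 := by linarith
  obtain ⟨η, η0, G⟩ := grow (β := fun x => be x b c d e f) (x1 := x1) (x2 := x2) (fun x hx =>
    (r1.between r2 (Set.Icc_subset_uIcc hx)).be_cont.continuousWithinAt) (half_pos hε)
  have T := ((hp.K_cont hq).tendsto.comp Lq).sub ((hp.K_cont hp).tendsto.comp Lp)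
  rw [intervalIntegral.integral_same, sub_zero] at T
  filter_upwards [(tendsto_nhdsWithin_iff.2 ⟨hb_tendsto, .of_forall hb_pos⟩).eventually G,
    rec_est L r1 r2 η0, Lp.eventually (lt_mem_nhds h1), Lq.eventually (gt_mem_nhds h2),
    Lp.eventually_lt Lq hpq, T.eventually (gt_mem_nhds (lt_add_of_pos_right _ (half_pos hε))),
    Lp.eventually hp.ev, Lq.eventually hq.ev] with m g1 g2 g3 g4 g5 g6 g7 g8
  have h0 := hb_pos m
  rw [an_sh] at g4 g5
  obtain ⟨N, hN⟩ := Int.eq_ofNat_of_zero_le (show 0 ≤ n m by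
    rw [← @Int.cast_nonneg_iff ℝ]; nlinarith)
  have k := g1 (an m (C m).a) N (fun j => ((C m).sh j).u m) g3.le (by simpa [hN] using g4.le)
    fun j hj => by
      have j1 : (j : ℝ) + 1 ≤ N := by exact_mod_cast hj
      have := g2 (j + 1) (by
        rw [an_sh, Set.uIcc_of_le le]
        simp only [hN, Int.cast_natCast] at g4
        push_cast
        exact ⟨by linarith [show 0 ≤ 2 * hb m * (j + 1) by positivity], by nlinarith⟩)
      rw [an_sh, add_sub_cancel_right, add_assoc] at this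
      simpa using this
  have e0 : (C m).sh 0 = C m := by simp [sh]
  simp only [Function.comp, intervalIntegral.integral_interval_sub_left (hp.kap_int g8)
    (hp.kap_int g7)] at g6
  simp only [M, sh_sh, hN, an_sh, Int.cast_natCast, Nat.cast_add, Nat.cast_one, Nat.cast_zero,
    e0] at k g6 ⊢
  refine k.trans (mul_le_mul_of_nonneg_right
    (exp_le_exp.2 (div_le_div_of_nonneg_right ?_ h0.le)) (by positivity))
  simp only [kap] at g6 ⊢
  linarith

end Pool.Agent.MP_b0afd3_gt.H80
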