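import Pool.Agent.MP_b0afd3_gt.H80.Zone
import Pool.Agent.MP_b0afd3_gt.H56.Euclid

set_option autoImplicit false

namespace Pool.Agent.MP_b0afd3_gt.H80

open Real Filter Topology

variable {a b c d e f ξ x y z : ℝ}

theorem Tri.mem (h : Tri x y z) : 0 < x ∧ x < π :=
  ⟨by linarith [h.2.1, h.2.2.1], by linarith [h.1, h.2.2.2]⟩

theorem Reg.low (h : Reg z b c d e f) (h1 : c - e ≤ b - d) (h2 : e - c ≤ b - d) (hy : b - d < y)
    (hz : y ≤ z) : Reg y b c d e f := by
  obtain ⟨t1, t2, ⟨k1, k2, k3, k4⟩, ⟨k5, k6, k7, k8⟩⟩ := h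
  exact ⟨t1, t2, ⟨by linarith, by linarith, by linarith, by linarith⟩,
    ⟨by linarith, by linarith, by linarith, by linarith⟩⟩

theorem gd_iff (h1 : Tri f b c) (h2 : Tri f d e) : ∃ v > 0, ∀ x,
    (gd x b c d e f < 0 ↔ v < |ell b c d e f x|) ∧ (gd x b c d e f = 0 ↔ |ell b c d e f x| = v) := by
  have h3 := mul_pos h1.vtx_pos h2.vtx_pos
  refine ⟨_, sqrt_pos.2 h3, fun x => ?_⟩
  have h4 := ell_sq b c d e f x
  have h5 := pow_pos h1.sx 2
  rw [← sq_lt_sq₀ (sqrt_nonneg _) (abs_nonneg _), ← sq_eq_sq₀ (abs_nonneg _) (sqrt_nonneg _),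
    sq_abs, sq_sqrt h3.le, h4]
  refine ⟨⟨fun g => by nlinarith, fun g => by nlinarith⟩, fun g => by simp [g], fun g => ?_⟩
  exact (mul_eq_zero.1 (by linarith)).resolve_right h5.ne'

theorem ev_lt {x : ℝ} (h : 0 < x) : ∀ᶠ δ in 𝓝[>] (0 : ℝ), 0 < δ ∧ δ < x := Ioo_mem_nhdsGT h

theorem up_A (h : Reg z b c d e f) (hz : 0 ≤ gd z b c d e f) (h1 : c - e ≤ b - d)
    (h2 : e - c ≤ b - d) (hg : gd (b - d) b c d e f < 0) {ε : ℝ} (hε : 0 < ε) :
    ∀ᶠ y in 𝓝[>] (b - d),
      U (b - d) b c d e f ((f + b + c) / 2) + ∫ x in y..z, kap b c d e f x ≤ ε := by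
  obtain ⟨v, v0, hv⟩ := gd_iff h.t1 h.t2
  have mz := h.t3.mem
  have mf := h.t1.mem
  have mb := h.t1.rot.mem
  have mc := h.t1.rot.rot.mem
  have md := h.t2.rot.mem
  have me := h.t2.rot.rot.mem
  obtain ⟨k1, k2, k3, k4⟩ := h.t1
  obtain ⟨k5, k6, k7, k8⟩ := h.t2
  have lt : b - d < z := by linarith [h.t3.2.1]
  have l0 := ell_neg h.t1 h.t2 (x := b - d) rfl
  have l1 := (hv _).1.1 hg
  have l2 := abs_le.1 (not_lt.1 fun g => hz.not_gt ((hv z).1.2 g))
  rw [abs_of_neg l0] at l1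
  obtain ⟨x1, ⟨m1, m2⟩, m3⟩ := intermediate_value_Ioc lt.le ell_cont.continuousOn
    (show -v ∈ Set.Ioc (ell b c d e f (b - d)) (ell b c d e f z) from ⟨by linarith, l2.1⟩)
  have mono := ell_mono (b := b) (c := c) (d := d) (e := e) h.t1.sx
  have r1 := h.low h1 h2 m1 m2
  have g1 : gd x1 b c d e f = 0 := (hv x1).2.2 (by rw [m3, abs_neg, abs_of_pos v0])
  have gl : ∀ x, b - d < x → x < x1 → gd x b c d e f < 0 := fun x p q => (hv x).1.2 (by
    have := mono ⟨by linarith, by linarith⟩ ⟨by linarith, by linarith⟩ q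
    exact lt_abs.2 (Or.inr (by linarith)))
  have i0 : ∫ x in x1..z, kap b c d e f x = 0 := by
    rw [intervalIntegral.integral_congr (g := fun _ => 0), intervalIntegral.integral_zero]
    intro x hx
    refine (r1.between h hx).kap_zero (not_lt.1 fun g => ((hv x).1.1 g).not_ge (abs_le.2 ?_))
    rw [Set.uIcc_of_le m2] at hx
    have p := mono.monotoneOn ⟨by linarith, by linarith⟩
      ⟨by linarith [hx.1], by linarith [hx.2]⟩ hx.1
    have q := mono.monotoneOn ⟨by linarith [hx.1], by linarith [hx.2]⟩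
      ⟨by linarith, by linarith⟩ hx.2
    exact ⟨by linarith, by linarith⟩
  obtain ⟨s, s0, hs⟩ := U_uc hε
  obtain ⟨δ, d1, ⟨d0, d2⟩, ⟨-, d3⟩, ⟨-, d4⟩, ⟨-, d5⟩, ⟨-, d6⟩, -, d7⟩ := ((simple_root
    (ξ := (f + b + c) / 2) (by
      rw [sX, sY, show (b - d + f + c + d) / 2 = (f + b + c) / 2 by ring]; simp) hg).and
    ((ev_lt s0).and ((ev_lt (sub_pos.2 mb.2)).and ((ev_lt (sub_pos.2 mc.2)).and
    ((ev_lt (sub_pos.2 md.2)).and ((ev_lt (sub_pos.2 me.2)).and (ev_lt mb.1))))))).exists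
  have key : ∀ y, b - d < y → y < x1 → y < b - d + s → ∀ t t' : ℝ, ∀ σ σ' : ℝ,
      (σ = 1 ∨ σ = -1) → (σ' = 1 ∨ σ' = -1) → U y b c d e f t = U y b c d e f (rt σ y b c d e f) →
      U y b c d e f t' = U y b c d e f (rt σ' y b c d e f) → U y b c d e f t < U y b c d e f t' →
      |(f + b + c) / 2 - t| < s →
      U (b - d) b c d e f ((f + b + c) / 2) + ∫ x in y..z, kap b c d e f x ≤ ε := by
    intro y y1 y2 y3 t t' σ σ' hσ hσ' e1 e2 e3 e4
    have ry := h.low h1 h2 y1 (by linarith)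
    have p := V_int ry r1 y2.le (gl y y1 y2).le g1.le (fun x hx => gl x (y1.trans hx.1) hx.2) hσ
    have q := V_int ry r1 y2.le (gl y y1 y2).le g1.le (fun x hx => gl x (y1.trans hx.1) hx.2) hσ'
    rw [H56.euclid r1 g1, zero_sub, abs_neg] at p q
    have := abs_lt.1 (hs (b - d) b c d e f _ y b c d e f t (by rw [abs_lt]; constructor <;> linarith)
      (by simpa) (by simpa) (by simpa) (by simpa) (by simpa) e4)
    rw [← intervalIntegral.integral_add_adjacent_intervals (ry.kap_int r1) (r1.kap_int h), i0,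
      ← p, ← e1]
    rw [← e2, ← p, ← e1] at q
    rcases abs_cases (U y b c d e f t) with k | k <;> linarith [le_abs_self (U y b c d e f t')]
  have cX : ∀ t, ContinuousAt (fun y => sX y b c d e f t) (b - d) := fun t => by
    unfold sX; fun_prop
  have cY : ∀ t, ContinuousAt (fun y => sY y b c d e f t) (b - d) := fun t => by
    unfold sY; fun_prop
  have P := @sin_pos_of_pos_of_lt_pi
  rcases d1 with g | g
  · have p : 0 < sX (b - d) b c d e f ((f + b + c) / 2 + δ) :=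
      mul_pos (mul_pos (mul_pos (P (by linarith) (by linarith)) (P (by linarith) (by linarith)))
        (P (by linarith) (by linarith))) (P (by linarith) (by linarith))
    filter_upwards [nhdsWithin_le_nhds ((cX _).eventually_lt (cY _) g),
      nhdsWithin_le_nhds (continuousAt_const.eventually_lt (cX _) p), Ioo_mem_nhdsGT m1,
      Ioo_mem_nhdsGT (lt_add_of_pos_right (b - d) d0)] with y g1 g2 g3 g4
    obtain ⟨l, r, n1, n2, n3, n4, n5, -, n6, -⟩ :=
      (h.low h1 h2 g3.1 (by linarith [g3.2])).loc (gl y g3.1 g3.2) g1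
    have := (n3 ((y + f + c + d) / 2) (by simp [sY])).1 (by linarith [g4.2])
    exact key y g3.1 g3.2 (by linarith [g4.2]) l r _ _ (Or.inr rfl) (Or.inl rfl) n4 n5 (n6 g2)
      (by rw [abs_lt]; constructor <;> linarith [g3.1])
  · have p : sY (b - d) b c d e f ((f + b + c) / 2 - δ) < 0 := neg_lt_zero.2 <|
      mul_pos (mul_pos (mul_pos (P (by linarith) (by linarith)) (P (by linarith) (by linarith)))
        (P (by linarith) (by linarith))) (P (by linarith) (by linarith))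
    filter_upwards [nhdsWithin_le_nhds ((cX _).eventually_lt (cY _) g),
      nhdsWithin_le_nhds ((cY _).eventually_lt continuousAt_const p), Ioo_mem_nhdsGT m1,
      Ioo_mem_nhdsGT (lt_add_of_pos_right (b - d) d0)] with y g1 g2 g3 g4
    obtain ⟨l, r, n1, n2, n3, n4, n5, -, -, n6⟩ :=
      (h.low h1 h2 g3.1 (by linarith [g3.2])).loc (gl y g3.1 g3.2) g1
    have := (n3 ((f + b + c) / 2) (by simp [sX])).2 (by linarith)
    exact key y g3.1 g3.2 (by linarith [g4.2]) r l _ _ (Or.inl rfl) (Or.inr rfl) n5 n4 (n6 g2)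
      (by rw [abs_lt]; constructor <;> linarith)

theorem gd_deg (b c d e f : ℝ) : gd (b - d) b c d e f * sin (b - d) ^ 2 =
    -cof (cos (b - d)) (cos b) (cos c) (cos d) (cos e) (cos f) ^ 2 := by
  have := cof_sq (cos (b - d)) (cos b) (cos c) (cos d) (cos e) (cos f)
  rw [vtx_eq, sub_self, zero_mul, zero_mul, ← sin_sq] at this
  rw [gd]
  linarith

theorem up_B (h : Reg z b c d e f) (hz : gd z b c d e f = 0) (hl : 0 < ell b c d e f z)
    (h1 : c - e ≤ b - d) (h2 : e - c ≤ b - d) {ε : ℝ} (hε : 0 < ε) :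
    ∀ᶠ y in 𝓝[>] (b - d),
      U (b - d) b c d e f ((f + b + c) / 2) + ∫ x in y..z, kap b c d e f x ≤ ε := by
  by_cases hg : gd (b - d) b c d e f < 0
  · exact up_A h hz.ge h1 h2 hg hε
  obtain ⟨v, v0, hv⟩ := gd_iff h.t1 h.t2
  have mz := h.t3.mem
  have mf := h.t1.mem
  have lt : b - d < z := by linarith [h.t3.2.1]
  have l0 := ell_neg h.t1 h.t2 (x := b - d) rfl
  have l1 := abs_le.1 (not_lt.1 fun g => hg ((hv _).1.2 g))
  have l2 := (hv z).2.1 hz
  rw [abs_of_pos hl] at l2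
  have mono := ell_mono (b := b) (c := c) (d := d) (e := e) h.t1.sx
  have gl : ∀ x, b - d < x → x < z → 0 < gd x b c d e f := fun x p q => by
    have p1 := mono ⟨by linarith, by linarith⟩ ⟨by linarith, by linarith⟩ p
    have p2 := mono ⟨by linarith, by linarith⟩ ⟨by linarith, by linarith⟩ q
    have : |ell b c d e f x| < v := abs_lt.2 ⟨by linarith, by linarith⟩
    exact lt_of_le_of_ne (not_lt.1 fun g => ((hv x).1.1 g).not_gt this)
      fun g => this.ne ((hv x).2.1 g.symm)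
  have key : U (b - d) b c d e f ((f + b + c) / 2) ≤ 0 := by
    rcases (show 0 ≤ b - d by linarith).eq_or_lt with g | g
    · obtain rfl : b = d := by linarith
      obtain rfl : c = e := by linarith
      have e1 := lob_neg ((f + b + c) / 2 - b)
      have e2 := lob_neg ((f + b + c) / 2 - c)
      simp only [U, dl]
      ring_nf at e1 e2 ⊢
      simp only [lob_zero]
      linarith
    have s0 := sin_pos_of_pos_of_lt_pi g (by linarith)
    have c0 : cof (cos (b - d)) (cos b) (cos c) (cos d) (cos e) (cos f) = 0 := by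
      have := gd_deg b c d e f
      have := mul_nonneg (not_lt.1 hg) (sq_nonneg (sin (b - d)))
      exact pow_eq_zero_iff two_ne_zero |>.1 (le_antisymm (by linarith) (sq_nonneg _))
    have rm := h.low h1 h2 (y := (b - d + z) / 2) (by linarith) (by linarith)
    have c1 : ContinuousAt (fun t => gd ((b - d + z) / 2) b c d e t) f := by
      unfold gd gdet; fun_prop
    have c2 : Tendsto (fun t => U (b - d) b c d e t ((t + b + c) / 2)) (𝓝[>] f)
        (𝓝 (U (b - d) b c d e f ((f + b + c) / 2))) :=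
      ((U_cont.comp (f := fun t : ℝ => (b - d, t, (t + b + c) / 2)) (by fun_prop)).tendsto f).mono_left
        nhdsWithin_le_nhds
    obtain ⟨k1, k2, k3, k4⟩ := h.t1
    obtain ⟨k5, k6, k7, k8⟩ := h.t2
    refine le_of_tendsto c2 ?_
    filter_upwards [nhdsWithin_le_nhds (continuousAt_const.eventually_lt c1
      (gl _ (by linarith) (by linarith))), Ioo_mem_nhdsGT k1, Ioo_mem_nhdsGT k5,
      Ioo_mem_nhdsGT (show f < 2 * π - b - c by linarith),
      Ioo_mem_nhdsGT (show f < 2 * π - d - e by linarith), Ioo_mem_nhdsGT mf.2]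
      with t g1 g2 g3 g4 g5 g6
    have rt : Reg ((b - d + z) / 2) b c d e t :=
      ⟨⟨g2.2, by linarith [g2.1], by linarith [g2.1], by linarith [g4.2]⟩,
        ⟨g3.2, by linarith [g2.1], by linarith [g2.1], by linarith [g5.2]⟩, rm.t3, rm.t4⟩
    have gt : gd (b - d) b c d e t < 0 := by
      have e1 := gd_deg b c d e t
      have e2 : cof (cos (b - d)) (cos b) (cos c) (cos d) (cos e) (cos t) =
          (cos f - cos t) * sin (b - d) ^ 2 := by
        rw [sin_sq]; simp only [cof] at c0 ⊢; linarith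
      have e3 := sub_pos.2 (strictAntiOn_cos ⟨mf.1.le, mf.2.le⟩ ⟨by linarith [g6.1], g6.2.le⟩ g6.1)
      rw [e2] at e1
      have : 0 < ((cos f - cos t) * sin (b - d) ^ 2) ^ 2 := by positivity
      exact neg_of_mul_neg_right (by linarith) (sq_nonneg (sin (b - d)))
    refine le_of_forall_pos_le_add fun η hη => ?_
    obtain ⟨y, y1, y2⟩ := ((up_A rt g1.le h1 h2 gt hη).and
      (Ioo_mem_nhdsGT (show b - d < (b - d + z) / 2 by linarith))).exists
    have : 0 ≤ ∫ x in y..(b - d + z) / 2, kap b c d e t x :=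
      intervalIntegral.integral_nonneg y2.2.le fun _ _ => kap_nonneg
    linarith
  filter_upwards [Ioo_mem_nhdsGT lt] with y hy
  rw [intervalIntegral.integral_congr (g := fun _ => 0), intervalIntegral.integral_zero]
  · linarith
  intro x hx
  rw [Set.uIcc_of_le hy.2.le] at hx
  refine (h.low h1 h2 (hy.1.trans_le hx.1) hx.2).kap_zero ?_
  rcases hx.2.eq_or_lt with rfl | g
  · exact hz.ge
  · exact (gl x (hy.1.trans_le hx.1) g).le

/-- the starting estimate for the upper bound -/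
def Start (z b c d e f ε : ℝ) : Prop :=
  ∃ y ≤ z, Reg y b c d e f ∧ ∃ δ > 0, ∀ ξ, (f + b + c) / 2 - δ ≤ ξ → (f + d + e) / 2 - δ ≤ ξ →
    ξ ≤ (y + f + b + e) / 2 + δ → ξ ≤ (y + f + c + d) / 2 + δ →
      U y b c d e f ξ + ∫ x in y..z, kap b c d e f x ≤ ε

theorem up_C (h : Reg z b c d e f) (hz : gd z b c d e f = 0) (hl : 0 < ell b c d e f z)
    (h1 : c - e ≤ b - d) (h2 : e - c ≤ b - d) {ε : ℝ} (hε : 0 < ε) : Start z b c d e f ε := by
  obtain ⟨s, s0, hs⟩ := U_uc (half_pos hε)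
  obtain ⟨y, y1, y2, y3⟩ := ((up_B h hz hl h1 h2 (half_pos hε)).and
    (Eventually.and (Ioo_mem_nhdsGT (show b - d < z by linarith [h.t3.2.1]))
      (Ioo_mem_nhdsGT (lt_add_of_pos_right (b - d) s0)))).exists
  refine ⟨y, y2.2.le, h.low h1 h2 y2.1 y2.2.le, s / 4, by positivity, fun ξ g1 _ _ g2 => ?_⟩
  have := abs_lt.1 (hs y b c d e f ξ (b - d) b c d e f ((f + b + c) / 2)
    (by rw [abs_lt]; constructor <;> linarith [y3.1, y3.2])
    (by simpa) (by simpa) (by simpa) (by simpa) (by simpa)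
    (by rw [abs_lt]; constructor <;> linarith [y3.1, y3.2]))
  linarith

theorem Reg.sw12 (h : Reg a b c d e f) : Reg a d e b c f := ⟨h.t2, h.t1, h.t3.swap, h.t4.swap⟩

theorem Reg.sw34 (h : Reg a b c d e f) : Reg a c b e d f := ⟨h.t1.swap, h.t2.swap, h.t4, h.t3⟩

theorem dl_swap (x y z : ℝ) : dl x y z = dl x z y := by simp only [dl]; ring_nf

theorem U_sw12 : U a d e b c f ξ = U a b c d e f ξ := by
  simp only [U, dl]; ring_nf

theorem U_sw34 : U a c b e d f ξ = U a b c d e f ξ := by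
  simp only [U, dl]; ring_nf

theorem kap_sw12 : kap d e b c f = kap b c d e f := by
  ext x; simp only [kap, be, cof, vtx]; ring_nf

theorem kap_sw34 : kap c b e d f = kap b c d e f := by
  ext x; simp only [kap, be, cof, vtx]; ring_nf

theorem gd_sw12 : gd a d e b c f = gd a b c d e f := by simp only [gd, gdet]; ring

theorem gd_sw34 : gd a c b e d f = gd a b c d e f := by simp only [gd, gdet]; ring

theorem ell_sw12 : ell d e b c f a = ell b c d e f a := by simp only [ell, cof]; ring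

theorem ell_sw34 : ell c b e d f a = ell b c d e f a := by simp only [ell, cof]; ring

theorem Start.sw12 {ε : ℝ} (h : Start z d e b c f ε) : Start z b c d e f ε := by
  obtain ⟨y, h1, h2, δ, h3, h4⟩ := h
  refine ⟨y, h1, h2.sw12, δ, h3, fun ξ g1 g2 g3 g4 => ?_⟩
  rw [← U_sw12, ← kap_sw12]
  exact h4 ξ g2 g1 (by linarith) (by linarith)

theorem Start.sw34 {ε : ℝ} (h : Start z c b e d f ε) : Start z b c d e f ε := by
  obtain ⟨y, h1, h2, δ, h3, h4⟩ := h
  refine ⟨y, h1, h2.sw34, δ, h3, fun ξ g1 g2 g3 g4 => ?_⟩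
  rw [← U_sw34, ← kap_sw34]
  exact h4 ξ (by linarith) (by linarith) g4 g3

theorem start (h : Reg z b c d e f) (hz : gd z b c d e f = 0) (hl : 0 < ell b c d e f z)
    {ε : ℝ} (hε : 0 < ε) : Start z b c d e f ε := by
  by_cases h1 : c - e ≤ b - d ∧ e - c ≤ b - d
  · exact up_C h hz hl h1.1 h1.2 hε
  by_cases h2 : e - c ≤ d - b ∧ c - e ≤ d - b
  · exact (up_C h.sw12 (gd_sw12 ▸ hz) (ell_sw12 ▸ hl) h2.1 h2.2 hε).sw12
  rw [not_and_or, not_le, not_le] at h1 h2
  rcases le_total c e with h3 | h3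
  · exact (up_C h.sw34.sw12 (gd_sw12 ▸ gd_sw34 ▸ hz) (ell_sw12 ▸ ell_sw34 ▸ hl)
      (by rcases h2 with g | g <;> linarith) (by rcases h1 with g | g <;> linarith) hε).sw12.sw34
  · exact (up_C h.sw34 (gd_sw34 ▸ hz) (ell_sw34 ▸ hl)
      (by rcases h1 with g | g <;> linarith) (by rcases h2 with g | g <;> linarith) hε).sw34

theorem exists_x2 (h : Reg a b c d e f) (hg : gd a b c d e f < 0) (hl : 0 < ell b c d e f a) :
    ∃ z < a, Reg z b c d e f ∧ gd z b c d e f = 0 ∧ 0 < ell b c d e f z ∧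
      ∀ x, z < x → x ≤ π → gd x b c d e f < 0 := by
  wlog h1 : c - e ≤ b - d ∧ e - c ≤ b - d generalizing b c d e with H
  · have S12 : ∀ {b c d e}, (∃ z < a, Reg z d e b c f ∧ gd z d e b c f = 0 ∧ 0 < ell d e b c f z ∧
        ∀ x, z < x → x ≤ π → gd x d e b c f < 0) → ∃ z < a, Reg z b c d e f ∧ gd z b c d e f = 0 ∧
        0 < ell b c d e f z ∧ ∀ x, z < x → x ≤ π → gd x b c d e f < 0 :=
      fun ⟨z, k1, k2, k3, k4, k5⟩ =>
        ⟨z, k1, k2.sw12, gd_sw12 ▸ k3, ell_sw12 ▸ k4, fun x p q => gd_sw12 ▸ k5 x p q⟩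
    have S34 : ∀ {b c d e}, (∃ z < a, Reg z c b e d f ∧ gd z c b e d f = 0 ∧ 0 < ell c b e d f z ∧
        ∀ x, z < x → x ≤ π → gd x c b e d f < 0) → ∃ z < a, Reg z b c d e f ∧ gd z b c d e f = 0 ∧
        0 < ell b c d e f z ∧ ∀ x, z < x → x ≤ π → gd x b c d e f < 0 :=
      fun ⟨z, k1, k2, k3, k4, k5⟩ =>
        ⟨z, k1, k2.sw34, gd_sw34 ▸ k3, ell_sw34 ▸ k4, fun x p q => gd_sw34 ▸ k5 x p q⟩
    by_cases h2 : e - c ≤ d - b ∧ c - e ≤ d - b
    · exact S12 (H h.sw12 (gd_sw12 ▸ hg) (ell_sw12 ▸ hl) h2)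
    rw [not_and_or, not_le, not_le] at h1 h2
    rcases le_total c e with h3 | h3
    · exact S34 (S12 (H h.sw34.sw12 (gd_sw12 ▸ gd_sw34 ▸ hg) (ell_sw12 ▸ ell_sw34 ▸ hl)
        ⟨by rcases h2 with g | g <;> linarith, by rcases h1 with g | g <;> linarith⟩))
    · exact S34 (H h.sw34 (gd_sw34 ▸ hg) (ell_sw34 ▸ hl)
        ⟨by rcases h1 with g | g <;> linarith, by rcases h2 with g | g <;> linarith⟩)
  obtain ⟨v, v0, hv⟩ := gd_iff h.t1 h.t2
  have l0 := ell_neg h.t1 h.t2 (x := b - d) rfl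
  have l1 := (hv _).1.1 hg
  rw [abs_of_pos hl] at l1
  obtain ⟨z, ⟨m1, m2⟩, m3⟩ := intermediate_value_Ioo (show b - d ≤ a by linarith [h.t3.2.1])
    ell_cont.continuousOn (show v ∈ Set.Ioo (ell b c d e f (b - d)) (ell b c d e f a) from
      ⟨by linarith, l1⟩)
  have r := h.low h1.1 h1.2 m1 m2.le
  refine ⟨z, m2, r, (hv z).2.2 (by rw [m3, abs_of_pos v0]), m3 ▸ v0, fun x p q => (hv x).1.2 ?_⟩
  have := ell_mono (b := b) (c := c) (d := d) (e := e) h.t1.sx ⟨r.t3.mem.1.le, r.t3.mem.2.le⟩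
    ⟨by linarith [r.t3.mem.1], q⟩ p
  exact lt_abs.2 (Or.inl (by linarith))

end Pool.Agent.MP_b0afd3_gt.H80
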